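import Pool.Agent.Helper74.LC.Defs

/-!
# Project LC, block AUTO: automatic sets have linear complexity

`cplx_automatic`. PROOF. Let `κ` be the number of elements of the `b`-kernel and `b ^ k ≥ L > b ^ (k-1)` (for `L ≥ 1`; `L = 0` is trivial). A block of length `L` at the position `n = b^k q + j`, `j < b^k`,
is determined by `j` and the two words `(χ_A(b^k q + i))_{i < b^k}`, `(χ_A(b^k (q+1) + i))_{i < b^k}`. Each of these words is determined by the values at `q` (resp. `q + 1`) of the `κ` elements of the kernel.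
So `cplx A L ≤ b^k · 2^κ · 2^κ ≤ b L 4^κ`.
-/

set_option autoImplicit false

namespace Pool.Agent.Helper74.LC

theorem cplx_automatic {A : Set ℕ} (hA : Automatic A) : ∃ C : ℕ, ∀ L : ℕ, 1 ≤ L → cplx A L ≤ C * L := by
  classical
  obtain ⟨b, hb, hfin⟩ := hA
  set Ker : Set (Set ℕ) := {K : Set ℕ | ∃ k j : ℕ, j < b ^ k ∧ K = {n | b ^ k * n + j ∈ A}} with hKer
  have : Finite Ker := hfin
  refine ⟨b * (2 ^ Nat.card Ker * 2 ^ Nat.card Ker), fun L hL => ?_⟩
  set k : ℕ := Nat.clog b L with hk
  have h1 : L ≤ b ^ k := Nat.le_pow_clog (by omega) L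
  have h2 : b ^ k ≤ b * L := by
    rcases Nat.eq_zero_or_pos k with h0 | h0
    · rw [h0, pow_zero]
      nlinarith
    · have h3 : b ^ (k - 1) < L := by
        rcases Nat.lt_or_ge 1 L with h4 | h4
        · have := Nat.pow_pred_clog_lt_self (by omega : 1 < b) h4
          exact this
        · exfalso
          have : L = 1 := by omega
          rw [hk, this, Nat.clog_one_right] at h0
          omega
      calc b ^ k = b * b ^ (k - 1) := by rw [← pow_succ']; congr 1; omega
        _ ≤ b * L := Nat.mul_le_mul_left _ h3.le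
  have hbk : 0 < b ^ k := by positivity
  let KK : (j : ℕ) → j < b ^ k → Ker := fun j hj => ⟨{n | b ^ k * n + j ∈ A}, k, j, hj, rfl⟩
  let G : Fin (b ^ k) × (Ker → Prop) × (Ker → Prop) → (Fin L → Prop) := fun t i =>
    if h : (t.1 : ℕ) + i < b ^ k then t.2.1 (KK _ h) else
      if h' : (t.1 : ℕ) + i - b ^ k < b ^ k then t.2.2 (KK _ h') else False
  have hsub : (Set.range fun n : ℕ => fun i : Fin L => n + (i : ℕ) ∈ A) ⊆ Set.range G := by
    rintro _ ⟨n, rfl⟩
    refine ⟨(⟨n % b ^ k, Nat.mod_lt _ hbk⟩, (fun K => n / b ^ k ∈ (K : Set ℕ)), fun K => n / b ^ k + 1 ∈ (K : Set ℕ)), ?_⟩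
    funext i
    have hn := Nat.div_add_mod n (b ^ k)
    have hi := i.2
    have hm := Nat.mod_lt n hbk
    simp only [G]
    split_ifs with h h'
    · change (b ^ k * (n / b ^ k) + (n % b ^ k + i) ∈ A) = _
      rw [← add_assoc, hn]
    · change (b ^ k * (n / b ^ k + 1) + (n % b ^ k + i - b ^ k) ∈ A) = _
      have h3 : b ^ k * (n / b ^ k + 1) + (n % b ^ k + i - b ^ k) = n + i := by
        rw [mul_add, mul_one]
        omega
      rw [h3]
    · exfalso
      omega
  have h3 : (Set.range G).ncard ≤ b ^ k * (2 ^ Nat.card Ker * 2 ^ Nat.card Ker) := by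
    rw [← Set.image_univ]
    refine (Set.ncard_image_le (Set.toFinite _)).trans (le_of_eq ?_)
    rw [Set.ncard_univ, Nat.card_prod, Nat.card_prod, Nat.card_fun, Nat.card_eq_fintype_card (α := Fin (b ^ k)), Fintype.card_fin,
      Nat.card_eq_fintype_card (α := Prop), Fintype.card_prop]
  calc cplx A L ≤ (Set.range G).ncard := Set.ncard_le_ncard hsub (Set.toFinite _)
    _ ≤ b ^ k * (2 ^ Nat.card Ker * 2 ^ Nat.card Ker) := h3
    _ ≤ b * L * (2 ^ Nat.card Ker * 2 ^ Nat.card Ker) := Nat.mul_le_mul_right _ h2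
    _ = b * (2 ^ Nat.card Ker * 2 ^ Nat.card Ker) * L := by ring

end Pool.Agent.Helper74.LC
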