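import Pool.Agent.Helper74.LC.Defs

/-!
# Project LC, core: the states of a representation, two repetitions imply periodicity

`d : ℕ → ℝ` is a sequence of digits `0, 1`. `T d n = ∑_{j ≥ 1} d(n+j)/2^j`, `S d n = ∑_{j ≥ 1} j d(n+j)/2^j`, `R d n = n T + S` is the state at level `n`:
`R d (n+1) = 2 R d n - (n+1) d(n+1)`.
`approx_rat`: equal blocks of length `L` after `n` and `n + v` give `|v T n - (R (n+v) - R n)| ≤ (n+v+L+2)/2^L`.
`rigid`: a periodic path of large level is the only path from its state. `core`: two repetitions imply that `d` is eventually periodic.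
-/

set_option autoImplicit false

open Filter Topology

namespace Pool.Agent.Helper74.LC

/-- digit sequences -/
def Dig (d : ℕ → ℝ) : Prop := ∀ n, d n = 0 ∨ d n = 1

/-- the tail `∑ d(n+j)/2^j` -/
noncomputable def T (d : ℕ → ℝ) (n : ℕ) : ℝ := ∑' j : ℕ, d (n + 1 + j) / 2 ^ (j + 1)

/-- the tail `∑ j d(n+j)/2^j` -/
noncomputable def S (d : ℕ → ℝ) (n : ℕ) : ℝ := ∑' j : ℕ, ((j : ℝ) + 1) * d (n + 1 + j) / 2 ^ (j + 1)

/-- the state at level `n` -/
noncomputable def R (d : ℕ → ℝ) (n : ℕ) : ℝ := n * T d n + S d n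

theorem hs1 : HasSum (fun j : ℕ => (1 : ℝ) / 2 ^ (j + 1)) 1 :=
  (hasSum_geometric_two' 1).congr_fun fun j => by rw [pow_succ]; field_simp

theorem hs2 : HasSum (fun j : ℕ => ((j : ℝ) + 1) / 2 ^ (j + 1)) 2 := by
  have h := hasSum_coe_mul_geometric_of_norm_lt_one (𝕜 := ℝ) (r := 1 / 2) (by norm_num)
  have h2 := (hasSum_nat_add_iff' 1).2 h
  simp only [Finset.range_one, Finset.sum_singleton, Nat.cast_zero, zero_mul, sub_zero] at h2
  have h3 : (1 / 2 : ℝ) / (1 - 1 / 2) ^ 2 = 2 := by norm_num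
  rw [h3] at h2
  exact h2.congr_fun fun j => by push_cast; rw [one_div, inv_pow, div_eq_mul_inv]

variable {d d' : ℕ → ℝ}

theorem Dig.nonneg (hd : Dig d) (n : ℕ) : 0 ≤ d n := by
  rcases hd n with h | h <;> rw [h]
  norm_num

theorem Dig.le_one (hd : Dig d) (n : ℕ) : d n ≤ 1 := by
  rcases hd n with h | h <;> rw [h]
  norm_num

theorem sumT (hd : Dig d) (n : ℕ) : Summable fun j : ℕ => d (n + 1 + j) / 2 ^ (j + 1) :=
  Summable.of_nonneg_of_le (fun j => div_nonneg (hd.nonneg _) (by positivity))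
    (fun j => div_le_div_of_nonneg_right (hd.le_one _) (by positivity)) hs1.summable

theorem sumS (hd : Dig d) (n : ℕ) : Summable fun j : ℕ => ((j : ℝ) + 1) * d (n + 1 + j) / 2 ^ (j + 1) :=
  Summable.of_nonneg_of_le (fun j => div_nonneg (mul_nonneg (by positivity) (hd.nonneg _)) (by positivity))
    (fun j => div_le_div_of_nonneg_right (mul_le_of_le_one_right (by positivity) (hd.le_one _)) (by positivity))
    hs2.summable

theorem T_nonneg (hd : Dig d) (n : ℕ) : 0 ≤ T d n :=
  tsum_nonneg fun j => div_nonneg (hd.nonneg _) (by positivity)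

theorem T_le (hd : Dig d) (n : ℕ) : T d n ≤ 1 := by
  have h := Summable.tsum_le_tsum (fun j : ℕ => div_le_div_of_nonneg_right (hd.le_one (n + 1 + j))
    (by positivity : (0 : ℝ) ≤ 2 ^ (j + 1))) (sumT hd n) hs1.summable
  rwa [hs1.tsum_eq] at h

theorem S_nonneg (hd : Dig d) (n : ℕ) : 0 ≤ S d n :=
  tsum_nonneg fun j => div_nonneg (mul_nonneg (by positivity) (hd.nonneg _)) (by positivity)

theorem S_le (hd : Dig d) (n : ℕ) : S d n ≤ 2 := by
  have h := Summable.tsum_le_tsum (fun j : ℕ => div_le_div_of_nonneg_right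
    (mul_le_of_le_one_right (by positivity : (0 : ℝ) ≤ (j : ℝ) + 1) (hd.le_one (n + 1 + j)))
    (by positivity : (0 : ℝ) ≤ 2 ^ (j + 1))) (sumS hd n) hs2.summable
  rwa [hs2.tsum_eq] at h

theorem T_succ (hd : Dig d) (n : ℕ) : T d n = (d (n + 1) + T d (n + 1)) / 2 := by
  unfold T
  rw [(sumT hd n).tsum_eq_zero_add, add_div, ← tsum_div_const]
  congr 1
  · simp
  · refine tsum_congr fun j => ?_
    rw [show n + 1 + (j + 1) = n + 1 + 1 + j by ring, pow_succ (2 : ℝ) (j + 1)]
    field_simp

theorem S_succ (hd : Dig d) (n : ℕ) : S d n = (d (n + 1) + S d (n + 1) + T d (n + 1)) / 2 := by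
  have h1 := (sumS hd n).tsum_eq_zero_add
  have h2 : ∀ j : ℕ, (((j + 1 : ℕ) : ℝ) + 1) * d (n + 1 + (j + 1)) / 2 ^ (j + 1 + 1) =
      (((j : ℝ) + 1) * d (n + 1 + 1 + j) / 2 ^ (j + 1) + d (n + 1 + 1 + j) / 2 ^ (j + 1)) / 2 := by
    intro j
    rw [show n + 1 + (j + 1) = n + 1 + 1 + j by ring, pow_succ (2 : ℝ) (j + 1)]
    push_cast
    field_simp
  rw [tsum_congr h2, tsum_div_const, (sumS hd (n + 1)).tsum_add (sumT hd (n + 1))] at h1
  change S d n = _ at h1
  rw [h1]
  change _ + (S d (n + 1) + T d (n + 1)) / 2 = _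
  simp
  ring

theorem R_succ (hd : Dig d) (n : ℕ) : R d (n + 1) = 2 * R d n - (n + 1) * d (n + 1) := by
  unfold R
  rw [S_succ hd n, T_succ hd n]
  push_cast
  ring

theorem R_nonneg (hd : Dig d) (n : ℕ) : 0 ≤ R d n :=
  add_nonneg (mul_nonneg (Nat.cast_nonneg _) (T_nonneg hd n)) (S_nonneg hd n)

theorem R_le (hd : Dig d) (n : ℕ) : R d n ≤ n + 2 :=
  add_le_add (mul_le_of_le_one_right (Nat.cast_nonneg _) (T_le hd n)) (S_le hd n)

theorem approx (hd : Dig d) (hd' : Dig d') : ∀ (L n n' : ℕ), (∀ i, i < L → d (n + 1 + i) = d' (n' + 1 + i)) →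
    |T d n - T d' n'| ≤ 1 / 2 ^ L ∧ |S d n - S d' n'| ≤ (L + 2) / 2 ^ L := by
  intro L
  induction L with
  | zero =>
    intro n n' _
    have h1 := T_nonneg hd n
    have h2 := T_le hd n
    have h3 := T_nonneg hd' n'
    have h4 := T_le hd' n'
    have h5 := S_nonneg hd n
    have h6 := S_le hd n
    have h7 := S_nonneg hd' n'
    have h8 := S_le hd' n'
    constructor
    · rw [abs_le]
      constructor <;> norm_num <;> linarith
    · rw [abs_le]
      constructor <;> norm_num <;> linarith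
  | succ L ih =>
    intro n n' h
    obtain ⟨h1, h2⟩ := ih (n + 1) (n' + 1) fun i hi => by
      have := h (i + 1) (by omega)
      rwa [show n + 1 + (i + 1) = n + 1 + 1 + i by ring, show n' + 1 + (i + 1) = n' + 1 + 1 + i by ring] at this
    have h0 := h 0 (by omega)
    rw [add_zero, add_zero] at h0
    have e1 : T d n - T d' n' = (T d (n + 1) - T d' (n' + 1)) / 2 := by
      rw [T_succ hd n, T_succ hd' n', h0]; ring
    have e2 : S d n - S d' n' = ((S d (n + 1) - S d' (n' + 1)) + (T d (n + 1) - T d' (n' + 1))) / 2 := by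
      rw [S_succ hd n, S_succ hd' n', h0]; ring
    have h3 : (0 : ℝ) < 2 ^ L := by positivity
    constructor
    · rw [e1, abs_div, abs_two, pow_succ, ← div_div]
      exact div_le_div_of_nonneg_right h1 (by norm_num)
    · rw [e2, abs_div, abs_two, pow_succ, ← div_div]
      refine div_le_div_of_nonneg_right ((abs_add_le _ _).trans ((add_le_add h2 h1).trans (le_of_eq ?_))) (by norm_num)
      push_cast
      ring

/-- two equal blocks make the tail almost rational -/
theorem approx_rat (hd : Dig d) {n v L : ℕ} (h : ∀ i, i < L → d (n + 1 + i) = d (n + v + 1 + i)) :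
    |v * T d n - (R d (n + v) - R d n)| ≤ (n + v + L + 2) / 2 ^ L := by
  obtain ⟨h1, h2⟩ := approx hd hd L n (n + v) h
  have e : v * T d n - (R d (n + v) - R d n) = (n + v) * (T d n - T d (n + v)) + (S d n - S d (n + v)) := by
    unfold R
    push_cast
    ring
  rw [e]
  refine (abs_add_le _ _).trans ?_
  rw [abs_mul, abs_of_nonneg (by positivity : (0 : ℝ) ≤ (n : ℝ) + v)]
  have h3 := mul_le_mul_of_nonneg_left h1 (by positivity : (0 : ℝ) ≤ (n : ℝ) + v)
  refine (add_le_add h3 h2).trans (le_of_eq ?_)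
  ring

/-- the integers -/
def Zi : Subring ℝ := (Int.castRingHom ℝ).range

theorem int_mem (z : ℤ) : (z : ℝ) ∈ Zi := ⟨z, rfl⟩

theorem nat_mem (z : ℕ) : (z : ℝ) ∈ Zi := ⟨z, by simp⟩

theorem dig_mem (hd : Dig d) (n : ℕ) : d n ∈ Zi := by
  rcases hd n with h | h <;> rw [h]
  · exact Zi.zero_mem
  · exact Zi.one_mem

theorem eq_zero_of_int {y : ℝ} (h : y ∈ Zi) (h1 : |y| < 1) : y = 0 := by
  obtain ⟨z, hz⟩ := h
  have hz' : (z : ℝ) = y := hz
  rw [← hz'] at h1 ⊢
  have h2 : |z| < 1 := by exact_mod_cast h1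
  rw [Int.abs_lt_one_iff.1 h2, Int.cast_zero]

theorem R_int (hd : Dig d) {Q : ℝ} (hQ : Q ∈ Zi) (h0 : Q * R d 0 ∈ Zi) (n : ℕ) : Q * R d n ∈ Zi := by
  induction n with
  | zero => exact h0
  | succ n ih =>
    rw [R_succ hd]
    have h1 : Q * (2 * R d n - (n + 1) * d (n + 1)) = 2 * (Q * R d n) - Q * ((n + 1) * d (n + 1)) := by ring
    rw [h1]
    refine Zi.sub_mem (Zi.mul_mem (by exact_mod_cast nat_mem 2) ih) (Zi.mul_mem hQ (Zi.mul_mem ?_ (dig_mem hd _)))
    exact Zi.add_mem (nat_mem n) Zi.one_mem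

/-- once the tail is `0` or `1` it stays there -/
theorem stay (hd : Dig d) {n : ℕ} (h : T d n = 0 ∨ T d n = 1) (i : ℕ) : T d (n + i) = 0 ∨ T d (n + i) = 1 := by
  induction i with
  | zero => exact h
  | succ i ih =>
    have h1 := T_succ hd (n + i)
    have h2 := T_nonneg hd (n + i + 1)
    have h3 := T_le hd (n + i + 1)
    have h4 := hd.nonneg (n + i + 1)
    have h5 := hd.le_one (n + i + 1)
    rw [← add_assoc]
    rcases ih with h6 | h6
    · left; linarith
    · right; linarith

/-- the tails of a periodic sequence -/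
theorem per_tail {m p : ℕ} (hp : ∀ k, m < k → d (k + p) = d k) {n : ℕ} (hn : m ≤ n) :
    T d (n + p) = T d n ∧ S d (n + p) = S d n := by
  constructor
  · unfold T
    refine tsum_congr fun j => ?_
    rw [show n + p + 1 + j = n + 1 + j + p by ring, hp _ (by omega)]
  · unfold S
    refine tsum_congr fun j => ?_
    rw [show n + p + 1 + j = n + 1 + j + p by ring, hp _ (by omega)]

/-- the tails of a periodic sequence are different from `1/2` -/
theorem ne_half (hd : Dig d) {m p : ℕ} (hp0 : 0 < p) (hp : ∀ k, m < k → d (k + p) = d k) {n : ℕ} (hn : m ≤ n) :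
    T d n ≠ 1 / 2 := by
  intro h
  have h1 := T_succ hd n
  have h2 : T d (n + 1) = 0 ∨ T d (n + 1) = 1 := by
    rcases hd (n + 1) with h3 | h3
    · right; linarith
    · left; linarith
  have h3 := stay hd h2 (p - 1)
  rw [show n + 1 + (p - 1) = n + p by omega, (per_tail hp hn).1, h] at h3
  rcases h3 with h3 | h3 <;> norm_num at h3

/-- rigidity: a path which is far away from the branching window is the only path from its state -/
theorem rigid (hd : Dig d) {δ : ℕ → ℝ} (hδ : Dig δ) {m : ℕ} {c : ℝ} (hc : ∀ n, m ≤ n → c ≤ |2 * T δ n - 1|)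
    (hm : 7 < m * c) (h : R d m = R δ m) : ∀ k, m < k → d k = δ k := by
  have hc0 : 0 < c := by
    by_contra h0
    have : (m : ℝ) * c ≤ 0 := mul_nonpos_of_nonneg_of_nonpos (Nat.cast_nonneg _) (not_lt.1 h0)
    linarith
  have key : ∀ i : ℕ, R d (m + i) = R δ (m + i) ∧ ∀ j, j < i → d (m + 1 + j) = δ (m + 1 + j) := by
    intro i
    induction i with
    | zero => exact ⟨h, fun j hj => absurd hj (by omega)⟩
    | succ i ih =>
      obtain ⟨h1, h2⟩ := ih
      have h3 := R_succ hd (m + i)
      have h4 := R_succ hδ (m + i)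
      have hdig : d (m + i + 1) = δ (m + i + 1) := by
        by_contra hne
        have h5 := R_nonneg hd (m + i + 1)
        have h6 := R_le hd (m + i + 1)
        have h7 := R_nonneg hδ (m + i + 1)
        have h8 := R_le hδ (m + i + 1)
        rw [h3] at h5 h6
        rw [h4] at h7 h8
        push_cast at h5 h6 h7 h8
        have h9 : (m : ℝ) + i + 1 ≤ 2 * R δ (m + i) ∧ 2 * R δ (m + i) ≤ m + i + 3 := by
          rcases hd (m + i + 1) with ha | ha <;> rcases hδ (m + i + 1) with hb | hb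
          · exact absurd (ha.trans hb.symm) hne
          · rw [ha, h1] at h5 h6
            rw [hb] at h7 h8
            constructor <;> linarith
          · rw [ha, h1] at h5 h6
            rw [hb] at h7 h8
            constructor <;> linarith
          · exact absurd (ha.trans hb.symm) hne
        have h10 := hc (m + i) (by omega)
        have h11 := S_nonneg hδ (m + i)
        have h12 := S_le hδ (m + i)
        have h13 : ((m : ℝ) + i) * (2 * T δ (m + i) - 1) = 2 * R δ (m + i) - (m + i) - 2 * S δ (m + i) := by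
          unfold R; push_cast; ring
        have h14 : |((m : ℝ) + i) * (2 * T δ (m + i) - 1)| ≤ 7 := by
          rw [h13, abs_le]
          constructor <;> linarith [h9.1, h9.2]
        rw [abs_mul, abs_of_nonneg (by positivity : (0 : ℝ) ≤ (m : ℝ) + i)] at h14
        have h15 : (m : ℝ) * c ≤ ((m : ℝ) + i) * |2 * T δ (m + i) - 1| :=
          mul_le_mul (by linarith [Nat.cast_nonneg (α := ℝ) i]) h10 hc0.le (by positivity)
        linarith
      refine ⟨?_, fun j hj => ?_⟩
      · rw [← add_assoc, h3, h4, h1, hdig]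
      · rcases Nat.lt_succ_iff_lt_or_eq.1 hj with hj | hj
        · exact h2 j hj
        · rw [hj, show m + 1 + i = m + i + 1 by ring]
          exact hdig
  intro k hk
  have h1 := (key (k - m)).2 (k - m - 1) (by omega)
  rwa [show m + 1 + (k - m - 1) = k by omega] at h1

/-- two repetitions on different scales imply that the digits are eventually periodic -/
theorem core (hd : Dig d) {Q : ℕ} (hQ : 0 < Q) (hR : (Q : ℝ) * R d 0 ∈ Zi) {n0 v1 L1 : ℕ} (hv1 : 0 < v1)
    (hL1 : ∀ i, i < L1 → d (n0 + 1 + i) = d (n0 + v1 + 1 + i)) {j0 v2 L2 : ℕ} (hv2 : 0 < v2)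
    (hL2 : ∀ i, i < L2 → d (n0 + j0 + 1 + i) = d (n0 + j0 + v2 + 1 + i)) {J : ℕ} (c0 : 7 * (Q * v2) < n0)
    (c1 : (Q : ℝ) * (v2 * 2 ^ j0 * ((n0 + v1 + L1 + 2) / 2 ^ L1) + v1 * ((n0 + j0 + v2 + L2 + 2) / 2 ^ L2)) < 1)
    (c2 : j0 + Q * v2 + 1 ≤ J)
    (c4 : (Q * v2 : ℝ) * (Q * v2 + 1) * 2 ^ J * ((n0 + v1 + L1 + 2) / 2 ^ L1) +
      (Q * v2 : ℝ) * ((n0 + J + 2) / 2 ^ (J - (j0 + Q * v2 + 1))) < 1) :
    ∃ m p : ℕ, 0 < p ∧ ∀ k, m < k → d (k + p) = d k := by
  have hRn := R_int hd (nat_mem Q) hR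
  have hQ' : (0 : ℝ) < Q := by exact_mod_cast hQ
  have hv1' : (1 : ℝ) ≤ v1 := by exact_mod_cast hv1
  have hv2' : (1 : ℝ) ≤ v2 := by exact_mod_cast hv2
  have hQ1 : (1 : ℝ) ≤ Q := by exact_mod_cast hQ
  set E : ℝ := (n0 + v1 + L1 + 2) / 2 ^ L1 with hE
  have hE0 : 0 ≤ E := by positivity
  set D : ℝ := Q * v2 with hD
  have hD1 : 1 ≤ D := by nlinarith
  -- the first approximation
  have a1 := approx_rat hd hL1
  set e : ℝ := (R d (n0 + v1) - R d n0) / v1 - T d n0 with he
  have he1 : |v1 * e| ≤ E := by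
    have : v1 * e = -(v1 * T d n0 - (R d (n0 + v1) - R d n0)) := by
      rw [he]; field_simp; ring
    rw [this, abs_neg]
    exact a1
  have he2 : |e| ≤ E := by
    refine le_trans ?_ he1
    rw [abs_mul, abs_of_nonneg (by positivity : (0 : ℝ) ≤ v1)]
    nlinarith [abs_nonneg e]
  set ρ : ℕ → ℝ := fun j => T d (n0 + j) + 2 ^ j * e with hρ
  have hρs : ∀ j, ρ (j + 1) = 2 * ρ j - d (n0 + j + 1) := by
    intro j
    simp only [hρ]
    rw [T_succ hd (n0 + j), pow_succ, ← add_assoc]
    ring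
  have hρ1 : ∀ j, (Q : ℝ) * v1 * ρ j ∈ Zi := by
    intro j
    induction j with
    | zero =>
      have : (Q : ℝ) * v1 * ρ 0 = Q * R d (n0 + v1) - Q * R d n0 := by
        simp only [hρ, he, add_zero, pow_zero, one_mul]
        field_simp
        ring
      rw [this]
      exact Zi.sub_mem (hRn _) (hRn _)
    | succ j ih =>
      rw [hρs]
      have : (Q : ℝ) * v1 * (2 * ρ j - d (n0 + j + 1)) = 2 * (Q * v1 * ρ j) - Q * v1 * d (n0 + j + 1) := by ring
      rw [this]
      exact Zi.sub_mem (Zi.mul_mem (by exact_mod_cast nat_mem 2) ih)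
        (Zi.mul_mem (Zi.mul_mem (nat_mem _) (nat_mem _)) (dig_mem hd _))
  -- the second approximation
  have a2 := approx_rat hd hL2
  have hσ : v2 * ρ j0 = R d (n0 + j0 + v2) - R d (n0 + j0) := by
    have h1 : (Q : ℝ) * v1 * (v2 * ρ j0 - (R d (n0 + j0 + v2) - R d (n0 + j0))) ∈ Zi := by
      have : (Q : ℝ) * v1 * (v2 * ρ j0 - (R d (n0 + j0 + v2) - R d (n0 + j0))) =
          v2 * (Q * v1 * ρ j0) - v1 * (Q * R d (n0 + j0 + v2) - Q * R d (n0 + j0)) := by ring
      rw [this]
      exact Zi.sub_mem (Zi.mul_mem (nat_mem _) (hρ1 _))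
        (Zi.mul_mem (nat_mem _) (Zi.sub_mem (hRn _) (hRn _)))
    have h2 : |(Q : ℝ) * v1 * (v2 * ρ j0 - (R d (n0 + j0 + v2) - R d (n0 + j0)))| < 1 := by
      have h3 : (Q : ℝ) * v1 * (v2 * ρ j0 - (R d (n0 + j0 + v2) - R d (n0 + j0))) =
          Q * (v2 * 2 ^ j0 * (v1 * e) + v1 * (v2 * T d (n0 + j0) - (R d (n0 + j0 + v2) - R d (n0 + j0)))) := by
        simp only [hρ]; ring
      rw [h3, abs_mul, abs_of_nonneg hQ'.le]
      refine lt_of_le_of_lt (mul_le_mul_of_nonneg_left ((abs_add_le _ _).trans (add_le_add ?_ ?_)) hQ'.le) c1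
      · rw [abs_mul, abs_of_nonneg (by positivity : (0 : ℝ) ≤ v2 * 2 ^ j0)]
        exact mul_le_mul_of_nonneg_left he1 (by positivity)
      · rw [abs_mul, abs_of_nonneg (by positivity : (0 : ℝ) ≤ (v1 : ℝ))]
        refine mul_le_mul_of_nonneg_left ?_ (by positivity)
        push_cast at a2
        exact a2
    have h4 := eq_zero_of_int h1 h2
    have h5 : (Q : ℝ) * v1 ≠ 0 := by positivity
    have h6 := (mul_eq_zero.1 h4).resolve_left h5
    linarith
  have hρ2 : ∀ j, j0 ≤ j → D * ρ j ∈ Zi := by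
    intro j hj
    induction j, hj using Nat.le_induction with
    | base =>
      have : D * ρ j0 = Q * R d (n0 + j0 + v2) - Q * R d (n0 + j0) := by
        rw [hD, mul_assoc, hσ]; ring
      rw [this]
      exact Zi.sub_mem (hRn _) (hRn _)
    | succ j hj ih =>
      rw [hρs]
      have : D * (2 * ρ j - d (n0 + j + 1)) = 2 * (D * ρ j) - D * d (n0 + j + 1) := by ring
      rw [this]
      exact Zi.sub_mem (Zi.mul_mem (by exact_mod_cast nat_mem 2) ih)
        (Zi.mul_mem (Zi.mul_mem (nat_mem _) (nat_mem _)) (dig_mem hd _))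
  -- bounds for the error
  have hJ1 : D * (D + 1) * 2 ^ J * E < 1 := by
    have : 0 ≤ D * ((n0 + J + 2) / 2 ^ (J - (j0 + Q * v2 + 1))) := by positivity
    linarith
  have herr : ∀ j, j ≤ J → D * (2 ^ j * |e|) < 1 := by
    intro j hj
    refine lt_of_le_of_lt ?_ hJ1
    have h1 : (2 : ℝ) ^ j ≤ 2 ^ J := pow_le_pow_right₀ (by norm_num) hj
    calc D * (2 ^ j * |e|) ≤ D * (2 ^ J * E) := by gcongr
      _ = D * 1 * 2 ^ J * E := by ring
      _ ≤ D * (D + 1) * 2 ^ J * E := by gcongr; linarith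
  have hunit : ∀ j, j0 ≤ j → j ≤ J → 0 ≤ ρ j ∧ ρ j ≤ 1 := by
    intro j hj hjJ
    obtain ⟨z, hz⟩ := hρ2 j hj
    have hz' : (z : ℝ) = D * ρ j := hz
    have h1 := herr j hjJ
    have h2 : |2 ^ j * e| = 2 ^ j * |e| := by rw [abs_mul, abs_of_nonneg (by positivity : (0 : ℝ) ≤ 2 ^ j)]
    have h3 := T_nonneg hd (n0 + j)
    have h4 := T_le hd (n0 + j)
    have h5 := abs_le.1 (le_of_eq h2)
    have hρj : ρ j = T d (n0 + j) + 2 ^ j * e := rfl
    have hD0 : 0 < D := by linarith
    constructor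
    · have h6 : (-1 : ℝ) < z := by
        rw [hz', hρj]
        nlinarith [h5.1]
      have h7 : (-1 : ℤ) < z := by exact_mod_cast h6
      have h8 : (0 : ℝ) ≤ z := by exact_mod_cast (by omega : 0 ≤ z)
      rw [hz'] at h8
      exact nonneg_of_mul_nonneg_right h8 hD0
    · have h6 : (z : ℝ) < Q * v2 + 1 := by
        rw [hz', hρj]
        nlinarith [h5.2]
      have h7 : z < (Q * v2 : ℕ) + 1 := by exact_mod_cast h6
      have h8 : (z : ℝ) ≤ D := by
        have : z ≤ (Q * v2 : ℕ) := by omega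
        rw [hD]
        exact_mod_cast this
      rw [hz'] at h8
      nlinarith
  -- two equal values
  obtain ⟨j, j', hjj, hj0, hj', hval⟩ : ∃ j j' : ℕ, j < j' ∧ j0 ≤ j ∧ j' ≤ j0 + Q * v2 + 1 ∧ ρ j = ρ j' := by
    choose! z hz using hρ2
    have hz' : ∀ j, j0 ≤ j → (z j : ℝ) = D * ρ j := hz
    have hD0 : 0 < D := by linarith
    have hmaps : Set.MapsTo z (Finset.Icc j0 (j0 + Q * v2 + 1) : Finset ℕ) (Finset.Icc (0 : ℤ) (Q * v2 : ℕ) : Finset ℤ) := by
      intro j hj
      rw [Finset.coe_Icc, Set.mem_Icc] at hj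
      obtain ⟨h1, h2⟩ := hunit j hj.1 (hj.2.trans c2)
      rw [Finset.coe_Icc, Set.mem_Icc]
      constructor
      · have : (0 : ℝ) ≤ z j := by rw [hz' j hj.1]; positivity
        exact_mod_cast this
      · have : (z j : ℝ) ≤ (Q * v2 : ℕ) := by
          rw [hz' j hj.1]
          push_cast
          nlinarith
        exact_mod_cast this
    obtain ⟨a, ha, b, hb, hab, hzz⟩ := Finset.exists_ne_map_eq_of_card_lt_of_maps_to (by
      rw [Int.card_Icc, Nat.card_Icc]
      omega) hmaps
    rw [Finset.mem_Icc] at ha hb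
    have hv : ρ a = ρ b := by
      have h1 := hz' a ha.1
      have h2 := hz' b hb.1
      rw [hzz, h2] at h1
      exact (mul_left_cancel₀ hD0.ne' h1).symm
    rcases lt_or_gt_of_ne hab with h | h
    · exact ⟨a, b, h, ha.1, hb.2, hv⟩
    · exact ⟨b, a, h, hb.1, ha.2, hv.symm⟩
  have hj'J : j' ≤ J := hj'.trans c2
  -- after `0` or `1` the values stay
  have hstay : ∀ l, j0 ≤ l → (ρ l = 0 ∨ ρ l = 1) → ∀ i, l + i ≤ J → (ρ (l + i) = 0 ∨ ρ (l + i) = 1) := by
    intro l hl h0 i
    induction i with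
    | zero => exact fun _ => h0
    | succ i ih =>
      intro hi
      have h1 := hρs (l + i)
      obtain ⟨h2, h3⟩ := hunit (l + i + 1) (by omega) (by omega)
      have h4 := hd.nonneg (n0 + (l + i) + 1)
      have h5 := hd.le_one (n0 + (l + i) + 1)
      rw [← add_assoc]
      rcases ih (by omega) with h6 | h6
      · left; rw [h6] at h1; linarith
      · right; rw [h6] at h1; linarith
  have hper : ∀ i, j' + i ≤ J → ρ (j + i) = ρ (j' + i) ∧ ∀ i', i' < i → d (n0 + j + 1 + i') = d (n0 + j' + 1 + i') := by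
    intro i
    induction i with
    | zero => exact fun _ => ⟨hval, fun i' hi' => absurd hi' (by omega)⟩
    | succ i ih =>
      intro hi
      obtain ⟨h1, h2⟩ := ih (by omega)
      have h3 := hρs (j + i)
      have h4 := hρs (j' + i)
      have h5 := hunit (j + i + 1) (by omega) (by omega)
      have h6 := hunit (j' + i + 1) (by omega) (by omega)
      have hdig : d (n0 + (j + i) + 1) = d (n0 + (j' + i) + 1) := by
        by_contra hne
        have h7 : ρ (j + i) = 1 / 2 ∧ (ρ (j + i + 1) = 0 ∨ ρ (j + i + 1) = 1) := by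
          rcases hd (n0 + (j + i) + 1) with ha | ha <;> rcases hd (n0 + (j' + i) + 1) with hb | hb
          · exact absurd (ha.trans hb.symm) hne
          · rw [ha] at h3; rw [hb, ← h1] at h4
            have : ρ (j + i) = 1 / 2 := by linarith [h5.2, h6.1]
            exact ⟨this, Or.inr (by rw [h3, this]; norm_num)⟩
          · rw [ha] at h3; rw [hb, ← h1] at h4
            have : ρ (j + i) = 1 / 2 := by linarith [h5.1, h6.2]
            exact ⟨this, Or.inl (by rw [h3, this]; norm_num)⟩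
          · exact absurd (ha.trans hb.symm) hne
        have h8 := hstay (j + i + 1) (by omega) h7.2 (j' + i - (j + i + 1)) (by omega)
        rw [show j + i + 1 + (j' + i - (j + i + 1)) = j' + i by omega, ← h1, h7.1] at h8
        rcases h8 with h8 | h8 <;> norm_num at h8
      refine ⟨?_, fun i' hi' => ?_⟩
      · rw [← add_assoc, ← add_assoc, h3, h4, h1, hdig]
      · rcases Nat.lt_succ_iff_lt_or_eq.1 hi' with hi' | hi'
        · exact h2 i' hi'
        · rw [hi', show n0 + j + 1 + i = n0 + (j + i) + 1 by ring, show n0 + j' + 1 + i = n0 + (j' + i) + 1 by ring]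
          exact hdig
  -- exactness
  set p : ℕ := j' - j with hp
  have hp0 : 0 < p := by omega
  have hjp : j' = j + p := by omega
  set m : ℕ := n0 + j with hm
  have hpD : (p : ℝ) ≤ D + 1 := by
    have : p ≤ Q * v2 + 1 := by omega
    rw [hD]
    exact_mod_cast this
  have hblock : ∀ i, i < J - j' → d (m + 1 + i) = d (m + p + 1 + i) := by
    intro i hi
    have h1 := (hper (J - j') (by omega)).2 i hi
    rw [hjp, ← add_assoc] at h1
    exact h1
  have a3 := approx_rat hd hblock
  have hex : R d (m + p) - R d m = p * ρ j := by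
    have h1 : D * (p * ρ j - (R d (m + p) - R d m)) ∈ Zi := by
      have : D * (p * ρ j - (R d (m + p) - R d m)) = p * (D * ρ j) - v2 * (Q * R d (m + p) - Q * R d m) := by
        rw [hD]; ring
      rw [this]
      exact Zi.sub_mem (Zi.mul_mem (nat_mem _) (hρ2 j hj0))
        (Zi.mul_mem (nat_mem _) (Zi.sub_mem (hRn _) (hRn _)))
    have h2 : |D * (p * ρ j - (R d (m + p) - R d m))| < 1 := by
      have h3 : D * (p * ρ j - (R d (m + p) - R d m)) =
          D * p * (2 ^ j * e) + D * (p * T d m - (R d (m + p) - R d m)) := by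
        simp only [hρ, hm]; ring
      rw [h3]
      refine lt_of_le_of_lt ((abs_add_le _ _).trans (add_le_add ?_ ?_)) c4
      · rw [abs_mul, abs_mul (2 ^ j), abs_of_nonneg (by positivity : (0 : ℝ) ≤ D * p),
          abs_of_nonneg (by positivity : (0 : ℝ) ≤ 2 ^ j)]
        have h4 : (2 : ℝ) ^ j ≤ 2 ^ J := pow_le_pow_right₀ (by norm_num) (by omega)
        calc D * p * (2 ^ j * |e|) ≤ D * (D + 1) * (2 ^ J * E) := by gcongr
          _ = _ := by ring
      · rw [abs_mul, abs_of_nonneg (by linarith : (0 : ℝ) ≤ D)]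
        refine mul_le_mul_of_nonneg_left (a3.trans ?_) (by linarith)
        have h5 : ((m : ℝ) + p + (J - j' : ℕ) + 2) = n0 + J + 2 := by
          have : m + p + (J - j') = n0 + J := by omega
          have h6 : ((m + p + (J - j') : ℕ) : ℝ) = ((n0 + J : ℕ) : ℝ) := by rw [this]
          push_cast at h6 ⊢
          linarith
        rw [h5]
        refine div_le_div_of_nonneg_left (by positivity) (by positivity) ?_
        exact pow_le_pow_right₀ (by norm_num) (by omega)
    have h7 := eq_zero_of_int h1 h2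
    have h8 := (mul_eq_zero.1 h7).resolve_left (by linarith : D ≠ 0)
    linarith
  -- the periodic continuation
  set δ : ℕ → ℝ := fun k => if k ≤ m then d k else d (m + 1 + (k - (m + 1)) % p) with hδ
  have hδd : Dig δ := by
    intro k
    simp only [hδ]
    split_ifs
    · exact hd _
    · exact hd _
  have hδ1 : ∀ i, i < p → δ (m + 1 + i) = d (m + 1 + i) := by
    intro i hi
    simp only [hδ]
    rw [if_neg (by omega), show m + 1 + i - (m + 1) = i by omega, Nat.mod_eq_of_lt hi]
  have hδp : ∀ k, m < k → δ (k + p) = δ k := by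
    intro k hk
    simp only [hδ]
    rw [if_neg (by omega), if_neg (by omega), show k + p - (m + 1) = k - (m + 1) + p by omega, Nat.add_mod_right]
  have hTδ : T δ m = ρ j := by
    have h1 : ∀ i, i ≤ p → T δ (m + i) - ρ (j + i) = 2 ^ i * (T δ m - ρ j) := by
      intro i
      induction i with
      | zero => intro _; simp
      | succ i ih =>
        intro hi
        have h2 := T_succ hδd (m + i)
        have h3 := hρs (j + i)
        have h4 := hδ1 i (by omega)
        have h5 := ih (by omega)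
        rw [show m + 1 + i = m + i + 1 by ring] at h4
        rw [show n0 + (j + i) + 1 = m + i + 1 by omega] at h3
        rw [← add_assoc, ← add_assoc, pow_succ]
        linear_combination 2 * h5 - 2 * h2 - h3 - h4
    have h2 := h1 p le_rfl
    rw [(per_tail hδp le_rfl).1, ← hjp, ← hval] at h2
    have h3 : (2 : ℝ) ^ p ≠ 1 := by
      have : (1 : ℝ) < 2 ^ p := one_lt_pow₀ (by norm_num) (by omega)
      exact this.ne'
    have h4 : (2 ^ p - 1) * (T δ m - ρ j) = 0 := by linear_combination -h2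
    have h5 := (mul_eq_zero.1 h4).resolve_left (sub_ne_zero.2 h3)
    linarith
  have hRδ : R d m = R δ m := by
    have h1 : ∀ i, i ≤ p → R δ (m + i) - R d (m + i) = 2 ^ i * (R δ m - R d m) := by
      intro i
      induction i with
      | zero => intro _; simp
      | succ i ih =>
        intro hi
        have h2 := R_succ hδd (m + i)
        have h3 := R_succ hd (m + i)
        have h4 := hδ1 i (by omega)
        have h5 := ih (by omega)
        rw [show m + 1 + i = m + i + 1 by ring] at h4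
        rw [← add_assoc, pow_succ, h2, h3, h4]
        linear_combination 2 * h5
    have h2 := h1 p le_rfl
    have h3 : R δ (m + p) = R δ m + p * T δ m := by
      obtain ⟨h4, h5⟩ := per_tail hδp (le_refl m)
      unfold R
      rw [h4, h5]
      push_cast
      ring
    have h4 : (2 : ℝ) ^ p ≠ 1 := by
      have : (1 : ℝ) < 2 ^ p := one_lt_pow₀ (by norm_num) (by omega)
      exact this.ne'
    have h5 : (2 ^ p - 1) * (R δ m - R d m) = 0 := by
      rw [hTδ] at h3
      linear_combination -h2 + h3 - hex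
    have h6 := (mul_eq_zero.1 h5).resolve_left (sub_ne_zero.2 h4)
    linarith
  -- the denominators of the periodic tails
  have hden : ∀ i, D * T δ (m + i) ∈ Zi := by
    intro i
    induction i with
    | zero =>
      rw [add_zero, hTδ]
      exact hρ2 j hj0
    | succ i ih =>
      have h2 := T_succ hδd (m + i)
      have : D * T δ (m + (i + 1)) = 2 * (D * T δ (m + i)) - D * δ (m + i + 1) := by
        rw [← add_assoc]
        linear_combination -2 * D * h2
      rw [this]
      exact Zi.sub_mem (Zi.mul_mem (by exact_mod_cast nat_mem 2) ih)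
        (Zi.mul_mem (Zi.mul_mem (nat_mem _) (nat_mem _)) (dig_mem hδd _))
  have hD0 : 0 < D := by linarith
  have hfar : ∀ n, m ≤ n → 1 / D ≤ |2 * T δ n - 1| := by
    intro n hn
    obtain ⟨i, rfl⟩ := Nat.exists_eq_add_of_le hn
    have h1 := ne_half hδd hp0 hδp hn
    rw [div_le_iff₀ hD0]
    by_contra h2
    push Not at h2
    have h3 : D * (2 * T δ (m + i) - 1) ∈ Zi := by
      have : D * (2 * T δ (m + i) - 1) = 2 * (D * T δ (m + i)) - D := by ring
      rw [this]
      exact Zi.sub_mem (Zi.mul_mem (by exact_mod_cast nat_mem 2) (hden i)) (Zi.mul_mem (nat_mem _) (nat_mem _))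
    have h4 := eq_zero_of_int h3 (by
      rw [abs_mul, abs_of_pos hD0, mul_comm]
      exact h2)
    have h5 := (mul_eq_zero.1 h4).resolve_left hD0.ne'
    exact h1 (by linarith)
  have hm7 : 7 < (m : ℝ) * (1 / D) := by
    rw [mul_one_div, lt_div_iff₀ hD0]
    have h1 : 7 * (Q * v2) < m := by omega
    rw [hD]
    exact_mod_cast h1
  have hfin := rigid hd hδd hfar hm7 hRδ
  refine ⟨m, p, hp0, fun k hk => ?_⟩
  rw [hfin (k + p) (by omega), hfin k hk, hδp k hk]

end Pool.Agent.Helper74.LC
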