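import Pool.Agent.Helper74.LC.Core

/-!
# Project LC: sets of low complexity with a rational sum are eventually periodic

`exists_rep`: repetitions from the complexity (pigeonhole). `cplx_add_le`: the complexity is submultiplicative. `low_cplx`: the theorem.
-/

set_option autoImplicit false

open Filter Topology

namespace Pool.Agent.Helper74.LC

variable (A : Set ℕ)

/-- the block of length `L` at the position `n` -/
def blk (L n : ℕ) : Fin L → Prop := fun i => n + (i : ℕ) ∈ A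

theorem cplx_eq (L : ℕ) : cplx A L = (Set.range (blk A L)).ncard := rfl

theorem exists_rep (L a : ℕ) : ∃ n n' : ℕ, a ≤ n ∧ n < n' ∧ n' ≤ a + cplx A L ∧
    ∀ i, i < L → (n + 1 + i ∈ A ↔ n' + 1 + i ∈ A) := by
  classical
  have hfin : (Set.range (blk A L)).Finite := Set.toFinite _
  have hmaps : Set.MapsTo (fun n => blk A L (n + 1)) (Finset.Icc a (a + cplx A L) : Finset ℕ) (hfin.toFinset : Finset (Fin L → Prop)) := by
    intro n _
    rw [Finset.mem_coe, Set.Finite.mem_toFinset]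
    exact ⟨n + 1, rfl⟩
  obtain ⟨n, hn, n', hn', hne, heq⟩ := Finset.exists_ne_map_eq_of_card_lt_of_maps_to (by
    rw [← Set.ncard_eq_toFinset_card _ hfin, ← cplx_eq, Nat.card_Icc]
    omega) hmaps
  rw [Finset.mem_Icc] at hn hn'
  have hb : ∀ i, i < L → (n + 1 + i ∈ A ↔ n' + 1 + i ∈ A) := by
    intro i hi
    have := congrFun heq ⟨i, hi⟩
    exact iff_of_eq this
  rcases lt_or_gt_of_ne hne with h | h
  · exact ⟨n, n', hn.1, h, hn'.2, hb⟩
  · exact ⟨n', n, hn'.1, h, hn.2, fun i hi => (hb i hi).symm⟩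

theorem cplx_zero : cplx A 0 = 1 := by
  rw [cplx_eq, Set.ncard_eq_one]
  refine ⟨blk A 0 0, ?_⟩
  ext w
  rw [Set.mem_range, Set.mem_singleton_iff]
  constructor
  · rintro ⟨n, rfl⟩
    exact funext fun i => i.elim0
  · rintro rfl
    exact ⟨0, rfl⟩

theorem cplx_pos (L : ℕ) : 1 ≤ cplx A L := by
  rw [cplx_eq, Nat.one_le_iff_ne_zero, ← Nat.pos_iff_ne_zero, Set.ncard_pos (Set.toFinite _)]
  exact Set.range_nonempty _

theorem cplx_mono {L L' : ℕ} (h : L ≤ L') : cplx A L ≤ cplx A L' := by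
  rw [cplx_eq, cplx_eq]
  have h1 : Set.range (blk A L) = (fun (w : Fin L' → Prop) (i : Fin L) => w (Fin.castLE h i)) '' Set.range (blk A L') := by
    rw [← Set.range_comp]
    rfl
  rw [h1]
  exact Set.ncard_image_le (Set.toFinite _)

theorem cplx_add_le (a b : ℕ) : cplx A (a + b) ≤ cplx A a * cplx A b := by
  rw [cplx_eq, cplx_eq, cplx_eq, ← Set.ncard_prod]
  refine Set.ncard_le_ncard_of_injOn (fun w => (fun i => w (Fin.castAdd b i), fun i => w (Fin.natAdd a i))) ?_ ?_ (Set.toFinite _)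
  · rintro _ ⟨n, rfl⟩
    refine ⟨⟨n, ?_⟩, ⟨n + a, ?_⟩⟩
    · rfl
    · exact funext fun i => by
        change (n + a + (i : ℕ) ∈ A) = (n + (a + (i : ℕ)) ∈ A)
        rw [add_assoc]
  · intro w _ w' _ h
    rw [Prod.mk.injEq] at h
    funext i
    rcases lt_or_ge (i : ℕ) a with hi | hi
    · exact congrFun h.1 ⟨i, hi⟩
    · have h2 := congrFun h.2 ⟨i - a, by omega⟩
      have h3 : Fin.natAdd a (⟨i - a, by omega⟩ : Fin b) = i := Fin.ext (by simp; omega)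
      rwa [h3] at h2

theorem cplx_mul_le (l t : ℕ) : cplx A (l * t) ≤ cplx A l ^ t := by
  induction t with
  | zero => rw [mul_zero, cplx_zero, pow_zero]
  | succ t ih =>
    rw [mul_add, mul_one, pow_succ]
    exact (cplx_add_le A _ _).trans (Nat.mul_le_mul_right _ ih)

/-- the digits of a set -/
noncomputable def dg : ℕ → ℝ := A.indicator fun _ => 1

theorem dg_dig : Dig (dg A) := by
  intro n
  by_cases h : n ∈ A
  · right; exact Set.indicator_of_mem h _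
  · left; exact Set.indicator_of_notMem h _

theorem dg_eq {n n' : ℕ} (h : n ∈ A ↔ n' ∈ A) : dg A n = dg A n' := by
  by_cases hn : n ∈ A
  · rw [dg, Set.indicator_of_mem hn, Set.indicator_of_mem (h.1 hn)]
  · rw [dg, Set.indicator_of_notMem hn, Set.indicator_of_notMem fun hc => hn (h.2 hc)]

theorem dg_iff {A' : Set ℕ} {n n' : ℕ} (h : dg A n = dg A' n') : (n ∈ A ↔ n' ∈ A') := by
  by_cases hn : n ∈ A <;> by_cases hn' : n' ∈ A'
  · exact ⟨fun _ => hn', fun _ => hn⟩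
  · rw [dg, dg, Set.indicator_of_mem hn, Set.indicator_of_notMem hn'] at h
    norm_num at h
  · rw [dg, dg, Set.indicator_of_notMem hn, Set.indicator_of_mem hn'] at h
    norm_num at h
  · exact ⟨fun h => absurd h hn, fun h => absurd h hn'⟩

theorem R_zero {x : ℝ} (hx : HasSum (fun a : A => ((a : ℕ) : ℝ) / 2 ^ (a : ℕ)) x) : R (dg A) 0 = x := by
  have h1 : HasSum (A.indicator fun k : ℕ => (k : ℝ) / 2 ^ k) x := hasSum_subtype_iff_indicator.1 hx
  have h2 := (hasSum_nat_add_iff' 1).2 h1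
  have h3 : A.indicator (fun k : ℕ => (k : ℝ) / 2 ^ k) 0 = 0 := by
    by_cases h : 0 ∈ A
    · rw [Set.indicator_of_mem h]; simp
    · exact Set.indicator_of_notMem h _
  simp only [Finset.range_one, Finset.sum_singleton, h3, sub_zero] at h2
  unfold R S
  rw [Nat.cast_zero, zero_mul, zero_add, ← h2.tsum_eq]
  refine tsum_congr fun j => ?_
  rw [zero_add, add_comm 1 j]
  by_cases h : j + 1 ∈ A
  · rw [dg, Set.indicator_of_mem h, Set.indicator_of_mem h]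
    push_cast
    ring
  · rw [dg, Set.indicator_of_notMem h, Set.indicator_of_notMem h]
    ring

theorem big (M : ℕ) : ∀ k, 4 * M ≤ k → M * (k + 1) ≤ 2 ^ k := by
  intro k hk
  induction k, hk using Nat.le_induction with
  | base =>
    have h1 : 2 * M + 1 ≤ 2 ^ (2 * M) := Nat.lt_two_pow_self
    have h2 : 2 ^ (4 * M) = 2 ^ (2 * M) * 2 ^ (2 * M) := by rw [← pow_add]; congr 1; ring
    rw [h2]
    nlinarith
  | succ k hk ih =>
    rw [pow_succ]
    nlinarith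

theorem num_c1 {Q v2 v1 a b X : ℝ} {j0 L1 L2 : ℕ} (hQ : 0 ≤ Q) (hv2 : 0 ≤ v2) (hv1 : 0 ≤ v1) (ha : 0 ≤ a) (hb : 0 ≤ b)
    (hQX : Q ≤ X) (hv2X : v2 ≤ X) (hv1X : v1 ≤ X) (haX : a ≤ X) (hbX : b ≤ X) (hX : 2 * X ^ 3 ≤ 2 ^ L2)
    (h : L2 + j0 + 1 ≤ L1) : Q * (v2 * 2 ^ j0 * (a / 2 ^ L1) + v1 * (b / 2 ^ L2)) < 1 := by
  have hX0 : 0 ≤ X := hQ.trans hQX
  have h1 : Q * v2 * a ≤ X ^ 3 := by
    calc Q * v2 * a ≤ X * X * X := by gcongr
      _ = X ^ 3 := by ring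
  have h2 : Q * v1 * b ≤ X ^ 3 := by
    calc Q * v1 * b ≤ X * X * X := by gcongr
      _ = X ^ 3 := by ring
  have h3 : (2 : ℝ) ^ j0 / 2 ^ L1 ≤ 1 / (2 * 2 ^ L2) := by
    rw [div_le_div_iff₀ (by positivity) (by positivity), one_mul]
    calc (2 : ℝ) ^ j0 * (2 * 2 ^ L2) = 2 ^ (L2 + j0 + 1) := by rw [pow_succ, pow_add]; ring
      _ ≤ 2 ^ L1 := pow_le_pow_right₀ (by norm_num) h
  have h4 : (0 : ℝ) < 2 ^ L2 := by positivity
  have h5 : X ^ 3 * (1 / (2 * 2 ^ L2)) ≤ 1 / 4 := by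
    rw [mul_one_div, div_le_div_iff₀ (by positivity) (by norm_num)]
    linarith
  have h6 : X ^ 3 / 2 ^ L2 ≤ 1 / 2 := by
    rw [div_le_div_iff₀ (by positivity) (by norm_num)]
    linarith
  calc Q * (v2 * 2 ^ j0 * (a / 2 ^ L1) + v1 * (b / 2 ^ L2)) = Q * v2 * a * (2 ^ j0 / 2 ^ L1) + Q * v1 * b / 2 ^ L2 := by ring
    _ ≤ X ^ 3 * (1 / (2 * 2 ^ L2)) + X ^ 3 / 2 ^ L2 := by gcongr
    _ < 1 := by linarith

theorem num_c4 {D a b X : ℝ} {J g L1 L2 : ℕ} (hD : 0 ≤ D) (ha : 0 ≤ a) (hb : 0 ≤ b) (hDX : D + 1 ≤ X) (haX : a ≤ X)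
    (hbX : b ≤ X) (hX : 2 * X ^ 3 ≤ 2 ^ L2) (h : L2 + g ≤ J) (hg : 1 ≤ g) (h2 : 2 * J ≤ L1) :
    D * (D + 1) * 2 ^ J * (a / 2 ^ L1) + D * (b / 2 ^ (J - g)) < 1 := by
  have hX0 : 0 ≤ X := by linarith
  have hX1 : 1 ≤ X := by linarith
  have h1 : D * (D + 1) * a ≤ X ^ 3 := by
    calc D * (D + 1) * a ≤ X * X * X := by gcongr; linarith
      _ = X ^ 3 := by ring
  have h2' : D * b ≤ X ^ 3 := by
    calc D * b ≤ X * X := by gcongr; linarith
      _ ≤ X * X * X := le_mul_of_one_le_right (by positivity) hX1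
      _ = X ^ 3 := by ring
  have h3 : (2 : ℝ) ^ J / 2 ^ L1 ≤ 1 / (2 * 2 ^ L2) := by
    rw [div_le_div_iff₀ (by positivity) (by positivity), one_mul]
    calc (2 : ℝ) ^ J * (2 * 2 ^ L2) = 2 ^ (J + (L2 + 1)) := by rw [pow_add, pow_succ]; ring
      _ ≤ 2 ^ L1 := pow_le_pow_right₀ (by norm_num) (by omega)
  have h3' : (1 : ℝ) / 2 ^ (J - g) ≤ 1 / 2 ^ L2 := by
    refine one_div_le_one_div_of_le (by positivity) (pow_le_pow_right₀ (by norm_num) (by omega))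
  have h4 : (0 : ℝ) < 2 ^ L2 := by positivity
  have h5 : X ^ 3 * (1 / (2 * 2 ^ L2)) ≤ 1 / 4 := by
    rw [mul_one_div, div_le_div_iff₀ (by positivity) (by norm_num)]
    linarith
  have h6 : X ^ 3 * (1 / 2 ^ L2) ≤ 1 / 2 := by
    rw [mul_one_div, div_le_div_iff₀ (by positivity) (by norm_num)]
    linarith
  calc D * (D + 1) * 2 ^ J * (a / 2 ^ L1) + D * (b / 2 ^ (J - g)) =
      D * (D + 1) * a * (2 ^ J / 2 ^ L1) + D * b * (1 / 2 ^ (J - g)) := by ring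
    _ ≤ X ^ 3 * (1 / (2 * 2 ^ L2)) + X ^ 3 * (1 / 2 ^ L2) := by gcongr
    _ < 1 := by linarith

variable {A}

/-- The criterion: if the complexity is small at two scales then the set is eventually periodic. -/
theorem two_scale {x : ℚ} (hx : HasSum (fun a : A => ((a : ℕ) : ℝ) / 2 ^ (a : ℕ)) (x : ℝ)) {L1 L2 X : ℕ}
    (hX3 : 2 * X ^ 3 ≤ 2 ^ L2) (hgap0 : 2 * (L2 + ((x.den + 1) * cplx A L2 + 1)) ≤ L1)
    (hXb : 7 * (x.den * cplx A L2) + 1 + cplx A L1 + L1 + 2 ≤ X) : EvPer A := by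
  set Q : ℕ := x.den with hQd
  have hQ : 0 < Q := x.den_pos
  set W : ℕ := cplx A L2 with hW
  have hW1 : 1 ≤ W := cplx_pos A L2
  set P : ℕ := cplx A L1 with hP
  set N0 : ℕ := 7 * (Q * W) + 1 with hN0
  obtain ⟨n0, n1, h1, h2, h3, h4⟩ := exists_rep A L1 N0
  obtain ⟨m0, m1, h5, h6, h7, h8⟩ := exists_rep A L2 n0
  obtain ⟨v1, rfl⟩ := Nat.exists_eq_add_of_lt h2
  obtain ⟨j0, rfl⟩ := Nat.exists_eq_add_of_le h5
  obtain ⟨v2, rfl⟩ := Nat.exists_eq_add_of_lt h6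
  rw [← hW] at h7
  rw [← hP] at h3
  have hd := dg_dig A
  have hR0 : (Q : ℝ) * R (dg A) 0 ∈ Zi := by
    rw [R_zero A hx]
    have : (Q : ℝ) * (x : ℝ) = ((x.num : ℤ) : ℝ) := by
      have h9 : (x : ℚ) * x.den = x.num := Rat.mul_den_eq_num x
      rw [mul_comm]
      exact_mod_cast congrArg (fun y : ℚ => (y : ℝ)) h9
    rw [this]
    exact int_mem _
  have hj0W : j0 + v2 + 1 ≤ W := by omega
  have hv2W : v2 + 1 ≤ W := by omega
  have hQv : Q * (v2 + 1) ≤ Q * W := Nat.mul_le_mul_left _ hv2W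
  have hQW : (Q + 1) * W = Q * W + W := by ring
  set J : ℕ := L1 / 2 with hJ
  have hJ2 : 2 * J ≤ L1 ∧ L1 ≤ 2 * J + 1 := by omega
  have hgap : L2 + (j0 + Q * (v2 + 1) + 1) ≤ J := by omega
  have hbX : n0 + (v1 + 1) + L1 + 2 ≤ X := by omega
  have hbX2 : n0 + j0 + (v2 + 1) + L2 + 2 ≤ X := by omega
  have hbX3 : n0 + J + 2 ≤ X := by omega
  have hbX4 : v1 + 1 ≤ X := by omega
  have hbX5 : v2 + 1 ≤ X := by omega
  have hbX7 : Q * (v2 + 1) + 1 ≤ X := by omega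
  have hbX6 : Q ≤ X := by
    have : Q ≤ Q * (v2 + 1) := Nat.le_mul_of_pos_right _ (by omega)
    omega
  have hX3' : 2 * (X : ℝ) ^ 3 ≤ 2 ^ L2 := by exact_mod_cast hX3
  have hc1 : (Q : ℝ) * (((v2 + 1 : ℕ) : ℝ) * 2 ^ j0 * (((n0 : ℝ) + (v1 + 1 : ℕ) + L1 + 2) / 2 ^ L1) +
      ((v1 + 1 : ℕ) : ℝ) * (((n0 : ℝ) + j0 + (v2 + 1 : ℕ) + L2 + 2) / 2 ^ L2)) < 1 :=
    num_c1 (X := X) (Nat.cast_nonneg _) (Nat.cast_nonneg _) (Nat.cast_nonneg _) (by positivity) (by positivity)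
      (by exact_mod_cast hbX6) (by exact_mod_cast hbX5) (by exact_mod_cast hbX4) (by exact_mod_cast hbX)
      (by exact_mod_cast hbX2) hX3' (by omega)
  have hc4 : (Q * (v2 + 1 : ℕ) : ℝ) * (Q * (v2 + 1 : ℕ) + 1) * 2 ^ J * (((n0 : ℝ) + (v1 + 1 : ℕ) + L1 + 2) / 2 ^ L1) +
      (Q * (v2 + 1 : ℕ) : ℝ) * (((n0 : ℝ) + J + 2) / 2 ^ (J - (j0 + Q * (v2 + 1) + 1))) < 1 :=
    num_c4 (X := X) (by positivity) (by positivity) (by positivity) (by exact_mod_cast hbX7) (by exact_mod_cast hbX)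
      (by exact_mod_cast hbX3) hX3' hgap (by omega) hJ2.1
  obtain ⟨m, p, hp, hper⟩ := core hd hQ hR0 (n0 := n0) (v1 := v1 + 1) (L1 := L1) (by omega)
    (fun i hi => dg_eq A (by
      have := h4 i hi
      rwa [show n0 + v1 + 1 + 1 + i = n0 + (v1 + 1) + 1 + i by ring] at this))
    (j0 := j0) (v2 := v2 + 1) (L2 := L2) (by omega)
    (fun i hi => dg_eq A (by
      have := h8 i hi
      rwa [show n0 + j0 + v2 + 1 + 1 + i = n0 + j0 + (v2 + 1) + 1 + i by ring] at this))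
    (J := J) (by omega) hc1 (by omega) hc4
  exact ⟨m + 1, p, hp, fun n hn => dg_iff A (hper n (by omega))⟩

theorem low_cplx {x : ℚ} (hx : HasSum (fun a : A => ((a : ℕ) : ℝ) / 2 ^ (a : ℕ)) (x : ℝ)) {C : ℕ}
    (h : ∃ᶠ L in atTop, cplx A L ≤ L ^ C) : EvPer A := by
  set Q : ℕ := x.den with hQd
  have hQ : 0 < Q := x.den_pos
  set K : ℕ := 3 * (C + 3) + 1 with hK
  have hK1 : 1 ≤ K := by omega
  -- the entropy is zero
  obtain ⟨l, hl, hlC, hl0⟩ : ∃ l : ℕ, l ^ (2 * C * K) ≤ 2 ^ l ∧ cplx A l ≤ l ^ C ∧ 1 ≤ l := by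
    have h1 : ∀ᶠ l : ℕ in atTop, l ^ (2 * C * K) ≤ 2 ^ l := by
      have h2 := tendsto_pow_const_div_const_pow_of_one_lt (2 * C * K) (one_lt_two : (1 : ℝ) < 2)
      have h3 := h2.eventually (gt_mem_nhds one_pos)
      filter_upwards [h3] with l hl
      have h4 : (0 : ℝ) < 2 ^ l := by positivity
      rw [div_lt_one h4] at hl
      exact_mod_cast hl.le
    obtain ⟨l, hl1, hl2, hl3⟩ := (h.and_eventually (h1.and (eventually_ge_atTop 1))).exists
    exact ⟨l, hl2, hl1, hl3⟩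
  -- the large scale
  set k0 : ℕ := 16 * (K + 1) + 16 * (Q + 1) ^ 2 * 2 ^ (l + 1) + 2 with hk0
  obtain ⟨L1, hL1C, hL1⟩ : ∃ L1 : ℕ, cplx A L1 ≤ L1 ^ C ∧ 2 ^ k0 ≤ L1 := by
    obtain ⟨L1, h1, h2⟩ := (h.and_eventually (eventually_ge_atTop (2 ^ k0))).exists
    exact ⟨L1, h1, h2⟩
  set k : ℕ := Nat.log 2 L1 with hk
  have hL10 : L1 ≠ 0 := by
    have : 0 < 2 ^ k0 := by positivity
    omega
  have hk1 : 2 ^ k ≤ L1 := Nat.pow_log_le_self 2 hL10
  have hk2 : L1 < 2 ^ (k + 1) := Nat.lt_pow_succ_log_self one_lt_two L1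
  have hkk : k0 ≤ k := Nat.le_log_of_pow_le one_lt_two hL1
  have hL14 : 4 ≤ L1 := by
    have h1 : 2 ^ 2 ≤ 2 ^ k0 := Nat.pow_le_pow_right (by norm_num) (by omega)
    omega
  set L2 : ℕ := K * (k + 1) with hL2
  set W : ℕ := cplx A L2 with hW
  have hW1 : 1 ≤ W := cplx_pos A L2
  -- the small scale
  have hWb : W ^ 2 ≤ 2 ^ (k + 1 + l) := by
    have h1 : L2 ≤ l * (L2 / l + 1) := by
      have := Nat.div_add_mod L2 l
      have h2 := Nat.mod_lt L2 hl0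
      rw [mul_add, mul_one]
      omega
    set t : ℕ := L2 / l + 1 with ht
    have h2 : W ≤ (l ^ C) ^ t := ((cplx_mono A h1).trans (cplx_mul_le A l t)).trans (Nat.pow_le_pow_left hlC t)
    have h3 : (W ^ 2) ^ K ≤ (2 ^ (k + 1 + l)) ^ K := by
      calc (W ^ 2) ^ K ≤ (((l ^ C) ^ t) ^ 2) ^ K := by gcongr
        _ = (l ^ (2 * C * K)) ^ t := by
          rw [← pow_mul, ← pow_mul, ← pow_mul, ← pow_mul]
          congr 1
          ring
        _ ≤ (2 ^ l) ^ t := by gcongr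
        _ = 2 ^ (l * t) := by rw [pow_mul]
        _ ≤ 2 ^ (L2 + l) := by
          refine Nat.pow_le_pow_right (by norm_num) ?_
          rw [ht, mul_add, mul_one]
          exact Nat.add_le_add_right (Nat.mul_div_le L2 l) l
        _ ≤ 2 ^ ((k + 1 + l) * K) := by
          refine Nat.pow_le_pow_right (by norm_num) ?_
          have h4 : (k + 1 + l) * K = L2 + l * K := by rw [hL2]; ring
          rw [h4]
          exact Nat.add_le_add_left (Nat.le_mul_of_pos_right l (by omega)) _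
        _ = (2 ^ (k + 1 + l)) ^ K := by rw [pow_mul]
    exact (Nat.pow_le_pow_iff_left (by omega)).1 h3
  have hk4 : 16 * (Q + 1) ^ 2 * 2 ^ (l + 1) ≤ 2 ^ k := by
    have h1 : k < 2 ^ k := Nat.lt_two_pow_self
    omega
  have hWQ : 4 * ((Q + 1) * W) ≤ 2 ^ k := by
    have h1 : (4 * ((Q + 1) * W)) ^ 2 ≤ (2 ^ k) ^ 2 := by
      calc (4 * ((Q + 1) * W)) ^ 2 = 16 * (Q + 1) ^ 2 * W ^ 2 := by ring
        _ ≤ 16 * (Q + 1) ^ 2 * 2 ^ (k + 1 + l) := by gcongr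
        _ = (16 * (Q + 1) ^ 2 * 2 ^ (l + 1)) * 2 ^ k := by rw [show k + 1 + l = (l + 1) + k by ring, pow_add]; ring
        _ ≤ 2 ^ k * 2 ^ k := by gcongr
        _ = (2 ^ k) ^ 2 := by ring
    exact (Nat.pow_le_pow_iff_left (by norm_num)).1 h1
  have hL2b : 4 * (L2 + 1) ≤ 2 ^ k := by
    have h1 := big (4 * (K + 1)) k (by omega)
    have h2 : 4 * (K + 1) * (k + 1) = 4 * L2 + 4 * (k + 1) := by rw [hL2]; ring
    omega
  set P : ℕ := cplx A L1 with hP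
  have hQW : (Q + 1) * W = Q * W + W := by ring
  -- the common bound
  set X : ℕ := L1 ^ (C + 3) with hX
  have hX1 : 3 * L1 + 3 + L1 ^ C ≤ X := by
    have h9 : L1 ^ (C + 3) = L1 ^ C * (L1 * L1 * L1) := by ring
    have h10 : 1 ≤ L1 ^ C := Nat.one_le_pow _ _ (by omega)
    have h11 : 16 * L1 ≤ L1 * L1 * L1 := by
      calc 16 * L1 = 4 * 4 * L1 := by norm_num
        _ ≤ L1 * L1 * L1 := by gcongr
    have h12 : L1 ^ C * (16 * L1) ≤ L1 ^ C * (L1 * L1 * L1) := Nat.mul_le_mul_left _ h11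
    have h13 : L1 ^ C * (16 * L1) = L1 ^ C * L1 + 15 * (L1 ^ C * L1) := by ring
    have h14 : L1 ^ C ≤ L1 ^ C * L1 := Nat.le_mul_of_pos_right _ (by omega)
    have h15 : L1 ≤ L1 ^ C * L1 := Nat.le_mul_of_pos_left _ (by omega)
    rw [hX, h9]
    omega
  have hX3 : 2 * X ^ 3 ≤ 2 ^ L2 := by
    have h9 : 2 * X ^ 3 ≤ L1 ^ K := by
      rw [hX, ← pow_mul, hK, pow_succ]
      have h10 : L1 ^ ((C + 3) * 3) = L1 ^ (3 * (C + 3)) := by rw [mul_comm]
      rw [h10, mul_comm]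
      exact Nat.mul_le_mul_left _ (by omega)
    refine h9.trans ?_
    rw [hL2, mul_comm, pow_mul]
    exact Nat.pow_le_pow_left hk2.le K
  refine two_scale hx (L1 := L1) (L2 := L2) hX3 ?_ ?_
  · rw [← hQd, ← hW]
    omega
  · rw [← hQd, ← hW, ← hP]
    omega

/-- Quasi-polynomial complexity for all large `L`. -/
theorem low_cplx2 {x : ℚ} (hx : HasSum (fun a : A => ((a : ℕ) : ℝ) / 2 ^ (a : ℕ)) (x : ℝ)) {C : ℕ}
    (h : ∀ᶠ L in atTop, cplx A L ≤ 2 ^ (Nat.log 2 L) ^ C) : EvPer A := by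
  set Q : ℕ := x.den with hQd
  have hQ : 0 < Q := x.den_pos
  obtain ⟨M, hM⟩ := eventually_atTop.1 h
  -- polynomials against the exponential function
  have hpoly : ∀ᶠ j : ℕ in atTop, (j * (C + 1) + 5) ^ C + (4 * (Q + 1) + M + 40) + j * (C + 1) ≤ 2 ^ j := by
    have h2 := tendsto_pow_const_div_const_pow_of_one_lt (C + 2) (one_lt_two : (1 : ℝ) < 2)
    have h3 := h2.eventually (gt_mem_nhds one_pos)
    filter_upwards [h3, eventually_ge_atTop ((C + 6) ^ C + (4 * (Q + 1) + M + 40) + (C + 1))] with j hj hj2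
    have h4 : (0 : ℝ) < 2 ^ j := by positivity
    rw [div_lt_one h4] at hj
    have h5 : j ^ (C + 2) ≤ 2 ^ j := by exact_mod_cast hj.le
    refine le_trans ?_ h5
    have hj1 : 1 ≤ j := by omega
    have h6 : (j * (C + 1) + 5) ^ C ≤ (C + 6) ^ C * j ^ C := by
      rw [← mul_pow]
      refine Nat.pow_le_pow_left ?_ C
      have : (C + 6) * j = j * (C + 1) + 5 * j := by ring
      omega
    have h7 : 1 ≤ j ^ C := Nat.one_le_pow _ _ hj1
    have h8 : j ^ (C + 2) = j * j * j ^ C := by ring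
    have h9 : (4 * (Q + 1) + M + 40) ≤ (4 * (Q + 1) + M + 40) * j ^ C := Nat.le_mul_of_pos_right _ h7
    have h10 : j * (C + 1) ≤ j * (C + 1) * j ^ C := Nat.le_mul_of_pos_right _ h7
    calc (j * (C + 1) + 5) ^ C + (4 * (Q + 1) + M + 40) + j * (C + 1) ≤
        (C + 6) ^ C * j ^ C + (4 * (Q + 1) + M + 40) * j ^ C + j * (C + 1) * j ^ C := by omega
      _ = ((C + 6) ^ C + (4 * (Q + 1) + M + 40) + j * (C + 1)) * j ^ C := by ring
      _ ≤ (j * j) * j ^ C := by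
        refine Nat.mul_le_mul_right _ ?_
        calc (C + 6) ^ C + (4 * (Q + 1) + M + 40) + j * (C + 1) ≤
            ((C + 6) ^ C + (4 * (Q + 1) + M + 40)) * j + (C + 1) * j := by
              have : (C + 6) ^ C + (4 * (Q + 1) + M + 40) ≤ ((C + 6) ^ C + (4 * (Q + 1) + M + 40)) * j :=
                Nat.le_mul_of_pos_right _ hj1
              have h11 : j * (C + 1) = (C + 1) * j := mul_comm _ _
              omega
          _ = ((C + 6) ^ C + (4 * (Q + 1) + M + 40) + (C + 1)) * j := by ring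
          _ ≤ j * j := Nat.mul_le_mul_right _ hj2
      _ = j ^ (C + 2) := h8.symm
  obtain ⟨j, hj⟩ := hpoly.exists
  set k : ℕ := 2 ^ j with hk
  set L1 : ℕ := 2 ^ k with hL1
  set L2 : ℕ := 3 * (k ^ C + k + 5) + 1 with hL2
  set W : ℕ := cplx A L2 with hW
  have hkM : M ≤ k := by omega
  have hk40 : 40 ≤ k := by omega
  have hkL1 : k < L1 := Nat.lt_two_pow_self
  have hL1M : M ≤ L1 := by omega
  have hL2M : M ≤ L2 := by omega
  have hP : cplx A L1 ≤ 2 ^ k ^ C := by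
    have h1 := hM L1 hL1M
    rwa [hL1, Nat.log_pow one_lt_two, ← hL1] at h1
  have hkC : k ^ C = 2 ^ (j * C) := by rw [hk, ← pow_mul]
  have hL2b : L2 < 2 ^ (j * (C + 1) + 5) := by
    have h1 : k ^ C ≤ 2 ^ (j * (C + 1)) := by
      rw [hkC]
      exact Nat.pow_le_pow_right (by norm_num) (by nlinarith)
    have h2 : k ≤ 2 ^ (j * (C + 1)) := by
      rw [hk]
      exact Nat.pow_le_pow_right (by norm_num) (by nlinarith)
    have h3 : 1 ≤ 2 ^ (j * (C + 1)) := Nat.one_le_pow _ _ (by norm_num)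
    have h4 : 2 ^ (j * (C + 1) + 5) = 32 * 2 ^ (j * (C + 1)) := by rw [pow_add]; ring
    rw [h4]
    omega
  have hWb : W ≤ 2 ^ (j * (C + 1) + 5) ^ C := by
    refine (hM L2 hL2M).trans (Nat.pow_le_pow_right (by norm_num) (Nat.pow_le_pow_left ?_ C))
    have h1 := Nat.log_lt_of_lt_pow (by omega) hL2b
    omega
  have hQW : 4 * ((Q + 1) * W) ≤ L1 := by
    have h1 : 4 * (Q + 1) ≤ 2 ^ (4 * (Q + 1)) := Nat.lt_two_pow_self.le
    calc 4 * ((Q + 1) * W) = 4 * (Q + 1) * W := by ring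
      _ ≤ 2 ^ (4 * (Q + 1)) * 2 ^ (j * (C + 1) + 5) ^ C := by gcongr
      _ = 2 ^ (4 * (Q + 1) + (j * (C + 1) + 5) ^ C) := by rw [pow_add]
      _ ≤ 2 ^ k := Nat.pow_le_pow_right (by norm_num) (by omega)
  have hL2L : 4 * (L2 + 1) ≤ L1 := by
    calc 4 * (L2 + 1) ≤ 4 * 2 ^ (j * (C + 1) + 5) := by omega
      _ = 2 ^ (j * (C + 1) + 7) := by rw [pow_add, pow_add]; ring
      _ ≤ 2 ^ k := Nat.pow_le_pow_right (by norm_num) (by omega)
  have hQW' : (Q + 1) * W = Q * W + W := by ring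
  refine two_scale hx (L1 := L1) (L2 := L2) (X := 2 ^ (k ^ C + k + 5)) ?_ ?_ ?_
  · rw [hL2, ← pow_mul, pow_succ 2 (3 * (k ^ C + k + 5)), mul_comm (k ^ C + k + 5) 3, mul_comm]
  · rw [← hQd, ← hW]
    omega
  · rw [← hQd, ← hW]
    have h1 : 2 ^ (k ^ C + k + 5) = 32 * (2 ^ k ^ C * L1) := by rw [pow_add, pow_add, hL1]; ring
    have h2 : 2 ^ k ^ C ≤ 2 ^ k ^ C * L1 := Nat.le_mul_of_pos_right _ (by omega)
    have h3 : L1 ≤ 2 ^ k ^ C * L1 := Nat.le_mul_of_pos_left _ (by positivity)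
    rw [h1]
    omega

end Pool.Agent.Helper74.LC
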