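import Pool.Agent.Helper74.LC.Frac
import Pool.Agent.Helper74.LC.Cplx

/-!
# Project LC: the number of positions with a given size of the least multiplier

`count_level`: among the positions `n < 2^k` with least multiplier in `[2^i, 2^(i+1))` at most `2^(k-i+1)` have the same block of length `Li`.
-/

set_option autoImplicit false

open Filter Topology

namespace Pool.Agent.Helper74.LC

variable (A : Set ℕ)

open Classical in
/-- the block of length `L` after `n` read as a binary number -/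
noncomputable def bnum (n : ℕ) : ℕ → ℤ
  | 0 => 0
  | L + 1 => 2 * bnum n L + (if n + 1 + L ∈ A then 1 else 0)

open Classical in
theorem dg_cast (n : ℕ) : dg A n = ((if n ∈ A then 1 else 0 : ℤ) : ℝ) := by
  by_cases h : n ∈ A
  · rw [dg, Set.indicator_of_mem h, if_pos h, Int.cast_one]
  · rw [dg, Set.indicator_of_notMem h, if_neg h, Int.cast_zero]

theorem bnum_T (n L : ℕ) : 2 ^ L * T (dg A) n = bnum A n L + T (dg A) (n + L) := by
  classical
  induction L with
  | zero => simp [bnum]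
  | succ L ih =>
    have h1 := T_succ (dg_dig A) (n + L)
    have h2 := dg_cast A (n + 1 + L)
    rw [show n + 1 + L = n + L + 1 by ring] at h2
    rw [bnum, ← add_assoc, show n + 1 + L = n + L + 1 by ring]
    push_cast
    push_cast at h2
    rw [← h2, pow_succ]
    linear_combination 2 * ih + 2 * h1

theorem bnum_inj {n n' : ℕ} : ∀ {L : ℕ}, bnum A n L = bnum A n' L → ∀ i, i < L → (n + 1 + i ∈ A ↔ n' + 1 + i ∈ A) := by
  classical
  intro L
  induction L with
  | zero => intro _ i hi; omega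
  | succ L ih =>
    intro h i hi
    rw [bnum, bnum] at h
    have h1 : bnum A n L = bnum A n' L ∧ (n + 1 + L ∈ A ↔ n' + 1 + L ∈ A) := by
      by_cases ha : n + 1 + L ∈ A <;> by_cases hb : n' + 1 + L ∈ A
      · rw [if_pos ha, if_pos hb] at h
        exact ⟨by omega, ⟨fun _ => hb, fun _ => ha⟩⟩
      · rw [if_pos ha, if_neg hb] at h
        omega
      · rw [if_neg ha, if_pos hb] at h
        omega
      · rw [if_neg ha, if_neg hb] at h
        exact ⟨by omega, ⟨fun hc => absurd hc ha, fun hc => absurd hc hb⟩⟩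
    rcases Nat.lt_succ_iff_lt_or_eq.1 hi with hi | hi
    · exact ih h1.1 i hi
    · rw [hi]; exact h1.2

theorem block_of_close {n n' L : ℕ} (h : 2 ^ (L + 1) * |T (dg A) n - T (dg A) n'| < 1)
    (hL : n + (L + 1) ∈ A ↔ n' + (L + 1) ∈ A) : ∀ i, i < L + 1 → (n + 1 + i ∈ A ↔ n' + 1 + i ∈ A) := by
  classical
  refine bnum_inj A ?_
  have h1 := bnum_T A n (L + 1)
  have h2 := bnum_T A n' (L + 1)
  have h3 := T_nonneg (dg_dig A) (n + (L + 1))
  have h4 := T_le (dg_dig A) (n + (L + 1))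
  have h5 := T_nonneg (dg_dig A) (n' + (L + 1))
  have h6 := T_le (dg_dig A) (n' + (L + 1))
  have h7 : |((bnum A n (L + 1) - bnum A n' (L + 1) : ℤ) : ℝ)| < 2 := by
    have h8 : ((bnum A n (L + 1) - bnum A n' (L + 1) : ℤ) : ℝ) =
        2 ^ (L + 1) * (T (dg A) n - T (dg A) n') - (T (dg A) (n + (L + 1)) - T (dg A) (n' + (L + 1))) := by
      push_cast
      linear_combination h2 - h1
    rw [h8]
    refine lt_of_le_of_lt (abs_sub _ _) ?_
    rw [abs_mul, abs_of_pos (by positivity : (0 : ℝ) < 2 ^ (L + 1))]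
    have h9 : |T (dg A) (n + (L + 1)) - T (dg A) (n' + (L + 1))| ≤ 1 := by
      rw [abs_le]
      constructor <;> linarith
    linarith
  have h8 : |bnum A n (L + 1) - bnum A n' (L + 1)| < 2 := by exact_mod_cast h7
  rw [abs_lt] at h8
  rw [bnum, bnum] at h8 ⊢
  rw [show n + 1 + L = n + (L + 1) by ring, show n' + 1 + L = n' + (L + 1) by ring] at h8 ⊢
  by_cases ha : n + (L + 1) ∈ A
  · rw [if_pos ha, if_pos (hL.1 ha)] at h8 ⊢
    omega
  · rw [if_neg ha, if_neg fun hc => ha (hL.2 hc)] at h8 ⊢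
    omega

variable {A}

theorem count_level {Q : ℕ} (hQ : 0 < Q) (hR : (Q : ℝ) * R (dg A) 0 ∈ Zi) {k i Li Lm : ℕ} {ε : ℝ} (hε : 0 ≤ ε)
    (hik : i ≤ k)
    (h1 : 2 * 2 ^ k * ε + Q * 4 ^ (i + 1) / 2 ^ Li < 1)
    (h2 : 2 ^ (Lm + 1) * (2 * ε) < Q * 2 ^ i)
    (h3 : 2 ^ k * ε + 2 ^ (i + 1) * (Q * (2 ^ k + (Lm + 1) + 2) / 2 ^ (Lm + 1)) < 1)
    {F : Finset ℕ} (hF : ∀ n ∈ F, n < 2 ^ k ∧ ∃ d a, Fr ε (Q * T (dg A) n) d a ∧ 2 ^ i ≤ d ∧ d < 2 ^ (i + 1) ∧ d ≤ 2 ^ k)
    {ι : Type*} {V : Finset ι} {g : ℕ → ι} (hV : ∀ n ∈ F, g n ∈ V)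
    (hg : ∀ n ∈ F, ∀ n' ∈ F, g n = g n' → ∀ j, j < Li → (n + 1 + j ∈ A ↔ n' + 1 + j ∈ A)) :
    F.card ≤ V.card * (2 * 2 ^ (k - i)) := by
  classical
  have hd := dg_dig A
  have hRn := R_int hd (nat_mem Q) hR
  have hQ' : (0 : ℝ) < Q := by exact_mod_cast hQ
  have key : ∀ n ∈ F, ∀ n' ∈ F, n < n' → g n = g n' → (n + (Lm + 1) ∈ A ↔ n' + (Lm + 1) ∈ A) → n / 2 ^ i = n' / 2 ^ i → False := by
    intro n hn n' hn' hlt hgg hdig hdiv
    obtain ⟨hnk, d, a, hFr, hd1, hd2, hd3⟩ := hF n hn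
    obtain ⟨hnk', d', a', hFr', hd1', hd2', hd3'⟩ := hF n' hn'
    have hd2R : (d : ℝ) ≤ 2 ^ (i + 1) := by exact_mod_cast hd2.le
    have hd2R' : (d' : ℝ) ≤ 2 ^ (i + 1) := by exact_mod_cast hd2'.le
    have hd3R : (d : ℝ) ≤ 2 ^ k := by exact_mod_cast hd3
    have hd3R' : (d' : ℝ) ≤ 2 ^ k := by exact_mod_cast hd3'
    have hd1R : (2 : ℝ) ^ i ≤ d := by exact_mod_cast hd1
    -- the same fraction
    have e1 := (approx hd hd Li n n' fun j hj => dg_eq A (hg n hn n' hn' hgg j hj)).1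
    have e2 : |(Q : ℝ) * T (dg A) n - Q * T (dg A) n'| ≤ Q / 2 ^ Li := by
      rw [← mul_sub, abs_mul, abs_of_pos hQ', div_eq_mul_one_div]
      exact mul_le_mul_of_nonneg_left e1 hQ'.le
    obtain ⟨hdd, haa⟩ := hFr.unique hε hFr' e2 (by
      refine lt_of_le_of_lt ?_ h1
      have e3 : (d : ℝ) * d' ≤ 2 ^ (i + 1) * 2 ^ (i + 1) := by gcongr
      have e4 : (2 : ℝ) ^ (i + 1) * 2 ^ (i + 1) = 4 ^ (i + 1) := by
        rw [← mul_pow]; norm_num
      rw [e4] at e3
      have e5 : (d : ℝ) * d' * (Q / 2 ^ Li) ≤ Q * 4 ^ (i + 1) / 2 ^ Li := by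
        calc (d : ℝ) * d' * (Q / 2 ^ Li) ≤ 4 ^ (i + 1) * (Q / 2 ^ Li) := by gcongr
          _ = Q * 4 ^ (i + 1) / 2 ^ Li := by ring
      have e6 : (d : ℝ) * ε ≤ 2 ^ k * ε := by gcongr
      have e7 : (d' : ℝ) * ε ≤ 2 ^ k * ε := by gcongr
      linarith)
    subst hdd
    subst haa
    -- the same long block
    have e3 : |(d : ℝ) * (Q * T (dg A) n) - d * (Q * T (dg A) n')| ≤ 2 * ε := by
      have e4 : (d : ℝ) * (Q * T (dg A) n) - d * (Q * T (dg A) n') =
        (d * (Q * T (dg A) n) - a) - (d * (Q * T (dg A) n') - a) := by ring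
      rw [e4]
      refine (abs_sub _ _).trans ?_
      have e5 := hFr.2.1
      have e6 := hFr'.2.1
      linarith
    have e4 : (2 : ℝ) ^ (Lm + 1) * |T (dg A) n - T (dg A) n'| < 1 := by
      have e5 : (d : ℝ) * (Q * T (dg A) n) - d * (Q * T (dg A) n') = (Q * d) * (T (dg A) n - T (dg A) n') := by ring
      rw [e5, abs_mul, abs_of_nonneg (by positivity : (0 : ℝ) ≤ Q * d)] at e3
      have e6 : (Q * 2 ^ i : ℝ) * |T (dg A) n - T (dg A) n'| ≤ 2 * ε := by
        refine le_trans ?_ e3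
        gcongr
      have e7 : (Q * 2 ^ i : ℝ) * (2 ^ (Lm + 1) * |T (dg A) n - T (dg A) n'|) < (Q * 2 ^ i) * 1 := by
        rw [mul_one]
        refine lt_of_le_of_lt ?_ h2
        calc (Q * 2 ^ i : ℝ) * (2 ^ (Lm + 1) * |T (dg A) n - T (dg A) n'|) =
            2 ^ (Lm + 1) * ((Q * 2 ^ i : ℝ) * |T (dg A) n - T (dg A) n'|) := by ring
          _ ≤ 2 ^ (Lm + 1) * (2 * ε) := by gcongr
      exact lt_of_mul_lt_mul_left e7 (by positivity)
    have e5 := block_of_close A e4 hdig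
    obtain ⟨v, rfl⟩ := Nat.exists_eq_add_of_lt hlt
    have e6 := approx_rat hd (n := n) (v := v + 1) (L := Lm + 1) fun j hj => dg_eq A (by
      have := e5 j hj
      rwa [show n + v + 1 + 1 + j = n + (v + 1) + 1 + j by ring] at this)
    obtain ⟨z1, hz1⟩ := hRn (n + (v + 1))
    obtain ⟨z2, hz2⟩ := hRn n
    have hz1' : (z1 : ℝ) = Q * R (dg A) (n + (v + 1)) := hz1
    have hz2' : (z2 : ℝ) = Q * R (dg A) n := hz2
    have hvk : (n : ℝ) + (v + 1 : ℕ) ≤ 2 ^ k := by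
      have : n + (v + 1) ≤ 2 ^ k := by omega
      exact_mod_cast this
    have e7 : |((v + 1 : ℕ) : ℝ) * (Q * T (dg A) n) - ((z1 - z2 : ℤ) : ℝ)| ≤ Q * (2 ^ k + (Lm + 1) + 2) / 2 ^ (Lm + 1) := by
      have e8 : ((v + 1 : ℕ) : ℝ) * (Q * T (dg A) n) - ((z1 - z2 : ℤ) : ℝ) =
          Q * (((v + 1 : ℕ) : ℝ) * T (dg A) n - (R (dg A) (n + (v + 1)) - R (dg A) n)) := by
        rw [Int.cast_sub, hz1', hz2']; ring
      rw [e8, abs_mul, abs_of_pos hQ', mul_div_assoc]
      refine mul_le_mul_of_nonneg_left (e6.trans ?_) hQ'.le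
      refine div_le_div_of_nonneg_right ?_ (by positivity)
      push_cast at hvk ⊢
      linarith
    have e8 := hFr.dvd hε e7 (by
      refine lt_of_le_of_lt (add_le_add ?_ ?_) h3
      · have : ((v + 1 : ℕ) : ℝ) ≤ 2 ^ k := by
          have : v + 1 ≤ 2 ^ k := by omega
          exact_mod_cast this
        gcongr
      · gcongr)
    have e9 := Nat.le_of_dvd (by omega) e8
    have e10 : n + v + 1 < n + 2 ^ i := by
      have e11 := Nat.div_add_mod n (2 ^ i)
      have e12 := Nat.div_add_mod (n + v + 1) (2 ^ i)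
      have e13 := Nat.mod_lt (n + v + 1) (Nat.pow_pos (n := i) (by norm_num : 0 < 2))
      rw [← hdiv] at e12
      omega
    omega
  have hinj : Set.InjOn (fun n => (g n, (decide (n + (Lm + 1) ∈ A), n / 2 ^ i))) (F : Set ℕ) := by
    intro n hn n' hn' h
    rw [Prod.mk.injEq, Prod.mk.injEq] at h
    obtain ⟨h4, h5, h6⟩ := h
    rw [decide_eq_decide] at h5
    rcases lt_trichotomy n n' with h7 | h7 | h7
    · exact (key n hn n' hn' h7 h4 h5 h6).elim
    · exact h7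
    · exact (key n' hn' n hn h7 h4.symm h5.symm h6.symm).elim
  have hcard := Finset.card_le_card_of_injOn (s := F) (t := V ×ˢ ((Finset.univ : Finset Bool) ×ˢ Finset.range (2 ^ (k - i))))
    (fun n => (g n, (decide (n + (Lm + 1) ∈ A), n / 2 ^ i))) (fun n hn => by
      rw [Finset.mem_coe] at hn
      rw [Finset.mem_coe, Finset.mem_product, Finset.mem_product, Finset.mem_range]
      refine ⟨hV n hn, Finset.mem_univ _, ?_⟩
      rw [Nat.div_lt_iff_lt_mul (by positivity), ← pow_add, Nat.sub_add_cancel hik]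
      exact (hF n hn).1) hinj
  rw [Finset.card_product, Finset.card_product, Finset.card_range, Finset.card_univ, Fintype.card_bool] at hcard
  exact hcard

end Pool.Agent.Helper74.LC
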