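import Mathlib

/-!
# Project LC (MP_4546c4_nt): representations of low complexity, definitions

`IsRep x A`: `A` is an infinite set of positive integers with `∑_{a ∈ A} a / 2^a = x`.
`cplx A L`: the number of factors (blocks) of length `L` of the characteristic sequence of `A`.
`EvPer A`: `A` is eventually periodic. `Automatic A`: for some base `b ≥ 2` the `b`-kernel of `A` is finite.
-/

set_option autoImplicit false

namespace Pool.Agent.Helper74.LC

/-- `A` is a representation of `x` -/
def IsRep (x : ℝ) (A : Set ℕ) : Prop :=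
  A.Infinite ∧ 0 ∉ A ∧ HasSum (fun a : A => ((a : ℕ) : ℝ) / 2 ^ (a : ℕ)) x

/-- the number of blocks of length `L` of the characteristic sequence of `A` -/
noncomputable def cplx (A : Set ℕ) (L : ℕ) : ℕ :=
  (Set.range fun n : ℕ => fun i : Fin L => n + (i : ℕ) ∈ A).ncard

/-- eventually periodic sets -/
def EvPer (A : Set ℕ) : Prop := ∃ N p : ℕ, 0 < p ∧ ∀ n, N ≤ n → (n + p ∈ A ↔ n ∈ A)

/-- automatic sets: the `b`-kernel is finite for some base `b ≥ 2` -/
def Automatic (A : Set ℕ) : Prop :=
  ∃ b : ℕ, 2 ≤ b ∧ {K : Set ℕ | ∃ k j : ℕ, j < b ^ k ∧ K = {n | b ^ k * n + j ∈ A}}.Finite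

end Pool.Agent.Helper74.LC
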