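import Pool.Agent.Helper74.LC.Defs

/-!
# Project LC: densities, rich sets
-/

set_option autoImplicit false

open Filter

namespace Pool.Agent.Helper74.LC

/-- positive lower density -/
def PosLow (E : Set ℕ) : Prop := ∃ c : ℝ, 0 < c ∧ ∀ᶠ N : ℕ in atTop, c * N ≤ (E ∩ Set.Iio N).ncard

/-- the lower density is at least `β` -/
def LowDens (E : Set ℕ) (β : ℝ) : Prop := ∀ c : ℝ, c < β → ∀ᶠ N : ℕ in atTop, c * N ≤ (E ∩ Set.Iio N).ncard

/-- Rich sets: let `G L` be sets of words of length `L` whose number is at most `K g ^ L` with `g < √2`, and let `δ > 0`. Then there is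
a constant `c` such that for all large `N`, at most `δ N` of the `n < N` have the property that for all `L ≤ 2 log₂ N + c`, the
block of length `L` at the position `n` of the characteristic sequence of `A` belongs to `G L`. -/
def Rich (A : Set ℕ) : Prop :=
  ∀ (G : ∀ L : ℕ, Set (Fin L → Prop)) (K g : ℝ), 0 ≤ g → g ^ 2 < 2 → (∀ L, ((G L).ncard : ℝ) ≤ K * g ^ L) →
    ∀ δ : ℝ, 0 < δ → ∃ c : ℕ, ∀ᶠ N : ℕ in atTop,
      (({n : ℕ | n < N ∧ ∀ L, L ≤ 2 * Nat.log 2 N + c → (fun i : Fin L => n + (i : ℕ) ∈ A) ∈ G L}.ncard : ℕ) : ℝ) ≤ δ * N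

end Pool.Agent.Helper74.LC
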