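import Pool.Agent.Helper74.LC.Defs

/-!
# Project LC, block LIMIT: infinitely many representations have a limit

`exists_limit`. PROOF. The set `K` of all `A ⊆ ℕ` with `0 ∉ A` and `HasSum (A.indicator fun k => k / 2^k) x` is closed in the compact space `ℕ → Prop` (or `ℕ → Bool`; the sum is continuous by dominated convergence, or: two sets which agree below `n`
have sums which differ by at most `(n + 2)/2^n`). An infinite subset of a compact metrisable space has an accumulation point. (Alternatively by hand: König's lemma, choose the digits one by one such that infinitely many representations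
start with the chosen digits.) The limit `A` may be finite; that is excluded in the application.
-/

set_option autoImplicit false

open Filter Topology

namespace Pool.Agent.Helper74.LC

/-- If `x` has infinitely many representations, they have an accumulation point `A`, a set with the sum `x` (possibly a finite one). -/
theorem exists_limit {x : ℝ} (h : {A : Set ℕ | IsRep x A}.Infinite) :
    ∃ A : Set ℕ, 0 ∉ A ∧ HasSum (fun a : A => ((a : ℕ) : ℝ) / 2 ^ (a : ℕ)) x ∧
      ∀ N : ℕ, ∃ A' : Set ℕ, IsRep x A' ∧ A' ≠ A ∧ ∀ n, n ≤ N → (n ∈ A' ↔ n ∈ A) := by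
  classical
  have hs : Summable fun k : ℕ => (k : ℝ) / 2 ^ k := by
    have h1 := (hasSum_coe_mul_geometric_of_norm_lt_one (𝕜 := ℝ) (r := 1 / 2) (by norm_num)).summable
    refine h1.congr fun k => ?_
    rw [one_div, inv_pow, div_eq_mul_inv]
  let ch : Set ℕ → (ℕ → Bool) := fun A n => decide (n ∈ A)
  have hinj : Function.Injective ch := by
    intro A B hAB
    ext n
    have h1 := congrFun hAB n
    simpa [ch] using h1
  let F : (ℕ → Bool) → ℝ := fun f => ∑' k : ℕ, if f k = true then (k : ℝ) / 2 ^ k else 0
  have hle : ∀ (f : ℕ → Bool) (k : ℕ), ‖(if f k = true then (k : ℝ) / 2 ^ k else 0)‖ ≤ (k : ℝ) / 2 ^ k := by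
    intro f k
    split_ifs
    · rw [Real.norm_of_nonneg (by positivity)]
    · rw [norm_zero]; positivity
  have hF : Continuous F := by
    refine continuous_tsum (fun k => ?_) hs fun k f => hle f k
    have h1 : Continuous fun b : Bool => if b = true then (k : ℝ) / 2 ^ k else 0 := continuous_of_discreteTopology
    exact h1.comp (continuous_apply k)
  have hsum : ∀ f : ℕ → Bool, HasSum (fun k : ℕ => if f k = true then (k : ℝ) / 2 ^ k else 0) (F f) := fun f =>
    (Summable.of_norm_bounded hs (hle f)).hasSum
  have hind : ∀ A : Set ℕ, (A.indicator fun k : ℕ => (k : ℝ) / 2 ^ k) = fun k => if ch A k = true then (k : ℝ) / 2 ^ k else 0 := by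
    intro A
    funext k
    by_cases h : k ∈ A
    · rw [Set.indicator_of_mem h, if_pos (by simpa [ch] using h)]
    · rw [Set.indicator_of_notMem h, if_neg (by simpa [ch] using h)]
  have hrep : ∀ A : Set ℕ, HasSum (fun a : A => ((a : ℕ) : ℝ) / 2 ^ (a : ℕ)) x ↔ F (ch A) = x := by
    intro A
    have h1 : HasSum (fun a : A => ((a : ℕ) : ℝ) / 2 ^ (a : ℕ)) x ↔ HasSum (A.indicator fun k : ℕ => (k : ℝ) / 2 ^ k) x :=
      hasSum_subtype_iff_indicator (f := fun k : ℕ => (k : ℝ) / 2 ^ k)
    rw [h1, hind A]
    constructor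
    · intro h2
      exact (hsum _).unique h2
    · intro h2
      rw [← h2]
      exact hsum _
  set K : Set (ℕ → Bool) := F ⁻¹' {x} ∩ {f | f 0 = false} with hK
  have hKc : IsCompact K := by
    refine IsClosed.isCompact ((isClosed_singleton.preimage hF).inter ?_)
    exact isClosed_singleton.preimage (continuous_apply (A := fun _ : ℕ => Bool) 0)
  have hSinf : (ch '' {A : Set ℕ | IsRep x A}).Infinite := h.image hinj.injOn
  have hSK : ch '' {A : Set ℕ | IsRep x A} ⊆ K := by
    rintro _ ⟨A, hA, rfl⟩
    exact ⟨(hrep A).1 hA.2.2, by simpa [ch] using hA.2.1⟩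
  obtain ⟨f, hfK, hf⟩ := hSinf.exists_accPt_of_subset_isCompact hKc hSK
  have hchf : ch {n | f n = true} = f := by
    funext n
    simp [ch]
  refine ⟨{n | f n = true}, ?_, (hrep _).2 (by rw [hchf]; exact hfK.1), fun N => ?_⟩
  · have h1 : f 0 = false := hfK.2
    simp [h1]
  · rw [accPt_iff_nhds] at hf
    have hU : {g : ℕ → Bool | ∀ n, n ≤ N → g n = f n} ∈ 𝓝 f := by
      have h1 : {g : ℕ → Bool | ∀ n, n ≤ N → g n = f n} = ⋂ n ∈ Finset.range (N + 1), {g | g n = f n} := by
        ext g
        simp
      rw [h1]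
      refine (isOpen_biInter_finset fun n _ => ?_).mem_nhds (by simp)
      exact (isOpen_discrete ({f n} : Set Bool)).preimage (continuous_apply (A := fun _ : ℕ => Bool) n)
    obtain ⟨g, ⟨hgU, ⟨A', hA', rfl⟩⟩, hne⟩ := hf _ hU
    refine ⟨A', hA', fun h1 => hne (by rw [h1, hchf]), fun n hn => ?_⟩
    have h1 := hgU n hn
    change ch A' n = f n at h1
    rw [Set.mem_ofPred_eq, ← h1]
    simp [ch]

end Pool.Agent.Helper74.LC
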