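import Pool.Agent.Helper74.LC.Isolated
import Pool.Agent.Helper74.LC.Limit

/-!
# Project LC: the dichotomy
-/

set_option autoImplicit false

open Filter Topology

namespace Pool.Agent.Helper74.LC

/-- larger than every polynomial for all large `L`, and larger than `2 ^ (log L) ^ C` infinitely often -/
def Big (A : Set ℕ) : Prop :=
  (∀ C : ℕ, ∀ᶠ L in atTop, L ^ C < cplx A L) ∧ ∀ C : ℕ, ∃ᶠ L in atTop, 2 ^ (Nat.log 2 L) ^ C < cplx A L

theorem big_of_not {A : Set ℕ} {x : ℚ} (hx : HasSum (fun a : A => ((a : ℕ) : ℝ) / 2 ^ (a : ℕ)) (x : ℝ)) (h : ¬ EvPer A) :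
    Big A := by
  constructor
  · intro C
    by_contra h1
    rw [Filter.not_eventually] at h1
    exact h (low_cplx hx (C := C) (h1.mono fun L hL => not_lt.1 hL))
  · intro C
    by_contra h1
    rw [Filter.not_frequently] at h1
    exact h (low_cplx2 hx (C := C) (h1.mono fun L hL => not_lt.1 hL))

theorem countable_evPer : {A : Set ℕ | EvPer A}.Countable := by
  have h1 : {A : Set ℕ | EvPer A} ⊆ ⋃ t : ℕ × ℕ, {A : Set ℕ | 0 < t.2 ∧ ∀ n, t.1 ≤ n → (n + t.2 ∈ A ↔ n ∈ A)} := by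
    rintro A ⟨N, p, hp, hA⟩
    exact Set.mem_iUnion.2 ⟨(N, p), hp, hA⟩
  refine (Set.countable_iUnion fun t => ?_).mono h1
  obtain ⟨N, p⟩ := t
  refine Set.Finite.countable ?_
  have h2 : Set.InjOn (fun (A : Set ℕ) (i : Fin (N + p)) => (i : ℕ) ∈ A) {A : Set ℕ | 0 < p ∧ ∀ n, N ≤ n → (n + p ∈ A ↔ n ∈ A)} := by
    intro A hA B hB hAB
    ext n
    induction n using Nat.strong_induction_on with
    | _ n ih =>
      rcases lt_or_ge n (N + p) with h | h
      · exact iff_of_eq (congrFun hAB ⟨n, h⟩)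
      · have hp : 0 < p := hA.1
        have e1 := hA.2 (n - p) (by omega)
        have e2 := hB.2 (n - p) (by omega)
        rw [show n - p + p = n by omega] at e1 e2
        exact e1.trans ((ih (n - p) (by omega)).trans e2.symm)
  exact Set.Finite.of_finite_image (Set.toFinite _) h2

theorem main (x : ℚ) :
    (∀ A : Set ℕ, IsRep x A → (EvPer A ∧ ∃ N : ℕ, ∀ A' : Set ℕ, IsRep x A' → (∀ n, n ≤ N → (n ∈ A' ↔ n ∈ A)) → A' = A) ∨ Big A) ∧
    ({A : Set ℕ | IsRep x A}.Infinite → ∃ A : Set ℕ, IsRep x A ∧ Big A ∧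
      ∀ N : ℕ, ∃ A' : Set ℕ, IsRep x A' ∧ A' ≠ A ∧ ∀ n, n ≤ N → (n ∈ A' ↔ n ∈ A)) ∧
    {A : Set ℕ | IsRep x A ∧ ¬ Big A}.Countable := by
  refine ⟨fun A hA => ?_, fun hinf => ?_, ?_⟩
  · by_cases h : EvPer A
    · left
      obtain ⟨N, hN⟩ := isolated h hA.2.2
      exact ⟨h, N, fun A' hA' => hN A' hA'.2.2⟩
    · right
      exact big_of_not hA.2.2 h
  · obtain ⟨A, h0, hs, hlim⟩ := exists_limit hinf
    have h1 := limit_cplx hs fun N => by
      obtain ⟨A', h2, h3, h4⟩ := hlim N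
      exact ⟨A', h2.2.2, h3, h4⟩
    have hne : ¬ EvPer A := by
      intro h
      obtain ⟨N, hN⟩ := isolated h hs
      obtain ⟨A', h2, h3, h4⟩ := hlim N
      exact h3 (hN A' h2.2.2 h4)
    exact ⟨A, ⟨h1.1, h0, hs⟩, big_of_not hs hne, hlim⟩
  · refine countable_evPer.mono ?_
    rintro A ⟨hA, hB⟩
    by_contra h
    exact hB (big_of_not hA.2.2 h)

end Pool.Agent.Helper74.LC
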