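import Pool.Agent.Helper74.LC.Hamming
import Pool.Agent.Helper74.LC.Fin

/-!
# Project LC: consequences of richness, the final theorem
-/

set_option autoImplicit false

open Filter Topology

namespace Pool.Agent.Helper74.LC

variable {A : Set ℕ}

theorem LowDens.posLow {E : Set ℕ} {β : ℝ} (hβ : 0 < β) (h : LowDens E β) : PosLow E :=
  ⟨β / 2, by positivity, h _ (by linarith)⟩

theorem Rich.two_pow_le (h : Rich A) (ℓ : ℕ) : 2 ^ ℓ ≤ cplx A ℓ ^ 2 := by
  by_contra hc
  rw [not_le] at hc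
  have hℓ : 0 < ℓ := by
    rcases Nat.eq_zero_or_pos ℓ with h0 | h0
    · rw [h0, pow_zero] at hc
      have h2 := cplx_pos A 0
      nlinarith
    · exact h0
  set q : ℝ := (cplx A ℓ : ℝ) with hq
  have hq1 : 1 ≤ q := by rw [hq]; exact_mod_cast cplx_pos A ℓ
  set γ : ℝ := q ^ ((ℓ : ℝ)⁻¹) with hγ
  have hγ0 : 0 < γ := Real.rpow_pos_of_pos (by linarith) _
  have hγℓ : γ ^ ℓ = q := Real.rpow_inv_natCast_pow (by linarith) (by omega)
  have hγ2 : γ ^ 2 < 2 := by
    have h1 : (γ ^ 2) ^ ℓ < 2 ^ ℓ := by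
      rw [← pow_mul, mul_comm, pow_mul, hγℓ, hq]
      exact_mod_cast hc
    exact lt_of_pow_lt_pow_left₀ ℓ (by norm_num) h1
  obtain ⟨c, hc'⟩ := h (fun L => Set.range (blk A L)) q γ hγ0.le hγ2 (fun L => cplx_growth A hℓ L) (1 / 2) (by norm_num)
  obtain ⟨N, h1, h2⟩ := (hc'.and (eventually_ge_atTop 1)).exists
  have h3 : {n : ℕ | n < N ∧ ∀ L, L ≤ 2 * Nat.log 2 N + c → (fun i : Fin L => n + (i : ℕ) ∈ A) ∈ Set.range (blk A L)} = Set.Iio N := by
    ext n
    constructor
    · intro hn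
      exact hn.1
    · intro hn
      exact ⟨hn, fun L _ => ⟨n, rfl⟩⟩
  rw [h3, ← Finset.coe_range, Set.ncard_coe_finset, Finset.card_range] at h1
  have h4 : (1 : ℝ) ≤ N := by exact_mod_cast h2
  linarith

theorem cplx_const {B : Set ℕ} {p : Prop} (hB : ∀ n, (n ∈ B) = p) (ℓ : ℕ) : LC.cplx B ℓ = 1 := by
  rw [cplx_eq, Set.ncard_eq_one]
  refine ⟨fun _ => p, ?_⟩
  ext w
  rw [Set.mem_range, Set.mem_singleton_iff]
  constructor
  · rintro ⟨n, rfl⟩
    exact funext fun i => hB _
  · rintro rfl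
    exact ⟨0, funext fun i => hB _⟩

theorem entropy_bound : Real.binEntropy (11 / 100) < Real.log 2 / 2 := by
  have h1 : Real.binEntropy (11 / 100) = 11 / 100 * Real.log (100 / 11) + 89 / 100 * Real.log (100 / 89) := by
    rw [Real.binEntropy]
    norm_num
  have h2 : 22 * Real.log (100 / 11) + 178 * Real.log (100 / 89) < 100 * Real.log 2 := by
    have h3 : Real.log ((100 / 11) ^ 22 * (100 / 89) ^ 178) < Real.log (2 ^ 100) := by
      apply Real.log_lt_log (by positivity)
      norm_num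
    rw [Real.log_mul (by positivity) (by positivity), Real.log_pow, Real.log_pow, Real.log_pow] at h3
    push_cast at h3
    exact h3
  rw [h1]
  linarith

theorem Rich.lowDens (h : Rich A) : LowDens A (11 / 100) ∧ LowDens Aᶜ (11 / 100) := by
  constructor
  · have h1 := h.posLow_diff ∅ 1 (11 / 100) (by norm_num) (by norm_num) (by
      rw [cplx_const (B := ∅) (p := False) fun n => rfl]
      have := entropy_bound
      norm_num
      linarith)
    have h2 : symmDiff A ∅ = A := symmDiff_bot A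
    rwa [h2] at h1
  · have h1 := h.posLow_diff Set.univ 1 (11 / 100) (by norm_num) (by norm_num) (by
      rw [cplx_const (B := Set.univ) (p := True) fun n => rfl]
      have := entropy_bound
      norm_num
      linarith)
    have h2 : symmDiff A Set.univ = Aᶜ := symmDiff_top A
    rwa [h2] at h1

theorem EvPer.posLow (h : EvPer A) : A.Finite ∨ PosLow A := by
  classical
  obtain ⟨N, p, hp, hA⟩ := h
  rcases Set.finite_or_infinite A with hf | hinf
  · exact Or.inl hf
  right
  obtain ⟨a, haA, haN⟩ : ∃ a ∈ A, N ≤ a := by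
    obtain ⟨a, h1, h2⟩ := hinf.exists_gt N
    exact ⟨a, h1, h2.le⟩
  have hmem : ∀ j : ℕ, a + p * j ∈ A := by
    intro j
    induction j with
    | zero => simpa using haA
    | succ j ih =>
      have h1 := (hA (a + p * j) (by omega)).2 ih
      rwa [show a + p * j + p = a + p * (j + 1) by ring] at h1
  have hp' : (0 : ℝ) < p := by exact_mod_cast hp
  refine ⟨1 / (4 * p), by positivity, ?_⟩
  rw [Filter.eventually_atTop]
  refine ⟨2 * (a + 2 * p), fun n hn => ?_⟩
  rw [cnt_ncard]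
  have h1 : (Finset.range ((n - a) / p)).card ≤ cnt A 0 n := by
    refine card_le_cnt (f := fun j => a + p * j) (fun j hj => ?_) (fun j _ j' _ h => ?_)
    · rw [Finset.mem_range] at hj
      refine ⟨Nat.zero_le _, ?_, hmem j⟩
      have h2 : p * (j + 1) ≤ p * ((n - a) / p) := Nat.mul_le_mul_left _ hj
      have h3 := Nat.mul_div_le (n - a) p
      rw [mul_add, mul_one] at h2
      omega
    · have h2 : p * j = p * j' := by
        have : a + p * j = a + p * j' := h
        omega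
      exact Nat.eq_of_mul_eq_mul_left hp h2
  rw [Finset.card_range] at h1
  have h2 : (((n - a) / p : ℕ) : ℝ) ≤ cnt A 0 n := by exact_mod_cast h1
  have h3 : n - a < p * ((n - a) / p + 1) := Nat.lt_mul_div_succ _ hp
  have h4 : (((n - a : ℕ)) : ℝ) < p * ((((n - a) / p : ℕ) : ℝ) + 1) := by exact_mod_cast h3
  have h5 : ((n - a : ℕ) : ℝ) = n - a := Nat.cast_sub (by omega)
  have h6 : 2 * ((a : ℝ) + 2 * p) ≤ n := by exact_mod_cast hn
  rw [h5] at h4
  rw [div_mul_eq_mul_div, one_mul, div_le_iff₀ (by positivity)]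
  nlinarith

/-- a representation of a rational number has positive lower density -/
theorem rep_posLow {x : ℚ} (hA : IsRep x A) : PosLow A := by
  by_cases h : EvPer A
  · exact h.posLow.resolve_left hA.1
  · exact ((rich hA.2.2 h).lowDens.1).posLow (by norm_num)

theorem dichotomy {x : ℚ} (hA : IsRep x A) :
    (EvPer A ∧ ∃ N : ℕ, ∀ A' : Set ℕ, IsRep x A' → (∀ n, n ≤ N → (n ∈ A' ↔ n ∈ A)) → A' = A) ∨ Rich A := by
  by_cases h : EvPer A
  · left
    obtain ⟨N, hN⟩ := isolated h hA.2.2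
    exact ⟨h, N, fun A' hA' => hN A' hA'.2.2⟩
  · right
    exact rich hA.2.2 h

theorem rich_limit {x : ℚ} (hinf : {A : Set ℕ | IsRep x A}.Infinite) : ∃ A : Set ℕ, IsRep x A ∧ Rich A ∧
    ∀ N : ℕ, ∃ A' : Set ℕ, IsRep x A' ∧ A' ≠ A ∧ ∀ n, n ≤ N → (n ∈ A' ↔ n ∈ A) := by
  obtain ⟨A, h0, hs, hlim⟩ := exists_limit hinf
  have h1 := limit_cplx hs fun N => by
    obtain ⟨A', h2, h3, h4⟩ := hlim N
    exact ⟨A', h2.2.2, h3, h4⟩
  have hne : ¬ EvPer A := by
    intro h
    obtain ⟨N, hN⟩ := isolated h hs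
    obtain ⟨A', h2, h3, h4⟩ := hlim N
    exact h3 (hN A' h2.2.2 h4)
  exact ⟨A, ⟨h1.1, h0, hs⟩, rich hs hne, hlim⟩

theorem countable_not_rich (x : ℚ) : {A : Set ℕ | IsRep x A ∧ ¬ Rich A}.Countable := by
  refine countable_evPer.mono ?_
  rintro A ⟨hA, hB⟩
  by_contra h
  exact hB (rich hA.2.2 h)

end Pool.Agent.Helper74.LC
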