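import Pool.Agent.Helper74.LC.Core

/-!
# Project LC: least multipliers

`Fr ε α d a`: `d` is the least positive integer such that `d α` is within `ε` of an integer, and `a` is such an integer.
-/

set_option autoImplicit false

namespace Pool.Agent.Helper74.LC

/-- `d` is the least positive multiplier with `|d α - a| ≤ ε` for an integer `a` -/
def Fr (ε α : ℝ) (d : ℕ) (a : ℤ) : Prop :=
  0 < d ∧ |d * α - a| ≤ ε ∧ ∀ v : ℕ, 0 < v → v < d → ∀ z : ℤ, ε < |v * α - z|

variable {ε α β : ℝ} {d d' : ℕ} {a a' : ℤ}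

theorem exists_Fr {v : ℕ} (hv : 0 < v) {z : ℤ} (h : |v * α - z| ≤ ε) : ∃ d a, Fr ε α d a ∧ d ≤ v := by
  classical
  have hex : ∃ d : ℕ, 0 < d ∧ ∃ a : ℤ, |d * α - a| ≤ ε := ⟨v, hv, z, h⟩
  obtain ⟨h1, a, h2⟩ := Nat.find_spec hex
  refine ⟨Nat.find hex, a, ⟨h1, h2, fun w hw hwd z' => ?_⟩, Nat.find_min' hex ⟨hv, z, h⟩⟩
  have h3 := Nat.find_min hex hwd
  by_contra h4
  exact h3 ⟨hw, z', not_lt.1 h4⟩

theorem Fr.coprime (hε : 0 ≤ ε) (h : Fr ε α d a) : IsCoprime (d : ℤ) a := by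
  obtain ⟨h0, h1, h2⟩ := h
  rw [Int.isCoprime_iff_gcd_eq_one]
  set g : ℕ := Int.gcd d a with hg
  by_contra hne
  have hg0 : 0 < g := Int.gcd_pos_of_ne_zero_left _ (by omega)
  have hgd : (g : ℤ) ∣ d := Int.gcd_dvd_left _ _
  have hga : (g : ℤ) ∣ a := Int.gcd_dvd_right _ _
  have hgd' : g ∣ d := by exact_mod_cast hgd
  obtain ⟨e, he⟩ := hgd'
  obtain ⟨b, hb⟩ := hga
  have he0 : 0 < e := by
    rcases Nat.eq_zero_or_pos e with h | h
    · rw [h, mul_zero] at he; omega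
    · exact h
  have hed : e < d := by
    rw [he]
    nlinarith [show 2 ≤ g by omega]
  have h3 := h2 e he0 hed b
  have h4 : (d : ℝ) * α - a = g * (e * α - b) := by
    rw [he, hb]; push_cast; ring
  rw [h4, abs_mul, Nat.abs_cast] at h1
  have h5 : (1 : ℝ) ≤ g := by exact_mod_cast hg0
  have h6 : |(e : ℝ) * α - b| ≤ g * |(e : ℝ) * α - b| := le_mul_of_one_le_left (abs_nonneg _) h5
  linarith

theorem mul_eq_of_close {ε' : ℝ} {v : ℕ} {z : ℤ} (h1 : |d * α - a| ≤ ε) (h2 : |v * α - z| ≤ ε')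
    (h3 : v * ε + d * ε' < 1) : (v : ℤ) * a = d * z := by
  have h4 : |((v : ℤ) * a - d * z : ℤ)| < 1 := by
    have h5 : |(((v : ℤ) * a - d * z : ℤ) : ℝ)| < 1 := by
      have h6 : (((v : ℤ) * a - d * z : ℤ) : ℝ) = d * (v * α - z) - v * (d * α - a) := by push_cast; ring
      rw [h6]
      refine lt_of_le_of_lt (abs_sub _ _) ?_
      rw [abs_mul, abs_mul, Nat.abs_cast, Nat.abs_cast]
      have h7 := mul_le_mul_of_nonneg_left h2 (Nat.cast_nonneg (α := ℝ) d)
      have h8 := mul_le_mul_of_nonneg_left h1 (Nat.cast_nonneg (α := ℝ) v)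
      linarith
    exact_mod_cast h5
  have h9 := Int.abs_lt_one_iff.1 h4
  linarith

/-- Claim 1: the least multiplier divides the other small multipliers -/
theorem Fr.dvd (hε : 0 ≤ ε) (h : Fr ε α d a) {ε' : ℝ} {v : ℕ} {z : ℤ} (h2 : |v * α - z| ≤ ε')
    (h3 : v * ε + d * ε' < 1) : d ∣ v := by
  have h4 := mul_eq_of_close h.2.1 h2 h3
  have h5 : (d : ℤ) ∣ v := (h.coprime hε).dvd_of_dvd_mul_right ⟨z, h4⟩
  exact_mod_cast h5

/-- fractions with small denominators are determined by an approximation -/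
theorem Fr.unique (hε : 0 ≤ ε) (h : Fr ε α d a) (h' : Fr ε β d' a') {η : ℝ} (hη : |α - β| ≤ η)
    (h3 : d * ε + d' * ε + d * d' * η < 1) : d = d' ∧ a = a' := by
  have h4 : (d' : ℤ) * a = d * a' := by
    have h5 : |((d' : ℤ) * a - d * a' : ℤ)| < 1 := by
      have h6 : |(((d' : ℤ) * a - d * a' : ℤ) : ℝ)| < 1 := by
        have h7 : (((d' : ℤ) * a - d * a' : ℤ) : ℝ) = d * (d' * β - a') - d' * (d * α - a) + d * d' * (α - β) := by
          push_cast; ring
        rw [h7]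
        refine lt_of_le_of_lt ((abs_add_le _ _).trans (add_le_add (abs_sub _ _) le_rfl)) ?_
        rw [abs_mul, abs_mul, abs_mul, abs_mul, Nat.abs_cast, Nat.abs_cast]
        have h8 := mul_le_mul_of_nonneg_left h'.2.1 (Nat.cast_nonneg (α := ℝ) d)
        have h9 := mul_le_mul_of_nonneg_left h.2.1 (Nat.cast_nonneg (α := ℝ) d')
        have h10 := mul_le_mul_of_nonneg_left hη (by positivity : (0 : ℝ) ≤ (d : ℝ) * d')
        linarith
      exact_mod_cast h6
    have h9 := Int.abs_lt_one_iff.1 h5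
    linarith
  have h5 : d ∣ d' := by
    have : (d : ℤ) ∣ d' := (h.coprime hε).dvd_of_dvd_mul_right ⟨a', h4⟩
    exact_mod_cast this
  have h6 : d' ∣ d := by
    have : (d' : ℤ) ∣ d := (h'.coprime hε).dvd_of_dvd_mul_right ⟨a, h4.symm⟩
    exact_mod_cast this
  have h7 := Nat.dvd_antisymm h5 h6
  refine ⟨h7, ?_⟩
  rw [h7] at h4
  have h8 : (d' : ℤ) ≠ 0 := by have := h'.1; omega
  exact mul_left_cancel₀ h8 h4

/-- Claim 2: the transition -/
theorem Fr.trans (hε : 0 ≤ ε) (h : Fr ε α d a) (h' : Fr ε β d' a') {w : ℤ} (hβ : β = 2 * α - w)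
    (h3 : d * ε + 2 * d' * ε < 1) :
    d' ∣ d ∧ (Even d → 2 * d' ≤ d) ∧ (¬ Even d → d' = d ∧ a' = 2 * a - d * w) := by
  have h4 : (d : ℤ) * a' = d' * (2 * a - d * w) := by
    have h5 : |((d : ℤ) * a' - d' * (2 * a - d * w) : ℤ)| < 1 := by
      have h6 : |(((d : ℤ) * a' - d' * (2 * a - d * w) : ℤ) : ℝ)| < 1 := by
        have h7 : (((d : ℤ) * a' - d' * (2 * a - d * w) : ℤ) : ℝ) = 2 * d' * (d * α - a) - d * (d' * β - a') := by
          rw [hβ]; push_cast; ring
        rw [h7]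
        refine lt_of_le_of_lt (abs_sub _ _) ?_
        rw [abs_mul, abs_mul, abs_mul, Nat.abs_cast, Nat.abs_cast, abs_two]
        have h8 := mul_le_mul_of_nonneg_left h'.2.1 (Nat.cast_nonneg (α := ℝ) d)
        have h9 := mul_le_mul_of_nonneg_left h.2.1 (by positivity : (0 : ℝ) ≤ 2 * (d' : ℝ))
        linarith
      exact_mod_cast h6
    have h9 := Int.abs_lt_one_iff.1 h5
    linarith
  have hd0 := h.1
  have h5 : (d' : ℤ) ∣ d := (h'.coprime hε).dvd_of_dvd_mul_right ⟨2 * a - d * w, h4⟩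
  refine ⟨by exact_mod_cast h5, fun hev => ?_, fun hodd => ?_⟩
  · obtain ⟨e, he⟩ := hev
    have h6 : (e : ℤ) * a' = d' * (a - e * w) := by
      have h7 : (d : ℤ) = e + e := by exact_mod_cast he
      rw [h7] at h4
      have h8 : (2 : ℤ) * (e * a') = 2 * (d' * (a - e * w)) := by linear_combination h4
      exact mul_left_cancel₀ (by norm_num) h8
    have h7 : (d' : ℤ) ∣ e := (h'.coprime hε).dvd_of_dvd_mul_right ⟨_, h6⟩
    have h8 : d' ∣ e := by exact_mod_cast h7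
    have h9 := Nat.le_of_dvd (by omega) h8
    omega
  · have h6 : IsCoprime (d : ℤ) (2 * a - d * w) := by
      have h7 : IsCoprime (d : ℤ) 2 := by
        rw [Int.isCoprime_iff_gcd_eq_one]
        have h8 : Odd d := Nat.not_even_iff_odd.1 hodd
        have h9 : Nat.Coprime d 2 := Nat.coprime_two_right.2 h8
        exact_mod_cast h9
      have h8 : IsCoprime (d : ℤ) (2 * a) := h7.mul_right (h.coprime hε)
      have h9 : (2 * a - (d : ℤ) * w) = 2 * a + d * (-w) := by ring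
      rw [h9]
      exact IsCoprime.add_mul_left_right h8 (-w)
    have h7 : (d : ℤ) ∣ d' := h6.dvd_of_dvd_mul_right ⟨a', h4.symm⟩
    have h8 : d' = d := Nat.dvd_antisymm (by exact_mod_cast h5) (by exact_mod_cast h7)
    refine ⟨h8, ?_⟩
    rw [h8] at h4
    exact mul_left_cancel₀ (by omega : (d : ℤ) ≠ 0) h4

end Pool.Agent.Helper74.LC
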