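import Pool.Agent.Helper74.LC.Scale

/-!
# Project LC: numerical facts
-/

set_option autoImplicit false

open Filter Topology

namespace Pool.Agent.Helper74.LC

variable {A : Set ℕ}

theorem mul_div_succ_bounds {ℓ : ℕ} (hℓ : 0 < ℓ) (x : ℕ) : x ≤ ℓ * (x / ℓ + 1) ∧ ℓ * (x / ℓ + 1) ≤ x + ℓ := by
  have h1 := Nat.div_add_mod x ℓ
  have h2 := Nat.mod_lt x hℓ
  rw [mul_add, mul_one]
  omega

theorem eps_bound {Q u k L c : ℕ} (hu : Q ≤ 2 ^ u) (hL1 : 2 * k + u + c ≤ L) (hL2 : L + 2 ≤ 2 ^ k) :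
    (2 : ℝ) ^ k * (Q * (2 ^ k + L + 2) / 2 ^ L) ≤ 2 / 2 ^ c := by
  have hu' : (Q : ℝ) ≤ 2 ^ u := by exact_mod_cast hu
  have hL2' : (L : ℝ) + 2 ≤ 2 ^ k := by exact_mod_cast hL2
  have h1 : (2 : ℝ) ^ (2 * k + u + c) ≤ 2 ^ L := pow_le_pow_right₀ (by norm_num) hL1
  rw [mul_div_assoc', div_le_div_iff₀ (by positivity) (by positivity)]
  have h2 : (2 : ℝ) ^ k + L + 2 ≤ 2 * 2 ^ k := by linarith
  calc (2 : ℝ) ^ k * (Q * (2 ^ k + L + 2)) * 2 ^ c ≤ 2 ^ k * (2 ^ u * (2 * 2 ^ k)) * 2 ^ c := by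
        gcongr
    _ = 2 * 2 ^ (2 * k + u + c) := by rw [pow_add, pow_add, two_mul k, pow_add]; ring
    _ ≤ 2 * 2 ^ L := by gcongr

end Pool.Agent.Helper74.LC
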