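import Pool.Agent.Helper74.LC.Master

/-!
# Project LC: the distance from sets of small complexity
-/

set_option autoImplicit false

open Filter Topology

namespace Pool.Agent.Helper74.LC

variable {A : Set ℕ}

/-- some interval starting at `n`, of length at most `Tm`, has density of `E` larger than `β` -/
def MaxBadR (E : Set ℕ) (β : ℝ) (Tm n : ℕ) : Prop := ∃ T, 0 < T ∧ T ≤ Tm ∧ β * T < cnt E n (n + T)

/-- the maximal inequality with a real parameter -/
theorem maximalR (E : Set ℕ) {β : ℝ} (hβ : 0 ≤ β) (Tm N : ℕ) : ∀ (s a : ℕ), N - a ≤ s →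
    β * cnt {n | MaxBadR E β Tm n} a N ≤ cnt E a (N + Tm) := by
  classical
  have h00 : ∀ (F : Set ℕ) (a b : ℕ), b ≤ a → cnt F a b = 0 := by
    intro F a b hab
    unfold cnt
    rw [Finset.Ico_eq_empty (by omega), Finset.filter_empty, Finset.card_empty]
  have hle : ∀ (F : Set ℕ) (a b : ℕ), cnt F a b ≤ b - a := by
    intro F a b
    unfold cnt
    refine (Finset.card_filter_le _ _).trans ?_
    rw [Nat.card_Ico]
  intro s
  induction s with
  | zero =>
    intro a ha
    rw [h00 _ _ _ (by omega), Nat.cast_zero, mul_zero]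
    exact Nat.cast_nonneg _
  | succ s ih =>
    intro a ha
    rcases le_or_gt N a with h | h
    · rw [h00 _ _ _ (by omega), Nat.cast_zero, mul_zero]
      exact Nat.cast_nonneg _
    by_cases hP : MaxBadR E β Tm a
    · obtain ⟨T, h0, h1, h2⟩ := hP
      rcases le_or_gt (a + T) N with h3 | h3
      · have h4 := ih (a + T) (by omega)
        rw [← cnt_add _ (Nat.le_add_right a T) h3, ← cnt_add E (Nat.le_add_right a T) (by omega : a + T ≤ N + Tm)]
        push_cast
        rw [mul_add]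
        refine add_le_add (le_trans ?_ h2.le) h4
        have h5 := hle {n | MaxBadR E β Tm n} a (a + T)
        have h6 : (cnt {n | MaxBadR E β Tm n} a (a + T) : ℝ) ≤ T := by
          have : cnt {n | MaxBadR E β Tm n} a (a + T) ≤ T := by omega
          exact_mod_cast this
        gcongr
      · have h4 : cnt E a (a + T) ≤ cnt E a (N + Tm) := cnt_mono E le_rfl (by omega)
        have h4' : (cnt E a (a + T) : ℝ) ≤ cnt E a (N + Tm) := by exact_mod_cast h4
        refine le_trans ?_ h4'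
        refine le_trans ?_ h2.le
        have h5 := hle {n | MaxBadR E β Tm n} a N
        have h6 : (cnt {n | MaxBadR E β Tm n} a N : ℝ) ≤ T := by
          have : cnt {n | MaxBadR E β Tm n} a N ≤ T := by omega
          exact_mod_cast this
        gcongr
    · have h4 := ih (a + 1) (by omega)
      have h5 : cnt {n | MaxBadR E β Tm n} a (a + 1) = 0 := by
        unfold cnt
        rw [Nat.Ico_succ_singleton, Finset.filter_singleton, if_neg (by exact hP), Finset.card_empty]
      rw [← cnt_add _ (Nat.le_succ a) (by omega : a + 1 ≤ N), h5, zero_add]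
      refine h4.trans ?_
      have h6 : cnt E (a + 1) (N + Tm) ≤ cnt E a (N + Tm) := cnt_mono E (Nat.le_succ a) le_rfl
      exact_mod_cast h6

open Classical in
/-- the number of words in a Hamming ball -/
theorem ball_card (L : ℕ) (v : Fin L → Prop) {β t : ℝ} (ht : 0 < t) (ht1 : t ≤ 1) :
    ((Finset.univ.filter fun w : Fin L → Prop => (((Finset.univ.filter fun i => w i ≠ v i).card : ℕ) : ℝ) ≤ β * L).card : ℝ) ≤
      ((1 + t) / t ^ β) ^ L := by
  set F := Finset.univ.filter fun w : Fin L → Prop => (((Finset.univ.filter fun i => w i ≠ v i).card : ℕ) : ℝ) ≤ β * L with hF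
  have htβ : 0 < t ^ β := Real.rpow_pos_of_pos ht β
  have h1 : ∑ w : Fin L → Prop, ∏ i, (if w i = v i then (1 : ℝ) else t) = (1 + t) ^ L := by
    have h2 := Finset.prod_univ_sum (fun _ : Fin L => (Finset.univ : Finset Prop)) (fun i p => if p = v i then (1 : ℝ) else t)
    rw [Fintype.piFinset_univ] at h2
    rw [← h2]
    have h3 : ∀ i : Fin L, ∑ p : Prop, (if p = v i then (1 : ℝ) else t) = 1 + t := by
      intro i
      rw [Fintype.univ_Prop, Finset.sum_pair (by simp)]
      by_cases hv : v i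
      · rw [if_pos (by simp [hv]), if_neg (by simp [hv])]
      · rw [if_neg (by simp [hv]), if_pos (by simp [hv]), add_comm]
    rw [Finset.prod_congr rfl fun i _ => h3 i, Finset.prod_const, Finset.card_univ, Fintype.card_fin]
  have h2 : ∀ w ∈ F, (t ^ β) ^ L ≤ ∏ i, (if w i = v i then (1 : ℝ) else t) := by
    intro w hw
    rw [hF, Finset.mem_filter] at hw
    rw [Finset.prod_ite, Finset.prod_const_one, one_mul, Finset.prod_const]
    rw [← Real.rpow_mul_natCast ht.le, ← Real.rpow_natCast t]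
    exact Real.rpow_le_rpow_of_exponent_ge ht ht1 hw.2
  have h3 : (F.card : ℝ) * (t ^ β) ^ L ≤ (1 + t) ^ L := by
    calc (F.card : ℝ) * (t ^ β) ^ L = ∑ w ∈ F, (t ^ β) ^ L := by rw [Finset.sum_const, nsmul_eq_mul]
      _ ≤ ∑ w ∈ F, ∏ i, (if w i = v i then (1 : ℝ) else t) := Finset.sum_le_sum h2
      _ ≤ ∑ w : Fin L → Prop, ∏ i, (if w i = v i then (1 : ℝ) else t) :=
        Finset.sum_le_univ_sum_of_nonneg fun w => Finset.prod_nonneg fun i _ => by split_ifs <;> linarith
      _ = _ := h1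
  rw [div_pow, le_div_iff₀ (by positivity)]
  exact h3

theorem exp_entropy {β : ℝ} (h0 : 0 < β) (h1 : β < 1) :
    (1 + β / (1 - β)) / (β / (1 - β)) ^ β = Real.exp (Real.binEntropy β) := by
  have h2 : 0 < 1 - β := by linarith
  have h3 : 0 < β / (1 - β) := by positivity
  rw [Real.rpow_def_of_pos h3]
  have h4 : 1 + β / (1 - β) = Real.exp (-Real.log (1 - β)) := by
    rw [Real.exp_neg, Real.exp_log h2]
    field_simp
    ring
  rw [h4, ← Real.exp_sub]
  congr 1
  rw [Real.log_div h0.ne' h2.ne', Real.binEntropy, Real.log_inv, Real.log_inv]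
  ring

open Classical in
/-- the words near the blocks of `B` -/
noncomputable def near (B : Set ℕ) (β : ℝ) (L : ℕ) : Finset (Fin L → Prop) :=
  Finset.univ.filter fun w => ∃ n : ℕ, (((Finset.univ.filter fun i => w i ≠ blk B L n i).card : ℕ) : ℝ) ≤ β * L

theorem near_card {B : Set ℕ} {β : ℝ} (h0 : 0 < β) (h1 : β ≤ 1 / 2) (L : ℕ) :
    ((near B β L).card : ℝ) ≤ cplx B L * Real.exp (Real.binEntropy β) ^ L := by
  classical
  have hfin : (Set.range (blk B L)).Finite := Set.toFinite _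
  have h2 : near B β L ⊆ hfin.toFinset.biUnion fun v =>
      Finset.univ.filter fun w : Fin L → Prop => (((Finset.univ.filter fun i => w i ≠ v i).card : ℕ) : ℝ) ≤ β * L := by
    intro w hw
    unfold near at hw
    rw [Finset.mem_filter] at hw
    obtain ⟨-, n, hn⟩ := hw
    rw [Finset.mem_biUnion]
    refine ⟨blk B L n, (Set.Finite.mem_toFinset _).2 ⟨n, rfl⟩, ?_⟩
    rw [Finset.mem_filter]
    refine ⟨Finset.mem_univ _, ?_⟩
    convert hn
  have ht : 0 < β / (1 - β) := div_pos h0 (by linarith)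
  have ht1 : β / (1 - β) ≤ 1 := by rw [div_le_one (by linarith)]; linarith
  have h3 : ∀ v ∈ hfin.toFinset, ((Finset.univ.filter fun w : Fin L → Prop => (((Finset.univ.filter fun i => w i ≠ v i).card : ℕ) : ℝ) ≤ β * L).card : ℝ) ≤
      Real.exp (Real.binEntropy β) ^ L := by
    intro v _
    rw [← exp_entropy h0 (by linarith)]
    refine le_trans (le_of_eq ?_) (ball_card L v (β := β) ht ht1)
    congr 3
  calc ((near B β L).card : ℝ) ≤ ((hfin.toFinset.biUnion fun v =>
      Finset.univ.filter fun w : Fin L → Prop => (((Finset.univ.filter fun i => w i ≠ v i).card : ℕ) : ℝ) ≤ β * L).card : ℝ) := by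
        exact_mod_cast Finset.card_le_card h2
    _ ≤ ∑ v ∈ hfin.toFinset, ((Finset.univ.filter fun w : Fin L → Prop => (((Finset.univ.filter fun i => w i ≠ v i).card : ℕ) : ℝ) ≤ β * L).card : ℝ) := by
        exact_mod_cast Finset.card_biUnion_le
    _ ≤ ∑ v ∈ hfin.toFinset, Real.exp (Real.binEntropy β) ^ L := Finset.sum_le_sum h3
    _ = cplx B L * Real.exp (Real.binEntropy β) ^ L := by
        rw [Finset.sum_const, nsmul_eq_mul, ← Set.ncard_eq_toFinset_card _ hfin, ← cplx_eq]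

theorem cplx_growth (B : Set ℕ) {ℓ : ℕ} (hℓ : 0 < ℓ) (L : ℕ) :
    (cplx B L : ℝ) ≤ cplx B ℓ * ((cplx B ℓ : ℝ) ^ ((ℓ : ℝ)⁻¹)) ^ L := by
  set q : ℝ := (cplx B ℓ : ℝ) with hq
  have hq1 : 1 ≤ q := by rw [hq]; exact_mod_cast cplx_pos B ℓ
  set γ : ℝ := q ^ ((ℓ : ℝ)⁻¹) with hγ
  have hγ1 : 1 ≤ γ := Real.one_le_rpow hq1 (by positivity)
  have hγℓ : γ ^ ℓ = q := Real.rpow_inv_natCast_pow (by linarith) (by omega)
  have h1 : L ≤ ℓ * (L / ℓ + 1) := (mul_div_succ_bounds hℓ L).1
  have h2 : (cplx B L : ℝ) ≤ q ^ (L / ℓ + 1) := by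
    rw [hq]
    exact_mod_cast (cplx_mono B h1).trans (cplx_mul_le B ℓ (L / ℓ + 1))
  refine h2.trans ?_
  rw [pow_succ, mul_comm]
  refine mul_le_mul_of_nonneg_left ?_ (by linarith)
  calc q ^ (L / ℓ) = γ ^ (ℓ * (L / ℓ)) := by rw [pow_mul, hγℓ]
    _ ≤ γ ^ L := pow_le_pow_right₀ hγ1 (Nat.mul_div_le L ℓ)

/-- a set with a rational sum is eventually periodic or rich -/
theorem rich {x : ℚ} (hx : HasSum (fun a : A => ((a : ℕ) : ℝ) / 2 ^ (a : ℕ)) (x : ℝ)) (h : ¬ EvPer A) : Rich A := by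
  classical
  intro G K g hg0 hg2 hcard δ hδ
  have hK : 0 ≤ K := by
    have h1 := hcard 0
    rw [pow_zero, mul_one] at h1
    exact (Nat.cast_nonneg _).trans h1
  obtain ⟨c, hc⟩ := master hx h (fun L => (Set.toFinite (G L)).toFinset) hK hg0 hg2 (fun L => by
    rw [← Set.ncard_eq_toFinset_card]
    exact hcard L) (δ := δ / 4) (by positivity)
  refine ⟨c + 2, ?_⟩
  obtain ⟨K0, hK0⟩ := Filter.eventually_atTop.1 hc
  obtain ⟨N0, hN0⟩ := exists_nat_gt (2 / δ)
  rw [Filter.eventually_atTop]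
  refine ⟨max (2 ^ K0) (N0 + 1), fun N hN => ?_⟩
  have hN1 : 2 ^ K0 ≤ N := (le_max_left _ _).trans hN
  have hN2 : N0 + 1 ≤ N := (le_max_right _ _).trans hN
  have hNne : N ≠ 0 := by omega
  set k : ℕ := Nat.log 2 N + 1 with hk
  have hlog : K0 ≤ Nat.log 2 N := Nat.le_log_of_pow_le one_lt_two hN1
  have hkN2 : N < 2 ^ k := Nat.lt_pow_succ_log_self one_lt_two N
  have hkN1 : (2 : ℝ) ^ k ≤ 2 * N := by
    have h1 := Nat.pow_log_le_self 2 hNne
    have h2 : 2 ^ k ≤ 2 * N := by rw [hk, pow_succ]; omega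
    exact_mod_cast h2
  have h1 := hK0 k (by omega)
  set S : Set ℕ := {n : ℕ | n < N ∧ ∀ L, L ≤ 2 * Nat.log 2 N + (c + 2) → (fun i : Fin L => n + (i : ℕ) ∈ A) ∈ G L} with hS
  have h2 : S ⊆ ((insert 0 ((goodPos A (fun L => (Set.toFinite (G L)).toFinset) k c).image fun n => n + 1) : Finset ℕ) : Set ℕ) := by
    rintro n ⟨hn1, hn2⟩
    rw [Finset.mem_coe, Finset.mem_insert, Finset.mem_image]
    rcases Nat.eq_zero_or_pos n with h0 | h0
    · exact Or.inl h0
    · right
      refine ⟨n - 1, ?_, by omega⟩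
      unfold goodPos
      rw [Finset.mem_filter, Finset.mem_range]
      refine ⟨by omega, fun L hL => ?_⟩
      rw [Set.Finite.mem_toFinset, show n - 1 + 1 = n by omega]
      exact hn2 L (by omega)
  have h3 : S.ncard ≤ (goodPos A (fun L => (Set.toFinite (G L)).toFinset) k c).card + 1 := by
    refine (Set.ncard_le_ncard h2 (Finset.finite_toSet _)).trans ?_
    rw [Set.ncard_coe_finset]
    exact (Finset.card_insert_le _ _).trans (Nat.add_le_add_right Finset.card_image_le 1)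
  have h4 : (S.ncard : ℝ) ≤ (goodPos A (fun L => (Set.toFinite (G L)).toFinset) k c).card + 1 := by exact_mod_cast h3
  have h5 : 2 < δ * N := by
    have h6 : (N0 : ℝ) ≤ N := by exact_mod_cast (by omega : N0 ≤ N)
    rw [div_lt_iff₀ hδ] at hN0
    nlinarith
  nlinarith

/-- the version of richness used in the applications -/
theorem Rich.good (h : Rich A) (𝒢 : ∀ L : ℕ, Finset (Fin L → Prop)) {K g : ℝ} (hg0 : 0 ≤ g) (hg2 : g ^ 2 < 2)
    (hcard : ∀ L, ((𝒢 L).card : ℝ) ≤ K * g ^ L) {δ : ℝ} (hδ : 0 < δ) :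
    ∃ c : ℕ, ∀ᶠ k : ℕ in atTop, ((goodPos A 𝒢 k c).card : ℝ) ≤ δ * 2 ^ k := by
  classical
  obtain ⟨c, hc⟩ := h (fun L => {w | w ∈ 𝒢 L}) K g hg0 hg2 (fun L => by
    have h1 : ({w | w ∈ 𝒢 L} : Set (Fin L → Prop)) = (𝒢 L : Set (Fin L → Prop)) := rfl
    rw [h1, Set.ncard_coe_finset]
    exact hcard L) (δ / 2) (by positivity)
  refine ⟨c, ?_⟩
  obtain ⟨N0, hN0⟩ := Filter.eventually_atTop.1 hc
  have h2k : Tendsto (fun k : ℕ => (2 : ℝ) ^ k) atTop atTop := tendsto_pow_atTop_atTop_of_one_lt (one_lt_two : (1 : ℝ) < 2)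
  filter_upwards [h2k.eventually_ge_atTop (N0 : ℝ), h2k.eventually_ge_atTop (2 / δ)] with k hk1 hk2
  have h1 := hN0 (2 ^ k) (by exact_mod_cast hk1)
  rw [Nat.log_pow one_lt_two] at h1
  set S : Set ℕ := {n : ℕ | n < 2 ^ k ∧ ∀ L, L ≤ 2 * k + c → (fun i : Fin L => n + (i : ℕ) ∈ A) ∈ {w | w ∈ 𝒢 L}} with hS
  have hSfin : S.Finite := (Set.finite_lt_nat (2 ^ k)).subset fun n hn => hn.1
  have h2 : (goodPos A 𝒢 k c).image (fun n => n + 1) ⊆ insert (2 ^ k) hSfin.toFinset := by
    intro m hm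
    rw [Finset.mem_image] at hm
    obtain ⟨n, hn, rfl⟩ := hm
    unfold goodPos at hn
    rw [Finset.mem_filter, Finset.mem_range] at hn
    rw [Finset.mem_insert, Set.Finite.mem_toFinset]
    rcases Nat.lt_or_ge (n + 1) (2 ^ k) with h3 | h3
    · exact Or.inr ⟨h3, hn.2⟩
    · exact Or.inl (by omega)
  have h3 : (goodPos A 𝒢 k c).card ≤ S.ncard + 1 := by
    have h4 := (Finset.card_le_card h2).trans (Finset.card_insert_le _ _)
    rw [Finset.card_image_of_injective _ (add_left_injective 1), ← Set.ncard_eq_toFinset_card S hSfin] at h4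
    exact h4
  have h4 : ((goodPos A 𝒢 k c).card : ℝ) ≤ S.ncard + 1 := by exact_mod_cast h3
  rw [div_le_iff₀ hδ] at hk2
  push_cast at h1
  nlinarith

/-- the distance from sets of small complexity -/
theorem Rich.posLow_diff (hA : Rich A)
    (B : Set ℕ) (ℓ : ℕ) (β : ℝ) (hβ0 : 0 ≤ β) (hβ1 : β ≤ 1 / 2)
    (hB : Real.log (LC.cplx B ℓ) + ℓ * Real.binEntropy β < ℓ * Real.log 2 / 2) : LowDens (symmDiff A B) β := by
  classical
  intro c' hc'
  by_contra hcon
  rw [Filter.not_eventually] at hcon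
  have hfreq : ∃ᶠ N : ℕ in atTop, (cnt (symmDiff A B) 0 N : ℝ) < c' * N := by
    refine hcon.mono fun N hN => ?_
    rw [cnt_ncard] at hN
    exact not_le.1 hN
  have hc0 : 0 < c' := by
    obtain ⟨N, h1⟩ := hfreq.exists
    by_contra h2
    have h3 : c' * (N : ℝ) ≤ 0 := mul_nonpos_of_nonpos_of_nonneg (not_lt.1 h2) (Nat.cast_nonneg N)
    have h4 : (0 : ℝ) ≤ cnt (symmDiff A B) 0 N := Nat.cast_nonneg _
    linarith
  have hβ : 0 < β := hc0.trans hc'
  have hℓ : 0 < ℓ := by
    rcases Nat.eq_zero_or_pos ℓ with h0 | h0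
    · subst h0
      have h1 : (1 : ℝ) ≤ cplx B 0 := by exact_mod_cast cplx_pos B 0
      have h2 := Real.log_nonneg h1
      norm_num at hB
      linarith
    · exact h0
  have hℓ' : (0 : ℝ) < ℓ := by exact_mod_cast hℓ
  set q : ℝ := (cplx B ℓ : ℝ) with hq
  have hq1 : 1 ≤ q := by rw [hq]; exact_mod_cast cplx_pos B ℓ
  set γ : ℝ := q ^ ((ℓ : ℝ)⁻¹) with hγ
  have hγ0 : 0 < γ := Real.rpow_pos_of_pos (by linarith) _
  set h : ℝ := Real.exp (Real.binEntropy β) with hh
  have hh0 : 0 < h := Real.exp_pos _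
  have hg2 : (γ * h) ^ 2 < 2 := by
    have h1 : Real.log γ = Real.log q / ℓ := by
      rw [hγ, Real.log_rpow (by linarith)]
      field_simp
    have h2 : Real.log ((γ * h) ^ 2) < Real.log 2 := by
      rw [Real.log_pow, Real.log_mul hγ0.ne' hh0.ne', h1, hh, Real.log_exp]
      push_cast
      have h3 : Real.log q / ℓ + Real.binEntropy β < Real.log 2 / 2 := by
        rw [div_add' _ _ _ hℓ'.ne', div_lt_iff₀ hℓ']
        linarith
      linarith
    exact (Real.log_lt_log_iff (by positivity) (by norm_num)).1 h2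
  have hcard : ∀ L, ((near B β L).card : ℝ) ≤ q * (γ * h) ^ L := by
    intro L
    refine (near_card hβ hβ1 L).trans ?_
    rw [mul_pow, ← mul_assoc]
    exact mul_le_mul_of_nonneg_right (cplx_growth B hℓ L) (by positivity)
  have hcβ : c' / β < 1 := by rw [div_lt_one hβ]; exact hc'
  set δ0 : ℝ := (1 - c' / β) / 2 with hδ0
  have hδ0p : 0 < δ0 := by rw [hδ0]; linarith
  obtain ⟨c, hc⟩ := hA.good (near B β) (K := q) (g := γ * h) (by positivity) hg2 hcard (δ := δ0 / 4) (by positivity)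
  -- the scale
  have hk1 : ∀ᶠ k : ℕ in atTop, ((2 * k + c + 1 : ℕ) : ℝ) ≤ δ0 / 2 * 2 ^ k := by
    have h2 := tendsto_pow_const_div_const_pow_of_one_lt 1 (one_lt_two : (1 : ℝ) < 2)
    have h3 : Tendsto (fun k : ℕ => ((c + 1 : ℕ) : ℝ) / 2 ^ k) atTop (𝓝 0) := by
      have h4 := (tendsto_pow_atTop_nhds_zero_of_lt_one (by norm_num : (0 : ℝ) ≤ 1 / 2) (by norm_num)).const_mul ((c + 1 : ℕ) : ℝ)
      rw [mul_zero] at h4
      refine h4.congr fun k => ?_
      rw [one_div, inv_pow, div_eq_mul_inv]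
    have h5 := (h2.const_mul 2).add h3
    rw [mul_zero, add_zero] at h5
    filter_upwards [h5.eventually (gt_mem_nhds (by positivity : (0 : ℝ) < δ0 / 2))] with k hk
    have h6 : (0 : ℝ) < 2 ^ k := by positivity
    rw [mul_div_assoc', ← add_div, div_lt_iff₀ h6, pow_one] at hk
    push_cast at hk ⊢
    linarith
  obtain ⟨K, hK⟩ := Filter.eventually_atTop.1 (hc.and hk1)
  obtain ⟨N, hN1, hN2⟩ := (hfreq.and_eventually (eventually_ge_atTop (2 ^ K))).exists
  have hN0 : N ≠ 0 := by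
    have : 0 < 2 ^ K := by positivity
    omega
  have hlog : K ≤ Nat.log 2 N := Nat.le_log_of_pow_le one_lt_two hN2
  set k : ℕ := Nat.log 2 N + 1 with hk
  have hkN2 : N < 2 ^ k := Nat.lt_pow_succ_log_self one_lt_two N
  have hkN1 : 2 ^ k ≤ 2 * N := by
    have := Nat.pow_log_le_self 2 hN0
    rw [hk, pow_succ]
    omega
  obtain ⟨e1, e2⟩ := hK k (by omega)
  set Tm : ℕ := 2 * k + c with hTm
  have hkN1' : (2 : ℝ) ^ k ≤ 2 * N := by exact_mod_cast hkN1
  have hTmN : ((Tm + 1 : ℕ) : ℝ) ≤ δ0 * N := by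
    refine e2.trans ?_
    nlinarith
  have hδ1 : δ0 ≤ 1 / 2 := by
    rw [hδ0]
    have : 0 < c' / β := by positivity
    linarith
  have hN' : (0 : ℝ) < N := by exact_mod_cast Nat.pos_of_ne_zero hN0
  have hTmN' : Tm + 1 ≤ N := by
    have h1 : ((Tm + 1 : ℕ) : ℝ) ≤ N := by nlinarith
    exact_mod_cast h1
  obtain ⟨N1, hN1'⟩ : ∃ N1, N = N1 + (Tm + 1) := ⟨N - (Tm + 1), by omega⟩
  -- the bad positions
  set D : Set ℕ := symmDiff A B with hD
  have b1 : β * ((Finset.range N1).filter fun n => MaxBadR D β Tm (n + 1)).card ≤ cnt D 0 N := by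
    have h1 : ((Finset.range N1).filter fun n => MaxBadR D β Tm (n + 1)).card ≤ cnt {n | MaxBadR D β Tm n} 0 (N1 + 1) := by
      refine card_le_cnt (f := fun n => n + 1) (fun n hn => ?_) (fun n _ n' _ h => by simpa using h)
      rw [Finset.mem_filter, Finset.mem_range] at hn
      exact ⟨Nat.zero_le _, by omega, hn.2⟩
    have h2 := maximalR D hβ0 Tm (N1 + 1) (N1 + 1) 0 (by omega)
    rw [show N1 + 1 + Tm = N by omega] at h2
    refine le_trans ?_ h2
    have h3 : (((Finset.range N1).filter fun n => MaxBadR D β Tm (n + 1)).card : ℝ) ≤ cnt {n | MaxBadR D β Tm n} 0 (N1 + 1) := by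
      exact_mod_cast h1
    gcongr
  -- the good positions
  have b2 : (Finset.range N1).filter (fun n => ¬ MaxBadR D β Tm (n + 1)) ⊆ goodPos A (near B β) k c := by
    intro n hn
    rw [Finset.mem_filter, Finset.mem_range] at hn
    unfold goodPos
    rw [Finset.mem_filter, Finset.mem_range]
    refine ⟨by omega, fun L hL => ?_⟩
    unfold near
    rw [Finset.mem_filter]
    refine ⟨Finset.mem_univ _, n + 1, ?_⟩
    have h1 : (Finset.univ.filter fun i => blk A L (n + 1) i ≠ blk B L (n + 1) i).card ≤ cnt D (n + 1) (n + 1 + L) := by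
      refine card_le_cnt (f := fun i : Fin L => n + 1 + (i : ℕ)) (fun i hi => ?_) (fun i _ j _ hij => ?_)
      · rw [Finset.mem_filter] at hi
        refine ⟨Nat.le_add_right _ _, Nat.add_lt_add_left i.isLt _, ?_⟩
        have h2 : ¬ (n + 1 + (i : ℕ) ∈ A ↔ n + 1 + (i : ℕ) ∈ B) := fun h3 => hi.2 (propext h3)
        rw [hD, Set.mem_symmDiff]
        tauto
      · have h3 : n + 1 + (i : ℕ) = n + 1 + (j : ℕ) := hij
        exact Fin.ext (by omega)
    have h2 : (cnt D (n + 1) (n + 1 + L) : ℝ) ≤ β * L := by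
      rcases Nat.eq_zero_or_pos L with h0 | h0
      · subst h0
        have h3 : cnt D (n + 1) (n + 1 + 0) = 0 := by
          unfold cnt
          rw [add_zero, Finset.Ico_self, Finset.filter_empty, Finset.card_empty]
        rw [h3, Nat.cast_zero, mul_zero]
      · by_contra h3
        exact hn.2 ⟨L, h0, by omega, not_le.1 h3⟩
    have h3 : ((Finset.univ.filter fun i => blk A L (n + 1) i ≠ blk B L (n + 1) i).card : ℝ) ≤ cnt D (n + 1) (n + 1 + L) := by
      exact_mod_cast h1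
    refine le_trans (le_of_eq ?_) (h3.trans h2)
    congr 2
  have b3 := Finset.card_le_card b2
  have b4 : ((Finset.range N1).filter fun n => MaxBadR D β Tm (n + 1)).card +
      ((Finset.range N1).filter fun n => ¬ MaxBadR D β Tm (n + 1)).card = N1 := by
    rw [Finset.card_filter_add_card_filter_not, Finset.card_range]
  have b5 : (((Finset.range N1).filter fun n => MaxBadR D β Tm (n + 1)).card : ℝ) ≤ c' / β * N := by
    rw [div_mul_eq_mul_div, le_div_iff₀ hβ, mul_comm]
    exact b1.trans hN1.le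
  have b6 : (((Finset.range N1).filter fun n => MaxBadR D β Tm (n + 1)).card : ℝ) +
      ((Finset.range N1).filter fun n => ¬ MaxBadR D β Tm (n + 1)).card = N1 := by exact_mod_cast b4
  have b7 : (((Finset.range N1).filter fun n => ¬ MaxBadR D β Tm (n + 1)).card : ℝ) ≤ (goodPos A (near B β) k c).card := by
    exact_mod_cast b3
  have b8 : (N : ℝ) = N1 + ((Tm + 1 : ℕ) : ℝ) := by rw [hN1']; push_cast; ring
  have b9 : c' / β * N = (1 - 2 * δ0) * N := by rw [hδ0]; ring
  nlinarith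

end Pool.Agent.Helper74.LC
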