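import Pool.Agent.Helper74.LC.Cplx

/-!
# Project LC: eventually periodic representations are isolated
-/

set_option autoImplicit false

open Filter Topology

namespace Pool.Agent.Helper74.LC

/-- Among the sets with the sum `x` an eventually periodic set is isolated. -/
theorem isolated {A : Set ℕ} (hA : EvPer A) {x : ℝ} (hx : HasSum (fun a : A => ((a : ℕ) : ℝ) / 2 ^ (a : ℕ)) x) :
    ∃ N : ℕ, ∀ A' : Set ℕ, HasSum (fun a : A' => ((a : ℕ) : ℝ) / 2 ^ (a : ℕ)) x →
      (∀ n, n ≤ N → (n ∈ A' ↔ n ∈ A)) → A' = A := by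
  obtain ⟨m, p, hp, hper⟩ := hA
  have hδ := dg_dig A
  have hδp : ∀ k, m < k → dg A (k + p) = dg A k := fun k hk => dg_eq A (hper k hk.le)
  -- the distance of the tails from `1/2`
  obtain ⟨c, hc0, hc⟩ : ∃ c : ℝ, 0 < c ∧ ∀ i, i < p → c ≤ |2 * T (dg A) (m + i) - 1| := by
    have hne : (Finset.range p).Nonempty := Finset.nonempty_range_iff.2 (by omega)
    obtain ⟨i0, hi0, hmin⟩ := Finset.exists_min_image (Finset.range p) (fun i => |2 * T (dg A) (m + i) - 1|) hne
    refine ⟨|2 * T (dg A) (m + i0) - 1|, ?_, fun i hi => hmin i (Finset.mem_range.2 hi)⟩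
    rw [abs_pos, sub_ne_zero]
    intro h
    exact ne_half hδ hp hδp (Nat.le_add_right m i0) (by linarith)
  have hc' : ∀ i, c ≤ |2 * T (dg A) (m + i) - 1| := by
    intro i
    induction i using Nat.strong_induction_on with
    | _ i ih =>
      rcases lt_or_ge i p with h | h
      · exact hc i h
      · have h1 := ih (i - p) (by omega)
        have h2 := (per_tail hδp (Nat.le_add_right m (i - p))).1
        rw [show m + (i - p) + p = m + i by omega] at h2
        rwa [h2]
  obtain ⟨M, hM⟩ := exists_nat_gt (7 / c)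
  set m' : ℕ := m + M with hm'
  have hm7 : 7 < (m' : ℝ) * c := by
    have h1 : (M : ℝ) ≤ m' := by rw [hm']; exact_mod_cast Nat.le_add_left M m
    have h2 : 7 < M * c := (div_lt_iff₀ hc0).1 hM
    nlinarith
  refine ⟨m', fun A' hx' hagree => ?_⟩
  have hd := dg_dig A'
  have hR : ∀ n, n ≤ m' → R (dg A') n = R (dg A) n := by
    intro n
    induction n with
    | zero => intro _; rw [R_zero A' hx', R_zero A hx]
    | succ n ih =>
      intro hn
      rw [R_succ hd, R_succ hδ, ih (by omega)]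
      have h1 : dg A' (n + 1) = dg A (n + 1) := by
        by_cases h : n + 1 ∈ A
        · rw [dg, dg, Set.indicator_of_mem h, Set.indicator_of_mem ((hagree _ hn).2 h)]
        · rw [dg, dg, Set.indicator_of_notMem h, Set.indicator_of_notMem fun hc => h ((hagree _ hn).1 hc)]
      rw [h1]
  have hfin := rigid hd hδ (m := m') (c := c) (fun n hn => by
    obtain ⟨i, rfl⟩ := Nat.exists_eq_add_of_le (show m ≤ n by omega)
    exact hc' i) hm7 (hR m' le_rfl)
  ext k
  rcases le_or_gt k m' with h | h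
  · exact hagree k h
  · exact dg_iff A' (hfin k h)

/-- A limit of other sets with the same rational sum has superpolynomial complexity. -/
theorem limit_cplx {A : Set ℕ} {x : ℚ} (hx : HasSum (fun a : A => ((a : ℕ) : ℝ) / 2 ^ (a : ℕ)) (x : ℝ))
    (hlim : ∀ N : ℕ, ∃ A' : Set ℕ, HasSum (fun a : A' => ((a : ℕ) : ℝ) / 2 ^ (a : ℕ)) (x : ℝ) ∧ A' ≠ A ∧
      ∀ n, n ≤ N → (n ∈ A' ↔ n ∈ A)) : A.Infinite ∧ ∀ C : ℕ, ∀ᶠ L in atTop, L ^ C < cplx A L := by
  have hnp : ¬ EvPer A := by
    intro h
    obtain ⟨N, hN⟩ := isolated h hx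
    obtain ⟨A', h1, h2, h3⟩ := hlim N
    exact h2 (hN A' h1 h3)
  constructor
  · intro hfin
    obtain ⟨N, hN⟩ := hfin.bddAbove
    refine hnp ⟨N + 1, 1, one_pos, fun n hn => ?_⟩
    constructor
    · intro h
      have := hN h
      omega
    · intro h
      have := hN h
      omega
  · intro C
    by_contra h
    rw [Filter.not_eventually] at h
    exact hnp (low_cplx hx (C := C) (h.mono fun L hL => not_lt.1 hL))

end Pool.Agent.Helper74.LC
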