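import Pool.Agent.Helper74.LC.Scale
import Pool.Agent.Helper74.LC.Defs2

/-!
# Project LC: two small facts
-/

set_option autoImplicit false

open Filter Topology

namespace Pool.Agent.Helper74.LC

variable {A : Set ℕ}

theorem cnt_ncard (E : Set ℕ) (N : ℕ) : (E ∩ Set.Iio N).ncard = cnt E 0 N := by
  classical
  unfold cnt
  rw [← Set.ncard_coe_finset]
  congr 1
  ext n
  simp only [Set.mem_inter_iff, Set.mem_Iio, Finset.coe_filter, Finset.mem_Ico, Set.mem_ofPred_eq]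
  constructor
  · rintro ⟨h1, h2⟩
    exact ⟨⟨Nat.zero_le _, h2⟩, h1⟩
  · rintro ⟨⟨-, h2⟩, h1⟩
    exact ⟨h1, h2⟩

theorem Q_R_zero {x : ℚ} (hx : HasSum (fun a : A => ((a : ℕ) : ℝ) / 2 ^ (a : ℕ)) (x : ℝ)) :
    (x.den : ℝ) * R (dg A) 0 ∈ Zi := by
  rw [R_zero A hx]
  have : (x.den : ℝ) * (x : ℝ) = ((x.num : ℤ) : ℝ) := by
    have h9 : (x : ℚ) * x.den = x.num := Rat.mul_den_eq_num x
    rw [mul_comm]
    exact_mod_cast congrArg (fun y : ℚ => (y : ℝ)) h9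
  rw [this]
  exact int_mem _

end Pool.Agent.Helper74.LC
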