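import Pool.Agent.Helper74.LC.Scale
import Pool.Agent.Helper74.LC.Global
import Pool.Agent.Helper74.LC.Rich

/-!
# Project LC: the master theorem

`point`: a position with a small least multiplier implies periodicity.
`fixed_scale2`: the counting of the positions `n < 2^k`.
`master`: the good positions for a family of sets of words of growth rate below `√2` have small density.
-/

set_option autoImplicit false

open Filter Topology

namespace Pool.Agent.Helper74.LC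

variable {A : Set ℕ}

theorem point {Q u i0 k J : ℕ} (hQ : 0 < Q) (hu : Q ≤ 2 ^ u) (hR : (Q : ℝ) * R (dg A) 0 ∈ Zi) {ε : ℝ} (hε0 : 0 ≤ ε)
    (hJ : J = Q * 2 ^ i0 + 1 + (u + i0 + 3)) (hJk : 2 * J + 4 ≤ 2 ^ k)
    (hε : 2 ^ k * ε ≤ 2 / 2 ^ (8 + J)) {n : ℕ} (hn : 7 * (Q * 2 ^ i0) < n) (hnk : n < 2 ^ k)
    {d : ℕ} {a : ℤ} (hd0 : 0 < d) (hdi : d ≤ 2 ^ i0) (ha : |d * (Q * T (dg A) n) - a| ≤ ε) : EvPer A := by
  classical
  have hd := dg_dig A
  set w : ℕ → ℤ := fun j => Q * (if n + j + 1 ∈ A then 1 else 0) with hw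
  have hwc : ∀ j, (w j : ℝ) = Q * dg A (n + j + 1) := by
    intro j
    rw [dg_cast A (n + j + 1)]
    simp only [hw]
    push_cast
    rfl
  set aj : ℕ → ℤ := fun j => Nat.rec a (fun j z => 2 * z - d * w j) j with haj
  have haj1 : ∀ j, aj (j + 1) = 2 * aj j - d * w j := fun j => rfl
  have herr : ∀ j, |d * (Q * T (dg A) (n + j)) - aj j| ≤ 2 ^ j * ε := by
    intro j
    induction j with
    | zero => rw [pow_zero, one_mul]; exact ha
    | succ j ih =>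
      have h1 := T_succ hd (n + j)
      have h2 : (d : ℝ) * (Q * T (dg A) (n + (j + 1))) - aj (j + 1) = 2 * (d * (Q * T (dg A) (n + j)) - aj j) := by
        rw [haj1]
        push_cast
        rw [hwc, ← add_assoc]
        linear_combination -2 * (d : ℝ) * (Q : ℝ) * h1
      rw [h2, abs_mul, abs_two, pow_succ]
      linarith
  have h2k : (1 : ℝ) ≤ 2 ^ k := one_le_pow₀ (by norm_num)
  obtain ⟨m, p, hp, hper⟩ := core2 hd hQ hd0 hR (n0 := n) (J := J) (C := u + i0 + 3) (ε := 2 ^ J * ε) (a := aj)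
    (fun j hj => by
      refine (herr j).trans ?_
      have : (2 : ℝ) ^ j ≤ 2 ^ J := pow_le_pow_right₀ (by norm_num) hj
      gcongr)
    (fun j _ => by
      rw [haj1]
      push_cast
      rw [hwc])
    (by
      have h1 : Q * d ≤ Q * 2 ^ i0 := Nat.mul_le_mul_left _ hdi
      omega)
    (by
      calc 8 * (Q * d) ≤ 8 * (2 ^ u * 2 ^ i0) := by gcongr
        _ = 2 ^ (u + i0 + 3) := by rw [pow_add, pow_add]; ring)
    (by
      have h1 : 2 * (J : ℝ) + 4 ≤ 2 ^ k := by exact_mod_cast hJk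
      have h2 : (n : ℝ) ≤ 2 ^ k := by exact_mod_cast hnk.le
      have h3 : 2 * ((n : ℝ) + J) + 4 ≤ 3 * 2 ^ k := by linarith
      have h4 : (2 * ((n : ℝ) + J) + 4) * (2 ^ J * ε) ≤ 3 * 2 ^ k * (2 ^ J * ε) := by gcongr
      have h5 : 3 * 2 ^ k * (2 ^ J * ε) = 3 * 2 ^ J * (2 ^ k * ε) := by ring
      have h6 : 3 * 2 ^ J * (2 ^ k * ε) ≤ 3 * 2 ^ J * (2 / 2 ^ (8 + J)) := by gcongr
      have h7 : (3 : ℝ) * 2 ^ J * (2 / 2 ^ (8 + J)) = 6 / 256 := by
        rw [pow_add]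
        field_simp
        norm_num
      linarith)
    (by
      have h1 : Q * d ≤ Q * 2 ^ i0 := Nat.mul_le_mul_left _ hdi
      omega)
  exact ⟨m + 1, p, hp, fun k hk => dg_iff A (hper k (by omega))⟩

open Classical in
/-- the positions `n < 2^k` such that all blocks of length at most `2 k + c` after `n` belong to the family -/
noncomputable def goodPos (A : Set ℕ) (𝒢 : ∀ L : ℕ, Finset (Fin L → Prop)) (k c : ℕ) : Finset ℕ :=
  (Finset.range (2 ^ k)).filter fun n => ∀ L, L ≤ 2 * k + c → blk A L (n + 1) ∈ 𝒢 L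

theorem fixed_scale2 {Q u : ℕ} (hQ : 0 < Q) (hu : Q ≤ 2 ^ u) (hR : (Q : ℝ) * R (dg A) 0 ∈ Zi)
    (𝒢 : ∀ L : ℕ, Finset (Fin L → Prop)) {k i0 J : ℕ} (hJ : J = Q * 2 ^ i0 + 1 + (u + i0 + 3))
    (hk : 2 * k + (u + (8 + J)) + 2 ≤ 2 ^ k) (hJk : 2 * J + 4 ≤ 2 ^ k)
    (hcount : 7 * (Q * 2 ^ i0) + 1 + (𝒢 (2 * k + (u + (8 + J)))).card +
      ∑ i ∈ Finset.Ico i0 k, (𝒢 (2 * i + u + 4)).card * (2 * 2 ^ (k - i)) < (goodPos A 𝒢 k (u + (8 + J))).card) :
    EvPer A := by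
  classical
  set c : ℕ := u + (8 + J) with hc
  set L : ℕ := 2 * k + c with hL
  set ε : ℝ := Q * (2 ^ k + L + 2) / 2 ^ L with hε
  have hε0 : 0 ≤ ε := by positivity
  have hQ' : (0 : ℝ) < Q := by exact_mod_cast hQ
  have hεb : 2 ^ k * ε ≤ 2 / 2 ^ (8 + J) := by
    have h1 := eps_bound (Q := Q) (u := u) (k := k) (L := L) (c := 8 + J) hu (by omega) (by omega)
    rw [← hε] at h1
    exact h1
  have hεb' : 2 ^ k * ε ≤ 1 / 128 := by
    refine hεb.trans ?_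
    rw [div_le_div_iff₀ (by positivity) (by norm_num), pow_add]
    have : (1 : ℝ) ≤ 2 ^ J := one_le_pow₀ (by norm_num)
    linarith
  set rep : ℕ → Prop := fun n => ∃ n', n' < 2 ^ k ∧ n' ≠ n ∧ ∀ i, i < L → (n + 1 + i ∈ A ↔ n' + 1 + i ∈ A) with hrep
  have hfr : ∀ n, n < 2 ^ k → rep n → ∃ d a, Fr ε (Q * T (dg A) n) d a ∧ d < 2 ^ k := by
    intro n hn hr
    obtain ⟨n', h1, h2, h3⟩ := hr
    exact rep_fr hQ hR hn h1 (Ne.symm h2) h3
  choose! dd aa hdd using hfr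
  set G : Finset ℕ := goodPos A 𝒢 k c with hG
  have hGmem : ∀ n, n ∈ G → n < 2 ^ k ∧ ∀ L, L ≤ 2 * k + c → blk A L (n + 1) ∈ 𝒢 L := by
    intro n hn
    rw [hG, goodPos, Finset.mem_filter, Finset.mem_range] at hn
    exact hn
  set XG : Finset ℕ := G.filter fun n => ¬ rep n with hXG
  set H : ℕ → Finset ℕ := fun i => G.filter fun n => rep n ∧ 2 ^ i ≤ dd n ∧ dd n < 2 ^ (i + 1) with hHdef
  have b2 : XG.card ≤ (𝒢 L).card := by
    refine Finset.card_le_card_of_injOn (fun n => blk A L (n + 1)) (fun n hn => ?_) (fun n hn n' hn' h => ?_)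
    · rw [Finset.mem_coe, hXG, Finset.mem_filter] at hn
      exact Finset.mem_coe.2 ((hGmem n hn.1).2 L le_rfl)
    · rw [Finset.mem_coe, hXG, Finset.mem_filter] at hn hn'
      by_contra hne
      exact hn.2 ⟨n', (hGmem n' hn'.1).1, fun hc => hne hc.symm, fun i hi => iff_of_eq (congrFun h ⟨i, hi⟩)⟩
  have b5 : ∀ i ∈ Finset.Ico i0 k, (H i).card ≤ (𝒢 (2 * i + u + 4)).card * (2 * 2 ^ (k - i)) := by
    intro i hi
    rw [Finset.mem_Ico] at hi
    refine count_level (Q := Q) (k := k) (i := i) (Li := 2 * i + u + 4) (Lm := i + k + u + 2) (ε := ε) hQ hR hε0 (by omega)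
      ?_ ?_ ?_ (F := H i) ?_ (V := 𝒢 (2 * i + u + 4)) (g := fun n => blk A (2 * i + u + 4) (n + 1)) ?_ ?_
    · have hu' : (Q : ℝ) ≤ 2 ^ u := by exact_mod_cast hu
      have h3 : (Q : ℝ) * 4 ^ (i + 1) / 2 ^ (2 * i + u + 4) ≤ 1 / 4 := by
        rw [div_le_div_iff₀ (by positivity) (by norm_num)]
        calc (Q : ℝ) * 4 ^ (i + 1) * 4 ≤ 2 ^ u * 4 ^ (i + 1) * 4 := by gcongr
          _ = 1 * 2 ^ (2 * i + u + 4) := by
            rw [show (4 : ℝ) = 2 ^ 2 by norm_num, ← pow_mul, ← pow_add, ← pow_add, one_mul]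
            congr 1
            ring
      linarith
    · have h2 : ((L : ℝ) + 2) ≤ 2 ^ k := by
        have : L + 2 ≤ 2 ^ k := by omega
        exact_mod_cast this
      rw [hε, mul_div_assoc', mul_div_assoc', div_lt_iff₀ (by positivity)]
      have h4 : (2 : ℝ) ^ k + L + 2 ≤ 2 * 2 ^ k := by linarith
      calc (2 : ℝ) ^ (i + k + u + 2 + 1) * (2 * (Q * (2 ^ k + L + 2))) ≤ 2 ^ (i + k + u + 2 + 1) * (2 * (Q * (2 * 2 ^ k))) := by
            gcongr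
        _ = Q * 2 ^ i * 2 ^ (2 * k + u + 5) := by
            rw [show i + k + u + 2 + 1 = i + k + u + 3 by ring, show 2 * k + u + 5 = k + k + u + 5 by ring]
            simp only [pow_add]
            ring
        _ < Q * 2 ^ i * 2 ^ L := by
            refine mul_lt_mul_of_pos_left ?_ (by positivity)
            exact pow_lt_pow_right₀ (by norm_num) (by omega)
    · have hu' : (Q : ℝ) ≤ 2 ^ u := by exact_mod_cast hu
      have h2 : ((i + k + u + 2 : ℕ) : ℝ) + 1 + 2 ≤ 2 ^ k := by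
        have : i + k + u + 2 + 1 + 2 ≤ 2 ^ k := by omega
        exact_mod_cast this
      have h3 : (2 : ℝ) ^ (i + 1) * (Q * (2 ^ k + (((i + k + u + 2 : ℕ) : ℝ) + 1) + 2) / 2 ^ (i + k + u + 2 + 1)) ≤ 1 / 2 := by
        rw [mul_div_assoc', div_le_div_iff₀ (by positivity) (by norm_num)]
        have h4 : (2 : ℝ) ^ k + (((i + k + u + 2 : ℕ) : ℝ) + 1) + 2 ≤ 2 * 2 ^ k := by linarith
        calc (2 : ℝ) ^ (i + 1) * (Q * (2 ^ k + (((i + k + u + 2 : ℕ) : ℝ) + 1) + 2)) * 2 ≤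
            2 ^ (i + 1) * (2 ^ u * (2 * 2 ^ k)) * 2 := by gcongr
          _ = 1 * 2 ^ (i + k + u + 2 + 1) := by
              rw [one_mul]
              simp only [pow_add]
              ring
      linarith
    · intro n hn
      simp only [hHdef] at hn
      rw [Finset.mem_filter] at hn
      obtain ⟨h2, h3, h5, h6⟩ := hn
      obtain ⟨h7, h8⟩ := hdd n (hGmem n h2).1 h3
      exact ⟨(hGmem n h2).1, dd n, aa n, h7, h5, h6, h8.le⟩
    · intro n hn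
      simp only [hHdef] at hn
      rw [Finset.mem_filter] at hn
      exact (hGmem n hn.1).2 _ (by omega)
    · intro n _ n' _ h j hj
      exact iff_of_eq (congrFun h ⟨j, hj⟩)
  set Z : Finset ℕ := Finset.range (7 * (Q * 2 ^ i0) + 1) ∪ (XG ∪ (Finset.Ico i0 k).biUnion H) with hZ
  have hZcard : Z.card < G.card := by
    refine lt_of_le_of_lt ?_ hcount
    have h1 := Finset.card_union_le XG ((Finset.Ico i0 k).biUnion H)
    have h2 : ((Finset.Ico i0 k).biUnion H).card ≤ ∑ i ∈ Finset.Ico i0 k, (𝒢 (2 * i + u + 4)).card * (2 * 2 ^ (k - i)) :=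
      Finset.card_biUnion_le.trans (Finset.sum_le_sum b5)
    have h3 := Finset.card_union_le (Finset.range (7 * (Q * 2 ^ i0) + 1)) (XG ∪ (Finset.Ico i0 k).biUnion H)
    rw [Finset.card_range] at h3
    rw [hZ]
    linarith
  obtain ⟨n, hnG, hnZ⟩ : ∃ n ∈ G, n ∉ Z := by
    by_contra hcon
    push Not at hcon
    have h1 : G.card ≤ Z.card := Finset.card_le_card fun n hn => hcon n hn
    omega
  have hnr := (hGmem n hnG).1
  rw [hZ, Finset.mem_union, Finset.mem_union, Finset.mem_range, Finset.mem_biUnion] at hnZ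
  push Not at hnZ
  obtain ⟨h1, h3, h4⟩ := hnZ
  have h8 : rep n := by
    by_contra hc
    exact h3 (by rw [hXG, Finset.mem_filter]; exact ⟨hnG, hc⟩)
  obtain ⟨h10, h11⟩ := hdd n hnr h8
  have h9 : dd n < 2 ^ i0 := by
    by_contra hc
    push Not at hc
    have h12 : dd n ≠ 0 := by have := h10.1; omega
    refine h4 (Nat.log 2 (dd n)) (Finset.mem_Ico.2 ⟨Nat.le_log_of_pow_le one_lt_two hc, Nat.log_lt_of_lt_pow h12 h11⟩) ?_
    simp only [hHdef]
    rw [Finset.mem_filter]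
    exact ⟨hnG, h8, Nat.pow_log_le_self 2 h12, Nat.lt_pow_succ_log_self one_lt_two _⟩
  exact point (u := u) (i0 := i0) (k := k) (J := J) hQ hu hR hε0 hJ hJk hεb (by omega) hnr h10.1 h9.le h10.2.1

theorem master {x : ℚ} (hx : HasSum (fun a : A => ((a : ℕ) : ℝ) / 2 ^ (a : ℕ)) (x : ℝ)) (hA : ¬ EvPer A)
    (𝒢 : ∀ L : ℕ, Finset (Fin L → Prop)) {K g : ℝ} (hK : 0 ≤ K) (hg0 : 0 ≤ g) (hg2 : g ^ 2 < 2)
    (hcard : ∀ L, ((𝒢 L).card : ℝ) ≤ K * g ^ L) {δ : ℝ} (hδ : 0 < δ) :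
    ∃ c : ℕ, ∀ᶠ k : ℕ in atTop, ((goodPos A 𝒢 k c).card : ℝ) ≤ δ * 2 ^ k := by
  set Q : ℕ := x.den with hQd
  have hQ : 0 < Q := x.den_pos
  have hR : (Q : ℝ) * R (dg A) 0 ∈ Zi := Q_R_zero hx
  have hu : Q ≤ 2 ^ Q := Nat.lt_two_pow_self.le
  set r : ℝ := g ^ 2 / 2 with hr
  have hr0 : 0 ≤ r := by positivity
  have hr1 : r < 1 := by rw [hr]; linarith
  have hrt := tendsto_pow_atTop_nhds_zero_of_lt_one hr0 hr1
  have hr1' : 0 < 1 - r := by linarith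
  obtain ⟨i0, hi0⟩ : ∃ i0 : ℕ, 2 * (K * g ^ (Q + 4)) * (r ^ i0 / (1 - r)) ≤ δ / 4 := by
    have h1 : Tendsto (fun i : ℕ => 2 * (K * g ^ (Q + 4)) * (r ^ i / (1 - r))) atTop (𝓝 (2 * (K * g ^ (Q + 4)) * (0 / (1 - r)))) :=
      (hrt.div_const _).const_mul _
    rw [zero_div, mul_zero] at h1
    obtain ⟨i0, h2⟩ := (h1.eventually (gt_mem_nhds (by positivity : (0 : ℝ) < δ / 4))).exists
    exact ⟨i0, h2.le⟩
  set J : ℕ := Q * 2 ^ i0 + 1 + (Q + i0 + 3) with hJ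
  set c : ℕ := Q + (8 + J) with hc
  refine ⟨c, ?_⟩
  have hk1 : ∀ᶠ k : ℕ in atTop, 2 * k + c + 2 ≤ 2 ^ k := by
    have h2 := tendsto_pow_const_div_const_pow_of_one_lt 1 (one_lt_two : (1 : ℝ) < 2)
    have h3 : Tendsto (fun k : ℕ => ((c + 2 : ℕ) : ℝ) / 2 ^ k) atTop (𝓝 0) := by
      have h4 := (tendsto_pow_atTop_nhds_zero_of_lt_one (by norm_num : (0 : ℝ) ≤ 1 / 2) (by norm_num)).const_mul ((c + 2 : ℕ) : ℝ)
      rw [mul_zero] at h4
      refine h4.congr fun k => ?_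
      rw [one_div, inv_pow, div_eq_mul_inv]
    have h5 := (h2.const_mul 2).add h3
    rw [mul_zero, add_zero] at h5
    filter_upwards [h5.eventually (gt_mem_nhds one_pos)] with k hk
    have h6 : (0 : ℝ) < 2 ^ k := by positivity
    rw [mul_div_assoc', ← add_div, div_lt_one h6, pow_one] at hk
    have h7 : ((2 * k + (c + 2) : ℕ) : ℝ) < ((2 ^ k : ℕ) : ℝ) := by push_cast at hk ⊢; exact hk
    have h8 : 2 * k + (c + 2) < 2 ^ k := by exact_mod_cast h7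
    omega
  have h2k : Tendsto (fun k : ℕ => (2 : ℝ) ^ k) atTop atTop := tendsto_pow_atTop_atTop_of_one_lt (one_lt_two : (1 : ℝ) < 2)
  have hk2 : ∀ᶠ k : ℕ in atTop, ((7 * (Q * 2 ^ i0) + 1 : ℕ) : ℝ) ≤ δ / 4 * 2 ^ k :=
    (h2k.const_mul_atTop (by positivity : (0 : ℝ) < δ / 4)).eventually_ge_atTop _
  have hk4 : ∀ᶠ k : ℕ in atTop, ((2 * J + 4 : ℕ) : ℝ) ≤ 2 ^ k := h2k.eventually_ge_atTop _
  have hk3 : ∀ᶠ k : ℕ in atTop, K * g ^ (2 * k + c) ≤ δ / 4 * 2 ^ k := by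
    have h1 := hrt.const_mul (K * g ^ c)
    rw [mul_zero] at h1
    filter_upwards [h1.eventually (gt_mem_nhds (by positivity : (0 : ℝ) < δ / 4))] with k hk
    have h2 : K * g ^ (2 * k + c) = K * g ^ c * r ^ k * 2 ^ k := by
      rw [hr, div_pow, pow_add, pow_mul]
      field_simp
    rw [h2]
    have h3 : (0 : ℝ) < 2 ^ k := by positivity
    nlinarith
  filter_upwards [hk1, hk2, hk3, hk4] with k e1 e2 e3 e4
  by_contra hcon
  push Not at hcon
  refine hA (fixed_scale2 (Q := Q) (u := Q) hQ hu hR 𝒢 (k := k) (i0 := i0) (J := J) hJ (by omega) (by exact_mod_cast e4) ?_)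
  rw [← hc]
  have h1 : ∀ i ∈ Finset.Ico i0 k, ((𝒢 (2 * i + Q + 4)).card : ℝ) * (2 * 2 ^ (k - i)) ≤ 2 ^ k * (2 * (K * g ^ (Q + 4))) * r ^ i := by
    intro i hi
    rw [Finset.mem_Ico] at hi
    have h2 : (2 : ℝ) ^ k = 2 ^ (k - i) * 2 ^ i := by rw [← pow_add]; congr 1; omega
    have h3 := hcard (2 * i + Q + 4)
    have h4 : K * g ^ (2 * i + Q + 4) * (2 * 2 ^ (k - i)) = 2 ^ k * (2 * (K * g ^ (Q + 4))) * r ^ i := by
      rw [h2, hr, div_pow, show 2 * i + Q + 4 = 2 * i + (Q + 4) by ring, pow_add, pow_mul]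
      field_simp
    rw [← h4]
    gcongr
  have h2 : ∑ i ∈ Finset.Ico i0 k, ((𝒢 (2 * i + Q + 4)).card : ℝ) * (2 * 2 ^ (k - i)) ≤ δ / 4 * 2 ^ k := by
    refine (Finset.sum_le_sum h1).trans ?_
    rw [← Finset.mul_sum]
    have h3 : ∑ i ∈ Finset.Ico i0 k, r ^ i ≤ r ^ i0 / (1 - r) := geom_sum_Ico_le_of_lt_one hr0 hr1
    calc 2 ^ k * (2 * (K * g ^ (Q + 4))) * ∑ i ∈ Finset.Ico i0 k, r ^ i ≤ 2 ^ k * (2 * (K * g ^ (Q + 4))) * (r ^ i0 / (1 - r)) := by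
          gcongr
      _ = 2 ^ k * (2 * (K * g ^ (Q + 4)) * (r ^ i0 / (1 - r))) := by ring
      _ ≤ 2 ^ k * (δ / 4) := by gcongr
      _ = δ / 4 * 2 ^ k := by ring
  have h3 : ((𝒢 (2 * k + c)).card : ℝ) ≤ δ / 4 * 2 ^ k := (hcard _).trans e3
  have h4 : ((7 * (Q * 2 ^ i0) + 1 + (𝒢 (2 * k + c)).card +
      ∑ i ∈ Finset.Ico i0 k, (𝒢 (2 * i + Q + 4)).card * (2 * 2 ^ (k - i)) : ℕ) : ℝ) < ((goodPos A 𝒢 k c).card : ℝ) := by
    refine lt_of_le_of_lt ?_ hcon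
    push_cast at e2 h2 h3 ⊢
    have h5 : (0 : ℝ) < 2 ^ k := by positivity
    nlinarith
  exact_mod_cast h4

end Pool.Agent.Helper74.LC
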