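import Pool.Agent.Helper74.LC.Defs

/-!
# Project LC: counting elements of a set in an interval
-/

set_option autoImplicit false

open Filter Topology

namespace Pool.Agent.Helper74.LC

open Classical in
/-- the number of elements of `E` in `[a, b)` -/
noncomputable def cnt (E : Set ℕ) (a b : ℕ) : ℕ := ((Finset.Ico a b).filter fun j => j ∈ E).card

theorem cnt_add (E : Set ℕ) {a b c : ℕ} (h1 : a ≤ b) (h2 : b ≤ c) : cnt E a b + cnt E b c = cnt E a c := by
  classical
  unfold cnt
  rw [← Finset.card_union_of_disjoint, ← Finset.filter_union, Finset.Ico_union_Ico_eq_Ico h1 h2]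
  exact Finset.disjoint_filter_filter (Finset.Ico_disjoint_Ico_consecutive a b c)

theorem cnt_mono (E : Set ℕ) {a b a' b' : ℕ} (h1 : a' ≤ a) (h2 : b ≤ b') : cnt E a b ≤ cnt E a' b' := by
  classical
  exact Finset.card_le_card (Finset.filter_subset_filter _ (Finset.Ico_subset_Ico h1 h2))

theorem card_le_cnt {E : Set ℕ} {a b : ℕ} {ι : Type*} {s : Finset ι} {f : ι → ℕ} (h : ∀ i ∈ s, a ≤ f i ∧ f i < b ∧ f i ∈ E)
    (hinj : ∀ i ∈ s, ∀ j ∈ s, f i = f j → i = j) : s.card ≤ cnt E a b := by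
  classical
  unfold cnt
  refine Finset.card_le_card_of_injOn f (fun i hi => ?_) (fun i hi j hj hij => hinj i hi j hj hij)
  obtain ⟨h1, h2, h3⟩ := h i hi
  exact Finset.mem_coe.2 (Finset.mem_filter.2 ⟨Finset.mem_Ico.2 ⟨h1, h2⟩, h3⟩)

end Pool.Agent.Helper74.LC
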