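import Pool.Agent.Helper74.LC.Stretch
import Pool.Agent.Helper74.LC.Count
import Pool.Agent.Helper74.LC.Words

/-!
# Project LC: repeated positions have least multipliers
-/

set_option autoImplicit false

open Filter Topology

namespace Pool.Agent.Helper74.LC

variable {A : Set ℕ}

/-- repeated positions have least multipliers -/
theorem rep_fr {Q : ℕ} (hQ : 0 < Q) (hR : (Q : ℝ) * R (dg A) 0 ∈ Zi) {k L n n' : ℕ} (hn : n < 2 ^ k) (hn' : n' < 2 ^ k)
    (hne : n ≠ n') (h : ∀ i, i < L → (n + 1 + i ∈ A ↔ n' + 1 + i ∈ A)) :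
    ∃ d a, Fr (Q * (2 ^ k + L + 2) / 2 ^ L) (Q * T (dg A) n) d a ∧ d < 2 ^ k := by
  have hd := dg_dig A
  have hRn := R_int hd (nat_mem Q) hR
  have hQ' : (0 : ℝ) < Q := by exact_mod_cast hQ
  obtain ⟨h1, h2⟩ := approx hd hd L n n' fun j hj => dg_eq A (h j hj)
  obtain ⟨z1, hz1⟩ := hRn n
  obtain ⟨z2, hz2⟩ := hRn n'
  have hz1' : (z1 : ℝ) = Q * R (dg A) n := hz1
  have hz2' : (z2 : ℝ) = Q * R (dg A) n' := hz2
  have hnR : (n' : ℝ) ≤ 2 ^ k := by exact_mod_cast hn'.le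
  -- the symmetric estimate
  have h3 : |((n' : ℝ) - n) * (Q * T (dg A) n) - (z2 - z1)| ≤ Q * (2 ^ k + L + 2) / 2 ^ L := by
    have h4 : ((n' : ℝ) - n) * (Q * T (dg A) n) - (z2 - z1) =
        Q * (n' * (T (dg A) n - T (dg A) n') + (S (dg A) n - S (dg A) n')) := by
      rw [hz1', hz2']
      unfold R
      ring
    rw [h4, abs_mul, abs_of_pos hQ', mul_div_assoc]
    refine mul_le_mul_of_nonneg_left ?_ hQ'.le
    refine (abs_add_le _ _).trans ?_
    rw [abs_mul, Nat.abs_cast]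
    have h5 := mul_le_mul_of_nonneg_left h1 (Nat.cast_nonneg (α := ℝ) n')
    have h6 : (n' : ℝ) * (1 / 2 ^ L) + (L + 2) / 2 ^ L ≤ (2 ^ k + L + 2) / 2 ^ L := by
      rw [mul_one_div, ← add_div]
      exact div_le_div_of_nonneg_right (by linarith) (by positivity)
    linarith
  rcases lt_or_gt_of_ne hne with hlt | hlt
  · obtain ⟨v, rfl⟩ := Nat.exists_eq_add_of_lt hlt
    obtain ⟨d, a, hF, hdv⟩ := exists_Fr (ε := Q * (2 ^ k + L + 2) / 2 ^ L) (α := Q * T (dg A) n) (v := v + 1) (by omega) (z := z2 - z1) (by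
      have h4 : (((n + v + 1 : ℕ) : ℝ) - n) = ((v + 1 : ℕ) : ℝ) := by push_cast; ring_nf
      rw [h4] at h3
      rw [Int.cast_sub]
      exact h3)
    exact ⟨d, a, hF, by omega⟩
  · obtain ⟨v, rfl⟩ := Nat.exists_eq_add_of_lt hlt
    obtain ⟨d, a, hF, hdv⟩ := exists_Fr (ε := Q * (2 ^ k + L + 2) / 2 ^ L) (α := Q * T (dg A) (n' + v + 1)) (v := v + 1) (by omega) (z := z1 - z2) (by
      have h4 : ((n' : ℝ) - ((n' + v + 1 : ℕ) : ℝ)) = -((v + 1 : ℕ) : ℝ) := by push_cast; ring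
      rw [h4] at h3
      rw [Int.cast_sub, ← abs_neg]
      have h5 : -(((v + 1 : ℕ) : ℝ) * (Q * T (dg A) (n' + v + 1)) - ((z1 : ℝ) - z2)) =
        -((v + 1 : ℕ) : ℝ) * (Q * T (dg A) (n' + v + 1)) - (z2 - z1) := by ring
      rw [h5]
      exact h3)
    exact ⟨d, a, hF, by omega⟩

end Pool.Agent.Helper74.LC
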