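import Pool.Agent.Helper74.LC.Core

/-!
# Project LC: a stretch of positions with the same small denominator implies periodicity

`core2`: if `a j` is the integer near `D Q T (n0 + j)` for `j ≤ J` and these integers follow the doubling map, then the digits are eventually periodic.
-/

set_option autoImplicit false

open Filter Topology

namespace Pool.Agent.Helper74.LC

variable {d : ℕ → ℝ}

theorem S_step (hd : Dig d) (n : ℕ) : S d n = T d n + S d (n + 1) / 2 := by
  rw [S_succ hd n, T_succ hd n]; ring

theorem core2 (hd : Dig d) {Q D : ℕ} (hQ : 0 < Q) (hD : 0 < D) (hR : (Q : ℝ) * R d 0 ∈ Zi) {n0 J C : ℕ} {ε : ℝ}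
    {a : ℕ → ℤ} (ha : ∀ j, j ≤ J → |D * (Q * T d (n0 + j)) - a j| ≤ ε)
    (hs : ∀ j, j < J → (a (j + 1) : ℝ) = 2 * a j - D * (Q * d (n0 + j + 1)))
    (hJ : Q * D + 1 + C ≤ J) (hC : 8 * (Q * D) ≤ 2 ^ C) (hN : (2 * ((n0 : ℝ) + J) + 4) * ε + 1 / 4 < 1)
    (hn : 7 * (Q * D) < n0) :
    ∃ m p : ℕ, 0 < p ∧ ∀ k, m < k → d (k + p) = d k := by
  have hRn := R_int hd (nat_mem Q) hR
  set E : ℝ := (Q : ℝ) * D with hE
  have hE0 : 0 < E := by positivity
  have hE1 : (1 : ℝ) ≤ E := by
    have : 1 ≤ Q * D := Nat.mul_pos hQ hD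
    rw [hE]
    exact_mod_cast this
  have hε0 : 0 ≤ ε := (abs_nonneg _).trans (ha 0 (by omega))
  have hε1 : ε < 1 := by
    have h1 : 0 ≤ (2 * ((n0 : ℝ) + J)) * ε := by positivity
    nlinarith
  set ρ : ℕ → ℝ := fun j => a j / E with hρ
  have hρE : ∀ j, E * ρ j = a j := fun j => by simp only [hρ]; field_simp
  have hρI : ∀ j, E * ρ j ∈ Zi := fun j => by rw [hρE]; exact int_mem _
  have hρs : ∀ j, j < J → ρ (j + 1) = 2 * ρ j - d (n0 + j + 1) := by
    intro j hj
    have h1 := hs j hj
    simp only [hρ]
    rw [h1, hE]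
    field_simp
  have haE : ∀ j, j ≤ J → |E * T d (n0 + j) - E * ρ j| ≤ ε := by
    intro j hj
    rw [hρE]
    have : E * T d (n0 + j) = D * (Q * T d (n0 + j)) := by rw [hE]; ring
    rw [this]
    exact ha j hj
  have hunit : ∀ j, j ≤ J → 0 ≤ ρ j ∧ ρ j ≤ 1 := by
    intro j hjJ
    have h2 := abs_le.1 (haE j hjJ)
    rw [hρE] at h2
    have h3 := T_nonneg hd (n0 + j)
    have h4 := T_le hd (n0 + j)
    have h5 : E * T d (n0 + j) ≤ E := mul_le_of_le_one_right hE0.le h4
    have h6 : 0 ≤ E * T d (n0 + j) := by positivity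
    constructor
    · have h7 : (-1 : ℝ) < a j := by linarith [h2.2]
      have h8 : (-1 : ℤ) < a j := by exact_mod_cast h7
      have h9 : (0 : ℝ) ≤ a j := by exact_mod_cast (by omega : 0 ≤ a j)
      exact div_nonneg h9 hE0.le
    · have h7 : (a j : ℝ) < (Q * D : ℕ) + 1 := by push_cast; linarith [h2.1]
      have h8 : a j < (Q * D : ℕ) + 1 := by exact_mod_cast h7
      have h9 : (a j : ℝ) ≤ E := by
        have : a j ≤ (Q * D : ℕ) := by omega
        rw [hE]
        exact_mod_cast this
      simp only [hρ]
      rwa [div_le_one hE0]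
  -- two equal values
  obtain ⟨j, j', hjj, hj', hval⟩ : ∃ j j' : ℕ, j < j' ∧ j' ≤ Q * D + 1 ∧ ρ j = ρ j' := by
    have hmaps : Set.MapsTo a (Finset.Icc 0 (Q * D + 1) : Finset ℕ) (Finset.Icc (0 : ℤ) (Q * D : ℕ) : Finset ℤ) := by
      intro j hj
      rw [Finset.coe_Icc, Set.mem_Icc] at hj
      obtain ⟨h1, h2⟩ := hunit j (by omega)
      rw [Finset.coe_Icc, Set.mem_Icc]
      constructor
      · have : (0 : ℝ) ≤ a j := by rw [← hρE]; positivity
        exact_mod_cast this
      · have : (a j : ℝ) ≤ (Q * D : ℕ) := by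
          rw [← hρE]
          push_cast
          nlinarith
        exact_mod_cast this
    obtain ⟨x, hx, y, hy, hxy, hzz⟩ := Finset.exists_ne_map_eq_of_card_lt_of_maps_to (by
      rw [Int.card_Icc, Nat.card_Icc]
      omega) hmaps
    rw [Finset.mem_Icc] at hx hy
    have hv : ρ x = ρ y := by simp only [hρ]; rw [hzz]
    rcases lt_or_gt_of_ne hxy with h | h
    · exact ⟨x, y, h, hy.2, hv⟩
    · exact ⟨y, x, h, hx.2, hv.symm⟩
  have hj'J : j' + C ≤ J := by omega
  -- after `0` or `1` the values stay
  have hstay : ∀ l, (ρ l = 0 ∨ ρ l = 1) → ∀ i, l + i ≤ J → (ρ (l + i) = 0 ∨ ρ (l + i) = 1) := by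
    intro l h0 i
    induction i with
    | zero => exact fun _ => h0
    | succ i ih =>
      intro hi
      have h1 := hρs (l + i) (by omega)
      obtain ⟨h2, h3⟩ := hunit (l + i + 1) (by omega)
      have h4 := hd.nonneg (n0 + (l + i) + 1)
      have h5 := hd.le_one (n0 + (l + i) + 1)
      rw [← add_assoc]
      rcases ih (by omega) with h6 | h6
      · left; rw [h6] at h1; linarith
      · right; rw [h6] at h1; linarith
  have hper : ∀ i, j' + i ≤ J → ρ (j + i) = ρ (j' + i) := by
    intro i
    induction i with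
    | zero => exact fun _ => hval
    | succ i ih =>
      intro hi
      have h1 := ih (by omega)
      have h3 := hρs (j + i) (by omega)
      have h4 := hρs (j' + i) (by omega)
      have h5 := hunit (j + i + 1) (by omega)
      have h6 := hunit (j' + i + 1) (by omega)
      have hdig : d (n0 + (j + i) + 1) = d (n0 + (j' + i) + 1) := by
        by_contra hne
        have h7 : ρ (j + i) = 1 / 2 ∧ (ρ (j + i + 1) = 0 ∨ ρ (j + i + 1) = 1) := by
          rcases hd (n0 + (j + i) + 1) with ha | ha <;> rcases hd (n0 + (j' + i) + 1) with hb | hb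
          · exact absurd (ha.trans hb.symm) hne
          · rw [ha] at h3; rw [hb, ← h1] at h4
            have : ρ (j + i) = 1 / 2 := by linarith [h5.2, h6.1]
            exact ⟨this, Or.inr (by rw [h3, this]; norm_num)⟩
          · rw [ha] at h3; rw [hb, ← h1] at h4
            have : ρ (j + i) = 1 / 2 := by linarith [h5.1, h6.2]
            exact ⟨this, Or.inl (by rw [h3, this]; norm_num)⟩
          · exact absurd (ha.trans hb.symm) hne
        have h8 := hstay (j + i + 1) h7.2 (j' + i - (j + i + 1)) (by omega)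
        rw [show j + i + 1 + (j' + i - (j + i + 1)) = j' + i by omega, ← h1, h7.1] at h8
        rcases h8 with h8 | h8 <;> norm_num at h8
      rw [← add_assoc, ← add_assoc, h3, h4, h1, hdig]
  -- exactness
  set p : ℕ := j' - j with hp
  have hp0 : 0 < p := by omega
  have hjp : j' = j + p := by omega
  set m : ℕ := n0 + j with hm
  have hT2 : ∀ i, i ≤ C → |E * T d (m + i) - E * T d (m + p + i)| ≤ 2 * ε := by
    intro i hi
    have h1 := haE (j + i) (by omega)
    have h2 := haE (j' + i) (by omega)
    have h3 := hper i (by omega)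
    rw [h3] at h1
    rw [show n0 + (j + i) = m + i by omega] at h1
    rw [show n0 + (j' + i) = m + p + i by omega] at h2
    have h4 : E * T d (m + i) - E * T d (m + p + i) =
      (E * T d (m + i) - E * ρ (j' + i)) - (E * T d (m + p + i) - E * ρ (j' + i)) := by ring
    rw [h4]
    refine (abs_sub _ _).trans ?_
    linarith
  have hS2 : ∀ i, i ≤ C → |E * S d (m + (C - i)) - E * S d (m + p + (C - i))| ≤ 4 * ε + 2 * E / 2 ^ i := by
    intro i
    induction i with
    | zero =>
      intro _
      rw [pow_zero, div_one]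
      have h1 := S_nonneg hd (m + (C - 0))
      have h2 := S_le hd (m + (C - 0))
      have h3 := S_nonneg hd (m + p + (C - 0))
      have h4 := S_le hd (m + p + (C - 0))
      rw [← mul_sub, abs_mul, abs_of_pos hE0]
      have h5 : |S d (m + (C - 0)) - S d (m + p + (C - 0))| ≤ 2 := by
        rw [abs_le]
        constructor <;> linarith
      nlinarith
    | succ i ih =>
      intro hi
      have h1 := ih (by omega)
      have h2 := hT2 (C - (i + 1)) (by omega)
      have h3 := S_step hd (m + (C - (i + 1)))
      have h4 := S_step hd (m + p + (C - (i + 1)))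
      rw [show m + (C - (i + 1)) + 1 = m + (C - i) by omega] at h3
      rw [show m + p + (C - (i + 1)) + 1 = m + p + (C - i) by omega] at h4
      rw [h3, h4]
      have h5 : E * (T d (m + (C - (i + 1))) + S d (m + (C - i)) / 2) -
          E * (T d (m + p + (C - (i + 1))) + S d (m + p + (C - i)) / 2) =
          (E * T d (m + (C - (i + 1))) - E * T d (m + p + (C - (i + 1)))) +
          (E * S d (m + (C - i)) - E * S d (m + p + (C - i))) / 2 := by ring
      rw [h5]
      refine (abs_add_le _ _).trans ?_
      rw [abs_div, abs_two, pow_succ]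
      have h6 : 2 * E / (2 ^ i * 2) = (2 * E / 2 ^ i) / 2 := by rw [div_div]
      rw [h6]
      linarith
  have hS3 : |E * S d m - E * S d (m + p)| ≤ 4 * ε + 1 / 4 := by
    have h1 := hS2 C le_rfl
    rw [Nat.sub_self, add_zero, add_zero] at h1
    refine h1.trans ?_
    have h2 : 2 * E / 2 ^ C ≤ 1 / 4 := by
      rw [div_le_div_iff₀ (by positivity) (by norm_num)]
      have h3 : (8 : ℝ) * (Q * D) ≤ 2 ^ C := by exact_mod_cast hC
      rw [hE]
      linarith
    linarith
  have hex : R d (m + p) - R d m = p * ρ j := by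
    have h1 : E * (p * ρ j - (R d (m + p) - R d m)) ∈ Zi := by
      have : E * (p * ρ j - (R d (m + p) - R d m)) = p * (E * ρ j) - D * (Q * R d (m + p) - Q * R d m) := by
        rw [hE]; ring
      rw [this]
      exact Zi.sub_mem (Zi.mul_mem (nat_mem _) (hρI j))
        (Zi.mul_mem (nat_mem _) (Zi.sub_mem (hRn _) (hRn _)))
    have h2 : |E * (p * ρ j - (R d (m + p) - R d m))| < 1 := by
      have h3 : E * (p * ρ j - (R d (m + p) - R d m)) =
          m * (E * T d m - E * ρ j) - (m + p) * (E * T d (m + p) - E * ρ j) + (E * S d m - E * S d (m + p)) := by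
        unfold R
        push_cast
        ring
      rw [h3]
      have h4 := haE j (by omega)
      have h5 := haE j' (by omega)
      rw [← hm] at h4
      rw [← hval, show n0 + j' = m + p by omega] at h5
      have h6 : |(m : ℝ) * (E * T d m - E * ρ j)| ≤ m * ε := by
        rw [abs_mul, abs_of_nonneg (Nat.cast_nonneg m)]
        exact mul_le_mul_of_nonneg_left h4 (Nat.cast_nonneg m)
      have h7 : |((m : ℝ) + p) * (E * T d (m + p) - E * ρ j)| ≤ (m + p) * ε := by
        rw [abs_mul, abs_of_nonneg (by positivity : (0 : ℝ) ≤ (m : ℝ) + p)]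
        exact mul_le_mul_of_nonneg_left h5 (by positivity)
      have h8 := abs_add_le ((m : ℝ) * (E * T d m - E * ρ j) - (m + p) * (E * T d (m + p) - E * ρ j)) (E * S d m - E * S d (m + p))
      have h9 := abs_sub ((m : ℝ) * (E * T d m - E * ρ j)) ((m + p) * (E * T d (m + p) - E * ρ j))
      have h10 : (m : ℝ) + p ≤ n0 + J := by
        have : m + p ≤ n0 + J := by omega
        exact_mod_cast this
      have h11 : (m : ℝ) ≤ n0 + J := by linarith [Nat.cast_nonneg (α := ℝ) p]
      nlinarith
    have h7 := eq_zero_of_int h1 h2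
    have h8 := (mul_eq_zero.1 h7).resolve_left hE0.ne'
    linarith
  -- the periodic continuation
  set δ : ℕ → ℝ := fun k => if k ≤ m then d k else d (m + 1 + (k - (m + 1)) % p) with hδ
  have hδd : Dig δ := by
    intro k
    simp only [hδ]
    split_ifs
    · exact hd _
    · exact hd _
  have hδ1 : ∀ i, i < p → δ (m + 1 + i) = d (m + 1 + i) := by
    intro i hi
    simp only [hδ]
    rw [if_neg (by omega), show m + 1 + i - (m + 1) = i by omega, Nat.mod_eq_of_lt hi]
  have hδp : ∀ k, m < k → δ (k + p) = δ k := by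
    intro k hk
    simp only [hδ]
    rw [if_neg (by omega), if_neg (by omega), show k + p - (m + 1) = k - (m + 1) + p by omega, Nat.add_mod_right]
  have hTδ : T δ m = ρ j := by
    have h1 : ∀ i, i ≤ p → T δ (m + i) - ρ (j + i) = 2 ^ i * (T δ m - ρ j) := by
      intro i
      induction i with
      | zero => intro _; simp
      | succ i ih =>
        intro hi
        have h2 := T_succ hδd (m + i)
        have h3 := hρs (j + i) (by omega)
        have h4 := hδ1 i (by omega)
        have h5 := ih (by omega)
        rw [show m + 1 + i = m + i + 1 by ring] at h4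
        rw [show n0 + (j + i) + 1 = m + i + 1 by omega] at h3
        rw [← add_assoc, ← add_assoc, pow_succ]
        linear_combination 2 * h5 - 2 * h2 - h3 - h4
    have h2 := h1 p le_rfl
    rw [(per_tail hδp le_rfl).1, ← hjp, ← hval] at h2
    have h3 : (2 : ℝ) ^ p ≠ 1 := by
      have : (1 : ℝ) < 2 ^ p := one_lt_pow₀ (by norm_num) (by omega)
      exact this.ne'
    have h4 : (2 ^ p - 1) * (T δ m - ρ j) = 0 := by linear_combination -h2
    have h5 := (mul_eq_zero.1 h4).resolve_left (sub_ne_zero.2 h3)
    linarith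
  have hRδ : R d m = R δ m := by
    have h1 : ∀ i, i ≤ p → R δ (m + i) - R d (m + i) = 2 ^ i * (R δ m - R d m) := by
      intro i
      induction i with
      | zero => intro _; simp
      | succ i ih =>
        intro hi
        have h2 := R_succ hδd (m + i)
        have h3 := R_succ hd (m + i)
        have h4 := hδ1 i (by omega)
        have h5 := ih (by omega)
        rw [show m + 1 + i = m + i + 1 by ring] at h4
        rw [← add_assoc, pow_succ, h2, h3, h4]
        linear_combination 2 * h5
    have h2 := h1 p le_rfl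
    have h3 : R δ (m + p) = R δ m + p * T δ m := by
      obtain ⟨h4, h5⟩ := per_tail hδp (le_refl m)
      unfold R
      rw [h4, h5]
      push_cast
      ring
    have h4 : (2 : ℝ) ^ p ≠ 1 := by
      have : (1 : ℝ) < 2 ^ p := one_lt_pow₀ (by norm_num) (by omega)
      exact this.ne'
    have h5 : (2 ^ p - 1) * (R δ m - R d m) = 0 := by
      rw [hTδ] at h3
      linear_combination -h2 + h3 - hex
    have h6 := (mul_eq_zero.1 h5).resolve_left (sub_ne_zero.2 h4)
    linarith
  -- the denominators of the periodic tails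
  have hden : ∀ i, E * T δ (m + i) ∈ Zi := by
    intro i
    induction i with
    | zero =>
      rw [add_zero, hTδ]
      exact hρI j
    | succ i ih =>
      have h2 := T_succ hδd (m + i)
      have : E * T δ (m + (i + 1)) = 2 * (E * T δ (m + i)) - E * δ (m + i + 1) := by
        rw [← add_assoc]
        linear_combination -2 * E * h2
      rw [this]
      exact Zi.sub_mem (Zi.mul_mem (by exact_mod_cast nat_mem 2) ih)
        (Zi.mul_mem (Zi.mul_mem (nat_mem _) (nat_mem _)) (dig_mem hδd _))
  have hfar : ∀ n, m ≤ n → 1 / E ≤ |2 * T δ n - 1| := by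
    intro n hn
    obtain ⟨i, rfl⟩ := Nat.exists_eq_add_of_le hn
    have h1 := ne_half hδd hp0 hδp hn
    rw [div_le_iff₀ hE0]
    by_contra h2
    push Not at h2
    have h3 : E * (2 * T δ (m + i) - 1) ∈ Zi := by
      have : E * (2 * T δ (m + i) - 1) = 2 * (E * T δ (m + i)) - E := by ring
      rw [this]
      exact Zi.sub_mem (Zi.mul_mem (by exact_mod_cast nat_mem 2) (hden i)) (Zi.mul_mem (nat_mem _) (nat_mem _))
    have h4 := eq_zero_of_int h3 (by
      rw [abs_mul, abs_of_pos hE0, mul_comm]
      exact h2)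
    have h5 := (mul_eq_zero.1 h4).resolve_left hE0.ne'
    exact h1 (by linarith)
  have hm7 : 7 < (m : ℝ) * (1 / E) := by
    rw [mul_one_div, lt_div_iff₀ hE0]
    have h1 : 7 * (Q * D) < m := by omega
    rw [hE]
    exact_mod_cast h1
  have hfin := rigid hd hδd hfar hm7 hRδ
  refine ⟨m, p, hp0, fun k hk => ?_⟩
  rw [hfin (k + p) (by omega), hfin k hk, hδp k hk]

end Pool.Agent.Helper74.LC
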